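import Pool.Agent.Helper23_Refl.Defs
import Pool.Agent.Helper23_Refl.StmtA

/-!
# REFL, module BASE (helper84): basic facts on the bilinear forms and reflections
-/

set_option linter.all false

namespace Pool.Agent.Refl

open Matrix

/-! ### bilinearity -/

section bilin
variable (G : M4)

theorem br_add_left (x y z : R4) : br G (x + y) z = br G x z + br G y z := by
  simp only [br, Pi.add_apply, add_mul, Finset.sum_add_distrib]

theorem br_add_right (x y z : R4) : br G x (y + z) = br G x y + br G x z := by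
  simp only [br, Pi.add_apply, mul_add, Finset.sum_add_distrib]

theorem br_smul_left (a : ℝ) (x y : R4) : br G (a • x) y = a * br G x y := by
  simp only [br, Pi.smul_apply, smul_eq_mul, Finset.mul_sum, mul_assoc]

theorem br_smul_right (a : ℝ) (x y : R4) : br G x (a • y) = a * br G x y := by
  simp only [br, Pi.smul_apply, smul_eq_mul, Finset.mul_sum]
  refine Finset.sum_congr rfl fun i _ => Finset.sum_congr rfl fun j _ => by ring

theorem br_neg_left (x y : R4) : br G (-x) y = -br G x y := by
  have := br_smul_left G (-1) x y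
  simpa using this

theorem br_neg_right (x y : R4) : br G x (-y) = -br G x y := by
  have := br_smul_right G (-1) x y
  simpa using this

theorem br_sub_left (x y z : R4) : br G (x - y) z = br G x z - br G y z := by
  rw [sub_eq_add_neg, br_add_left, br_neg_left, sub_eq_add_neg]

theorem br_sub_right (x y z : R4) : br G x (y - z) = br G x y - br G x z := by
  rw [sub_eq_add_neg, br_add_right, br_neg_right, sub_eq_add_neg]

@[simp] theorem br_zero_left (x : R4) : br G 0 x = 0 := by simp [br]

@[simp] theorem br_zero_right (x : R4) : br G x 0 = 0 := by simp [br]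

theorem br_sum_left {ι : Type*} (s : Finset ι) (f : ι → R4) (y : R4) :
    br G (∑ i ∈ s, f i) y = ∑ i ∈ s, br G (f i) y := by
  classical
  induction s using Finset.induction_on with
  | empty => simp
  | insert a s ha ih => rw [Finset.sum_insert ha, Finset.sum_insert ha, br_add_left, ih]

theorem br_sum_right {ι : Type*} (s : Finset ι) (f : ι → R4) (y : R4) :
    br G y (∑ i ∈ s, f i) = ∑ i ∈ s, br G y (f i) := by
  classical
  induction s using Finset.induction_on with
  | empty => simp
  | insert a s ha ih => rw [Finset.sum_insert ha, Finset.sum_insert ha, br_add_right, ih]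

theorem bz_add_left (x y z : Z4) : bz G (x + y) z = bz G x z + bz G y z := by
  simp only [bz, Pi.add_apply, add_mul, Finset.sum_add_distrib]

theorem bz_add_right (x y z : Z4) : bz G x (y + z) = bz G x y + bz G x z := by
  simp only [bz, Pi.add_apply, mul_add, Finset.sum_add_distrib]

theorem bz_smul_left (a : ℤ) (x y : Z4) : bz G (a • x) y = a * bz G x y := by
  simp only [bz, Pi.smul_apply, smul_eq_mul, Finset.mul_sum, mul_assoc]

theorem bz_smul_right (a : ℤ) (x y : Z4) : bz G x (a • y) = a * bz G x y := by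
  simp only [bz, Pi.smul_apply, smul_eq_mul, Finset.mul_sum]
  refine Finset.sum_congr rfl fun i _ => Finset.sum_congr rfl fun j _ => by ring

theorem bz_neg_left (x y : Z4) : bz G (-x) y = -bz G x y := by
  have := bz_smul_left G (-1) x y
  simpa using this

theorem bz_neg_right (x y : Z4) : bz G x (-y) = -bz G x y := by
  have := bz_smul_right G (-1) x y
  simpa using this

theorem bz_sub_left (x y z : Z4) : bz G (x - y) z = bz G x z - bz G y z := by
  rw [sub_eq_add_neg, bz_add_left, bz_neg_left, sub_eq_add_neg]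

theorem bz_sub_right (x y z : Z4) : bz G x (y - z) = bz G x y - bz G x z := by
  rw [sub_eq_add_neg, bz_add_right, bz_neg_right, sub_eq_add_neg]

@[simp] theorem bz_zero_left (x : Z4) : bz G 0 x = 0 := by simp [bz]

@[simp] theorem bz_zero_right (x : Z4) : bz G x 0 = 0 := by simp [bz]

theorem bz_sum_left {ι : Type*} (s : Finset ι) (f : ι → Z4) (y : Z4) :
    bz G (∑ i ∈ s, f i) y = ∑ i ∈ s, bz G (f i) y := by
  classical
  induction s using Finset.induction_on with
  | empty => simp
  | insert a s ha ih => rw [Finset.sum_insert ha, Finset.sum_insert ha, bz_add_left, ih]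

theorem bz_sum_right {ι : Type*} (s : Finset ι) (f : ι → Z4) (y : Z4) :
    bz G y (∑ i ∈ s, f i) = ∑ i ∈ s, bz G y (f i) := by
  classical
  induction s using Finset.induction_on with
  | empty => simp
  | insert a s ha ih => rw [Finset.sum_insert ha, Finset.sum_insert ha, bz_add_right, ih]

theorem br_eq_dot (x y : R4) :
    br G x y = x ⬝ᵥ (G.map (Int.cast : ℤ → ℝ)).mulVec y := by
  simp only [br, dotProduct, mulVec, Matrix.map_apply, Finset.mul_sum, mul_assoc]

theorem bz_eq_dot (x y : Z4) : bz G x y = x ⬝ᵥ G.mulVec y := by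
  simp only [bz, dotProduct, mulVec, Finset.mul_sum, mul_assoc]

theorem br_up (x y : Z4) : br G (up x) (up y) = (bz G x y : ℝ) := by
  simp only [br, bz, up]
  push_cast
  rfl

variable {G}

theorem G_symm (hG : G.transpose = G) (i j : Fin 4) : G i j = G j i := by
  conv_lhs => rw [← hG]
  rfl

theorem bz_comm (hG : G.transpose = G) (x y : Z4) : bz G x y = bz G y x := by
  simp only [bz]
  rw [Finset.sum_comm]
  refine Finset.sum_congr rfl fun i _ => Finset.sum_congr rfl fun j _ => ?_
  rw [G_symm hG j i]; ring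

theorem br_comm (hG : G.transpose = G) (x y : R4) : br G x y = br G y x := by
  simp only [br]
  rw [Finset.sum_comm]
  refine Finset.sum_congr rfl fun i _ => Finset.sum_congr rfl fun j _ => ?_
  rw [G_symm hG j i]; ring

end bilin

/-! ### the embedding `up` -/

@[simp] theorem up_apply (x : Z4) (i : Fin 4) : up x i = (x i : ℝ) := rfl

theorem up_add (x y : Z4) : up (x + y) = up x + up y := by
  funext i; simp [up]

theorem up_sub (x y : Z4) : up (x - y) = up x - up y := by
  funext i; simp [up]

theorem up_neg (x : Z4) : up (-x) = -up x := by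
  funext i; simp [up]

theorem up_smul (a : ℤ) (x : Z4) : up (a • x) = (a : ℝ) • up x := by
  funext i; simp [up]

@[simp] theorem up_zero : up 0 = 0 := by
  funext i; simp [up]

theorem up_injective : Function.Injective up := by
  intro x y h
  funext i
  have := congrFun h i
  simpa [up] using this

theorem up_eq_zero {x : Z4} : up x = 0 ↔ x = 0 := by
  constructor
  · intro h
    apply up_injective
    rw [h, up_zero]
  · rintro rfl; exact up_zero

theorem up_sum {ι : Type*} (s : Finset ι) (f : ι → Z4) :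
    up (∑ i ∈ s, f i) = ∑ i ∈ s, up (f i) := by
  classical
  induction s using Finset.induction_on with
  | empty => simp
  | insert a s ha ih => rw [Finset.sum_insert ha, Finset.sum_insert ha, up_add, ih]

/-! ### the action -/

theorem act_add (g : M4) (x y : R4) : act g (x + y) = act g x + act g y :=
  Matrix.mulVec_add _ _ _

theorem act_sub (g : M4) (x y : R4) : act g (x - y) = act g x - act g y :=
  Matrix.mulVec_sub _ _ _

theorem act_neg (g : M4) (x : R4) : act g (-x) = -act g x :=
  Matrix.mulVec_neg _ _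

theorem act_smul (g : M4) (a : ℝ) (x : R4) : act g (a • x) = a • act g x :=
  Matrix.mulVec_smul _ _ _

@[simp] theorem act_zero (g : M4) : act g 0 = 0 := Matrix.mulVec_zero _

@[simp] theorem act_one (x : R4) : act 1 x = x := by
  simp [act]

theorem act_mul (g h : M4) (x : R4) : act (g * h) x = act g (act h x) := by
  unfold act
  rw [Matrix.mulVec_mulVec]
  congr 1
  exact Matrix.map_mul (f := Int.castRingHom ℝ)

theorem act_up (g : M4) (x : Z4) : act g (up x) = up (g.mulVec x) := by
  funext i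
  simp [act, up, mulVec, dotProduct]

theorem act_inv_act (g : M4ˣ) (x : R4) : act ((g⁻¹ : M4ˣ) : M4) (act (g : M4) x) = x := by
  rw [← act_mul]
  simp

theorem act_act_inv (g : M4ˣ) (x : R4) : act (g : M4) (act ((g⁻¹ : M4ˣ) : M4) x) = x := by
  rw [← act_mul]
  simp

theorem mulVec_inv (g : M4ˣ) (x : Z4) :
    ((g⁻¹ : M4ˣ) : M4).mulVec ((g : M4).mulVec x) = x := by
  rw [Matrix.mulVec_mulVec]; simp

theorem mulVec_inv' (g : M4ˣ) (x : Z4) :
    (g : M4).mulVec (((g⁻¹ : M4ˣ) : M4).mulVec x) = x := by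
  rw [Matrix.mulVec_mulVec]; simp

theorem mem_OG {G : M4} {g : M4ˣ} :
    g ∈ OG G ↔ (g : M4).transpose * G * (g : M4) = G := Iff.rfl

theorem bz_OG {G : M4} {g : M4ˣ} (hg : g ∈ OG G) (x y : Z4) :
    bz G ((g : M4).mulVec x) ((g : M4).mulVec y) = bz G x y := by
  rw [mem_OG] at hg
  rw [bz_eq_dot, bz_eq_dot]
  conv_rhs => rw [← hg]
  rw [Matrix.mul_assoc, ← Matrix.mulVec_mulVec, Matrix.mulVec_transpose,
    ← Matrix.mulVec_mulVec, dotProduct_comm x, ← Matrix.dotProduct_mulVec,
    dotProduct_comm]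

theorem br_OG {G : M4} {g : M4ˣ} (hg : g ∈ OG G) (x y : R4) :
    br G (act (g : M4) x) (act (g : M4) y) = br G x y := by
  rw [mem_OG] at hg
  have hg' : ((g : M4).map (Int.cast : ℤ → ℝ)).transpose * (G.map (Int.cast : ℤ → ℝ)) *
      ((g : M4).map (Int.cast : ℤ → ℝ)) = G.map (Int.cast : ℤ → ℝ) := by
    have h1 := congrArg (fun A : M4 => A.map (Int.castRingHom ℝ)) hg
    simp only [Matrix.map_mul] at h1
    rw [← Matrix.transpose_map]
    exact h1
  rw [br_eq_dot, br_eq_dot]
  conv_rhs => rw [← hg']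
  unfold act
  rw [Matrix.mul_assoc, ← Matrix.mulVec_mulVec, Matrix.mulVec_transpose,
    ← Matrix.mulVec_mulVec, dotProduct_comm x, ← Matrix.dotProduct_mulVec,
    dotProduct_comm]

theorem br_OG_left {G : M4} {g : M4ˣ} (hg : g ∈ OG G) (x y : R4) :
    br G (act (g : M4) x) y = br G x (act ((g⁻¹ : M4ˣ) : M4) y) := by
  rw [← br_OG hg x, act_act_inv]

theorem bz_OG_left {G : M4} {g : M4ˣ} (hg : g ∈ OG G) (x y : Z4) :
    bz G ((g : M4).mulVec x) y = bz G x (((g⁻¹ : M4ˣ) : M4).mulVec y) := by
  rw [← bz_OG hg x, mulVec_inv']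

/-! ### Lorentz coordinates -/

/-- Lorentz coordinates -/
theorem Lat.coord {G : M4} (h : Lat G) : ∃ T : R4 ≃ₗ[ℝ] R4, ∀ x y : R4,
    br G x y = T x 0 * T y 0 + T x 1 * T y 1 + T x 2 * T y 2 - T x 3 * T y 3 := by
  obtain ⟨P, hP, hPG⟩ := h.sig
  have h1 : P * P⁻¹ = 1 := Matrix.mul_nonsing_inv P hP
  have h2 : P⁻¹ * P = 1 := Matrix.nonsing_inv_mul P hP
  refine ⟨LinearEquiv.ofLinear (Matrix.mulVecLin P⁻¹) (Matrix.mulVecLin P) ?_ ?_, ?_⟩
  · rw [← Matrix.mulVecLin_mul, h2, Matrix.mulVecLin_one]
  · rw [← Matrix.mulVecLin_mul, h1, Matrix.mulVecLin_one]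
  · intro x y
    simp only [LinearEquiv.ofLinear_apply, Matrix.mulVecLin_apply]
    have hx : x = P.mulVec (P⁻¹.mulVec x) := by rw [Matrix.mulVec_mulVec, h1, Matrix.one_mulVec]
    have hy : y = P.mulVec (P⁻¹.mulVec y) := by rw [Matrix.mulVec_mulVec, h1, Matrix.one_mulVec]
    set u := P⁻¹.mulVec x with hu
    set v := P⁻¹.mulVec y with hv
    have key : br G (P.mulVec u) (P.mulVec v) =
        u ⬝ᵥ (P.transpose * G.map (Int.cast : ℤ → ℝ) * P).mulVec v := by
      rw [br_eq_dot, Matrix.mul_assoc, ← Matrix.mulVec_mulVec, Matrix.mulVec_transpose,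
        ← Matrix.mulVec_mulVec, dotProduct_comm u, ← Matrix.dotProduct_mulVec,
        dotProduct_comm]
    rw [hx, hy, key, hPG]
    simp only [dotProduct, Matrix.mulVec_diagonal, Fin.sum_univ_four]
    simp
    ring

theorem Lat.det_neg {G : M4} (h : Lat G) : G.det < 0 := by
  obtain ⟨P, hP, hPG⟩ := h.sig
  have h1 := congrArg Matrix.det hPG
  rw [Matrix.det_mul, Matrix.det_mul, Matrix.det_transpose, Matrix.det_diagonal] at h1
  have h2 : (G.map (Int.cast : ℤ → ℝ)).det = (G.det : ℝ) :=
    ((Int.castRingHom ℝ).map_det G).symm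
  rw [h2] at h1
  simp [Fin.prod_univ_four] at h1
  have h3 : P.det ≠ 0 := hP.ne_zero
  have h4 : 0 < P.det ^ 2 := by positivity
  have h5 : (G.det : ℝ) < 0 := by
    by_contra hcon
    push Not at hcon
    have : 0 ≤ P.det ^ 2 * (G.det : ℝ) := mul_nonneg h4.le hcon
    nlinarith
  exact_mod_cast h5

theorem Lat.det_ne {G : M4} (h : Lat G) : G.det ≠ 0 := h.det_neg.ne

theorem Lat.nondeg {G : M4} (h : Lat G) {x : R4} (hx : ∀ y, br G x y = 0) : x = 0 := by
  obtain ⟨T, hT⟩ := h.coord
  apply T.injective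
  rw [map_zero]
  funext i
  have := hx (T.symm (Pi.single i 1))
  rw [hT] at this
  simp only [LinearEquiv.apply_symm_apply] at this
  fin_cases i <;> simpa [Pi.single_apply] using this

theorem Lat.bcomm {G : M4} (h : Lat G) (x y : R4) : br G x y = br G y x := br_comm h.symm x y

theorem Lat.zcomm {G : M4} (h : Lat G) (x y : Z4) : bz G x y = bz G y x := bz_comm h.symm x y

theorem lor_pos_aux (a b c d p q r s : ℝ) (hO : p * p + q * q + r * r - s * s < 0)
    (hx : a * p + b * q + c * r - d * s = 0) (hcon : a * a + b * b + c * c - d * d ≤ 0) :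
    a = 0 ∧ b = 0 ∧ c = 0 ∧ d = 0 := by
  have h1 : d * s = a * p + b * q + c * r := by linarith
  have h2 : (a * p + b * q + c * r) ^ 2 ≤ (a ^ 2 + b ^ 2 + c ^ 2) * (p ^ 2 + q ^ 2 + r ^ 2) := by
    nlinarith [sq_nonneg (a * q - b * p), sq_nonneg (a * r - c * p), sq_nonneg (b * r - c * q)]
  have h3 : a ^ 2 + b ^ 2 + c ^ 2 ≤ d ^ 2 := by linarith
  have h4 : 0 < s ^ 2 - (p ^ 2 + q ^ 2 + r ^ 2) := by linarith
  have h6 : (a ^ 2 + b ^ 2 + c ^ 2) * (p ^ 2 + q ^ 2 + r ^ 2) ≤
      d ^ 2 * (p ^ 2 + q ^ 2 + r ^ 2) := mul_le_mul_of_nonneg_right h3 (by positivity)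
  have h5 : d ^ 2 * (s ^ 2 - (p ^ 2 + q ^ 2 + r ^ 2)) ≤ 0 := by
    have h8 : (d * s) ^ 2 ≤ (a ^ 2 + b ^ 2 + c ^ 2) * (p ^ 2 + q ^ 2 + r ^ 2) := by
      rw [h1]; exact h2
    have h9 : (d * s) ^ 2 = d ^ 2 * s ^ 2 := by ring
    rw [h9] at h8
    linarith
  have h7 : d = 0 := by
    by_contra hd
    have h8 : 0 < d ^ 2 := by positivity
    have h9 := mul_pos h8 h4
    linarith
  rw [h7] at h3
  have ha := sq_nonneg a
  have hb := sq_nonneg b
  have hc := sq_nonneg c
  have ha0 : a ^ 2 = 0 := by linarith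
  have hb0 : b ^ 2 = 0 := by linarith
  have hc0 : c ^ 2 = 0 := by linarith
  exact ⟨by simpa using ha0, by simpa using hb0, by simpa using hc0, h7⟩

/-- the orthogonal complement of a negative vector is positive definite -/
theorem Lat.pos {G : M4} (h : Lat G) {O x : R4} (hO : br G O O < 0) (hx : br G x O = 0)
    (hne : x ≠ 0) : 0 < br G x x := by
  obtain ⟨T, hT⟩ := h.coord
  have hne' : T x ≠ 0 := fun hh => hne (T.injective (by rw [hh, map_zero]))
  rw [hT] at *
  by_contra hcon
  obtain ⟨h0, h1, h2, h3⟩ := lor_pos_aux _ _ _ _ _ _ _ _ hO hx (not_lt.1 hcon)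
  apply hne'
  funext i
  fin_cases i
  · exact h0
  · exact h1
  · exact h2
  · exact h3

theorem Lat.pos' {G : M4} (h : Lat G) {O x : R4} (hO : br G O O < 0) (hx : br G x O = 0) :
    0 ≤ br G x x := by
  by_cases hne : x = 0
  · rw [hne]; simp
  · exact (h.pos hO hx hne).le

/-- reversed Cauchy-Schwarz -/
theorem Lat.rcs {G : M4} (h : Lat G) {x : R4} (hx : br G x x < 0) (y : R4) :
    br G x x * br G y y ≤ br G x y ^ 2 := by
  have h1 : br G (br G x x • y - br G x y • x) x = 0 := by
    rw [br_sub_left, br_smul_left, br_smul_left, h.bcomm y x]; ring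
  have h2 := h.pos' hx h1
  have h3 : br G (br G x x • y - br G x y • x) (br G x x • y - br G x y • x) =
      br G x x * (br G x x * br G y y - br G x y ^ 2) := by
    simp only [br_sub_left, br_sub_right, br_smul_left, br_smul_right]
    rw [h.bcomm y x]; ring
  rw [h3] at h2
  by_contra hcon
  push Not at hcon
  nlinarith

/-- equality case of the reversed Cauchy-Schwarz inequality -/
theorem Lat.rcs_eq {G : M4} (h : Lat G) {x : R4} (hx : br G x x < 0) {y : R4}
    (he : br G x x * br G y y = br G x y ^ 2) : br G x x • y = br G x y • x := by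
  have h1 : br G (br G x x • y - br G x y • x) x = 0 := by
    rw [br_sub_left, br_smul_left, br_smul_left, h.bcomm y x]; ring
  have h3 : br G (br G x x • y - br G x y • x) (br G x x • y - br G x y • x) =
      br G x x * (br G x x * br G y y - br G x y ^ 2) := by
    simp only [br_sub_left, br_sub_right, br_smul_left, br_smul_right]
    rw [h.bcomm y x]; ring
  by_contra hcon
  have h2 := h.pos hx h1 (sub_ne_zero.2 hcon)
  rw [h3, he] at h2
  simp at h2

/-- two vectors in the same sheet have negative product -/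
theorem Lat.sheet {G : M4} (h : Lat G) {O x y : R4} (hO : br G O O < 0) (hx : br G x x ≤ 0)
    (hy : br G y y < 0) (hxO : br G x O < 0) (hyO : br G y O < 0) : br G x y < 0 := by
  by_contra hcon
  push Not at hcon
  have h1 : br G (br G y O • x - br G x O • y) O = 0 := by
    rw [br_sub_left, br_smul_left, br_smul_left]; ring
  have h2 := h.pos' hO h1
  have h3 : br G (br G y O • x - br G x O • y) (br G y O • x - br G x O • y) =
      br G y O ^ 2 * br G x x - 2 * (br G y O * br G x O) * br G x y + br G x O ^ 2 * br G y y := by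
    simp only [br_sub_left, br_sub_right, br_smul_left, br_smul_right]
    rw [h.bcomm y x]; ring
  rw [h3] at h2
  have h4 : 0 < br G y O * br G x O := mul_pos_of_neg_of_neg hyO hxO
  have h5 : 0 < br G x O ^ 2 := by
    rw [sq]; exact mul_pos_of_neg_of_neg hxO hxO
  have h6 : br G y O ^ 2 * br G x x ≤ 0 := mul_nonpos_of_nonneg_of_nonpos (sq_nonneg _) hx
  have h7 : br G x O ^ 2 * br G y y < 0 := mul_neg_of_pos_of_neg h5 hy
  have h8 : 0 ≤ br G y O * br G x O * br G x y := mul_nonneg h4.le hcon
  linarith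

/-- a nonzero vector with nonpositive norm is not orthogonal to a negative vector -/
theorem Lat.ne_of_nonpos {G : M4} (h : Lat G) {O x : R4} (hO : br G O O < 0)
    (hx : br G x x ≤ 0) (hne : x ≠ 0) : br G x O ≠ 0 := by
  intro h0
  exact absurd (h.pos hO h0 hne) (not_lt.2 hx)

theorem br_continuous (G : M4) : Continuous (fun p : R4 × R4 => br G p.1 p.2) := by
  unfold br
  fun_prop

theorem br_continuous_left (G : M4) (y : R4) : Continuous (fun x : R4 => br G x y) := by
  unfold br
  fun_prop

theorem br_continuous_right (G : M4) (y : R4) : Continuous (fun x : R4 => br G y x) := by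
  unfold br
  fun_prop

theorem br_continuous_diag (G : M4) : Continuous (fun x : R4 => br G x x) := by
  unfold br
  fun_prop

/-- a continuous, quadratically homogeneous, positive function dominates the sum of squares -/
theorem exists_lower_bound (M : R4 → ℝ) (hc : Continuous M) (hh : ∀ (a : ℝ) x, M (a • x) = a ^ 2 * M x)
    (hp : ∀ x, x ≠ 0 → 0 < M x) : ∃ c : ℝ, 0 < c ∧ ∀ x : R4, c * ∑ i, x i ^ 2 ≤ M x := by
  have hK : IsCompact (Metric.sphere (0 : R4) 1) := isCompact_sphere _ _
  have hne : (Metric.sphere (0 : R4) 1).Nonempty :=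
    NormedSpace.sphere_nonempty.2 zero_le_one
  obtain ⟨x0, hx0, hmin⟩ := hK.exists_isMinOn hne hc.continuousOn
  have hx0' : x0 ≠ 0 := by
    intro h0
    rw [h0] at hx0
    simp at hx0
  have hm := hp x0 hx0'
  refine ⟨M x0 / 4, by positivity, fun x => ?_⟩
  by_cases hx : x = 0
  · subst hx
    have : M 0 = 0 := by
      have := hh 0 0
      simpa using this
    simp [this]
  · have hn : 0 < ‖x‖ := norm_pos_iff.2 hx
    have h1 : M x0 ≤ M (‖x‖⁻¹ • x) := by
      apply hmin
      simp [norm_smul, hn.ne']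
    rw [hh] at h1
    have h2 : M x0 * ‖x‖ ^ 2 ≤ M x := by
      have h3 : ‖x‖⁻¹ ^ 2 * M x * ‖x‖ ^ 2 = M x := by
        field_simp
      calc M x0 * ‖x‖ ^ 2 ≤ ‖x‖⁻¹ ^ 2 * M x * ‖x‖ ^ 2 :=
            mul_le_mul_of_nonneg_right h1 (by positivity)
        _ = M x := h3
    have h4 : ∑ i, x i ^ 2 ≤ 4 * ‖x‖ ^ 2 := by
      have h5 : ∀ i, x i ^ 2 ≤ ‖x‖ ^ 2 := by
        intro i
        have := norm_le_pi_norm x i
        rw [Real.norm_eq_abs] at this
        rw [← sq_abs]
        exact pow_le_pow_left₀ (abs_nonneg _) this 2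
      calc ∑ i, x i ^ 2 ≤ ∑ i : Fin 4, ‖x‖ ^ 2 := Finset.sum_le_sum fun i _ => h5 i
        _ = 4 * ‖x‖ ^ 2 := by simp
    calc M x0 / 4 * ∑ i, x i ^ 2 ≤ M x0 / 4 * (4 * ‖x‖ ^ 2) :=
          mul_le_mul_of_nonneg_left h4 (by positivity)
      _ = M x0 * ‖x‖ ^ 2 := by ring
      _ ≤ M x := h2

/-- the positive definite majorant `Q(x) + 2 (x,O)^2 / (-Q(O))` -/
noncomputable def maj (G : M4) (O x : R4) : ℝ := br G x x + 2 * br G x O ^ 2 / (-br G O O)

theorem Lat.maj_pos {G : M4} (h : Lat G) {O x : R4} (hO : br G O O < 0) (hne : x ≠ 0) :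
    0 < maj G O x := by
  unfold maj
  by_cases h0 : br G x O = 0
  · rw [h0]; simpa using h.pos hO h0 hne
  · have h1 := h.rcs hO x
    rw [h.bcomm O x] at h1
    have h2 : 0 < br G x O ^ 2 := by positivity
    have h3 : 0 < -br G O O := by linarith
    have h4 : -br G x x ≤ br G x O ^ 2 / (-br G O O) := by
      rw [le_div_iff₀ h3]; linarith
    have h5 : 0 < br G x O ^ 2 / (-br G O O) := by positivity
    have h6 : 2 * br G x O ^ 2 / (-br G O O) = 2 * (br G x O ^ 2 / (-br G O O)) := by ring
    rw [h6]; linarith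

theorem maj_smul {G : M4} (O : R4) (a : ℝ) (x : R4) : maj G O (a • x) = a ^ 2 * maj G O x := by
  unfold maj
  simp only [br_smul_left, br_smul_right]
  ring

theorem maj_nonneg {G : M4} (h : Lat G) {O : R4} (hO : br G O O < 0) (x : R4) :
    0 ≤ maj G O x := by
  by_cases hx : x = 0
  · subst hx; simp [maj]
  · exact (h.maj_pos hO hx).le

theorem maj_continuous {G : M4} (O : R4) : Continuous (fun x => maj G O x) := by
  unfold maj br
  fun_prop

/-- the majorant is bounded below by a multiple of the sum of squares -/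
theorem Lat.maj_lower {G : M4} (h : Lat G) {O : R4} (hO : br G O O < 0) :
    ∃ c : ℝ, 0 < c ∧ ∀ x : R4, c * ∑ i, x i ^ 2 ≤ maj G O x :=
  exists_lower_bound _ (maj_continuous O) (maj_smul O) (fun _ hx => h.maj_pos hO hx)

theorem abs_le_br {G : M4} (h : Lat G) {O x : R4} (hO : br G O O < 0) :
    |br G x x| ≤ maj G O x := by
  have h1 : 0 < -br G O O := by linarith
  have h2 : 0 ≤ br G x O ^ 2 / (-br G O O) := by positivity
  have h6 : maj G O x = br G x x + 2 * (br G x O ^ 2 / (-br G O O)) := by unfold maj; ring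
  have h3 := h.rcs hO x
  rw [h.bcomm O x] at h3
  have h4 : -br G x x ≤ br G x O ^ 2 / (-br G O O) := by
    rw [le_div_iff₀ h1]; linarith
  rw [h6, abs_le]
  constructor <;> linarith

theorem maj_act {G : M4} {g : M4ˣ} (hg : g ∈ OG G) (O x : R4) :
    maj G (act (g : M4) O) (act (g : M4) x) = maj G O x := by
  unfold maj
  simp only [br_OG hg]

end Pool.Agent.Refl
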