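import Pool.Agent.Helper84_Refl.Cham3
import Pool.Agent.Helper92_Refl.Small
import Pool.Agent.Helper15_Refl.Fin
import Pool.Agent.Helper18_Refl.Avoid

/-!
# REFL: compact chambers of reflective lattices, without hypotheses
-/

namespace Pool.Agent.Refl.H84

theorem wallSep_ : WallSepStmt := wallSep H18.avoid H15.finVec H92.rootDvd

theorem wallGen_ : WallGenStmt := wallGen H18.avoid H15.finVec H92.rootDvd H15.finGrp

theorem tits_ : TitsStmt := H3.tits wallSimple wallGen_

theorem cham_ : ChamStmt :=
  cham H15.finGrp H15.finVec H92.rootDvd coc tits_ wallSep_ wallSimple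

end Pool.Agent.Refl.H84
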