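import Pool.Agent.Helper66_Refl.FarNat

/-!
# REFL, module GEOII, rounding (helper84)
-/

set_option linter.all false

namespace Pool.Agent.Refl.H84

open Matrix Pool.Agent.Refl Pool.Agent.Refl.H66

lemma gU_lt {N : ℕ} (h : N < 4) : gU N ≤ 866026 := by
  have h1 : N * SS * SS ≤ 3 * SS * SS := by
    have : N ≤ 3 := by omega
    exact Nat.mul_le_mul_right _ (Nat.mul_le_mul_right _ this)
  have h2 : Nat.sqrt (N * SS * SS) < 1732051 := by
    rw [Nat.sqrt_lt']
    refine lt_of_le_of_lt h1 ?_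
    norm_num [SS]
  unfold gU
  omega

/-- the two heights in case II -/
lemma y2II_ge {N : ℕ} (h : N < 4) :
    (1 + gN N) * (1 - gN N ^ 2) / 2 ≤ (y2II N : ℝ) / SS := by
  have h0 : (0 : ℝ) < SS := by exact_mod_cast SSpos
  have h1 := le_gU N
  have h4 : (0 : ℝ) ≤ 4 - N := by
    have : (N : ℝ) < 4 := by exact_mod_cast h
    linarith
  have h5 := real_div_le ((SS + gU N) * (4 - N)) 8 (by norm_num)
  have e1 : (((SS + gU N) * (4 - N) : ℕ) : ℝ) = (SS + gU N) * (4 - N) := by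
    rw [Nat.cast_mul, Nat.cast_sub h.le]; push_cast; ring
  rw [le_div_iff₀ h0]
  unfold y2II
  refine le_trans ?_ h5
  rw [e1, gN_sq]
  have h6 : (1 + gN N) * SS ≤ SS + gU N := by
    rw [le_div_iff₀ h0] at h1
    nlinarith
  have h7 : (1 + gN N) * SS * (4 - N) ≤ (SS + gU N) * (4 - N) :=
    mul_le_mul_of_nonneg_right h6 h4
  push_cast
  nlinarith

/-- rounding of the formula for the ends -/
lemma bII_ge {N13 N14 n : ℕ} (h13 : N13 < 4) (h14 : N14 < 4) {Y3 Y4 : ℝ} (hY3 : 0 ≤ Y3)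
    (hY4 : 0 ≤ Y4) (h3 : Y3 ^ 2 ≤ (1 + gN N13) * (1 - gN N13 ^ 2) / 2)
    (h4 : Y4 ^ 2 ≤ (1 + gN N14) * (1 - gN N14 ^ 2) / 2)
    (hn : gN n ≤ Y3 * Y4 + Real.sqrt (1 - gN N13 ^ 2 + Y3 ^ 2) *
      Real.sqrt (1 - gN N14 ^ 2 + Y4 ^ 2) - gN N13 * gN N14) : n ≤ bII N13 N14 := by
  have h0 : (0 : ℝ) < SS := by exact_mod_cast SSpos
  have hY3' := h3.trans (y2II_ge h13)
  have hY4' := h4.trans (y2II_ge h14)
  set X := mulU (sqU (c4 N13 + y2II N13)) (sqU (c4 N14 + y2II N14)) +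
    sqU (mulU (y2II N13) (y2II N14)) with hX
  set x := X - gL N13 * gL N14 / SS with hx
  have hb : bII N13 N14 = 4 * x * x / (SS * SS) := rfl
  have b1 : Y3 * Y4 ≤ (sqU (mulU (y2II N13) (y2II N14)) : ℝ) / SS := by
    have e : Y3 * Y4 = Real.sqrt (Y3 ^ 2 * Y4 ^ 2) := by
      rw [← mul_pow, Real.sqrt_sq (by positivity)]
    rw [e]
    exact sqU_ge (mulU_ge (by positivity) hY3' hY4')
  have b2 : Real.sqrt (1 - gN N13 ^ 2 + Y3 ^ 2) ≤ (sqU (c4 N13 + y2II N13) : ℝ) / SS := by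
    apply sqU_ge
    rw [addcast, c4_eq h13]
    linarith
  have b3 : Real.sqrt (1 - gN N14 ^ 2 + Y4 ^ 2) ≤ (sqU (c4 N14 + y2II N14) : ℝ) / SS := by
    apply sqU_ge
    rw [addcast, c4_eq h14]
    linarith
  have b4 := mulU_ge (Real.sqrt_nonneg (1 - gN N13 ^ 2 + Y3 ^ 2)) b2 b3
  have b5 : ((gL N13 * gL N14 / SS : ℕ) : ℝ) / SS ≤ gN N13 * gN N14 := by
    have h1 := div_le_real (gL N13 * gL N14) SS
    have h2 := mul_le_mul (gL_le N13) (gL_le N14) (by positivity) (gN_nonneg N13)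
    rw [div_le_iff₀ h0]
    refine h1.trans ?_
    rw [div_le_iff₀ h0]
    push_cast
    have e : (gL N13 : ℝ) * gL N14 = (gL N13 : ℝ) / SS * ((gL N14 : ℝ) / SS) * (SS * SS) := by
      field_simp
    rw [e]
    have := mul_le_mul_of_nonneg_right h2 (by positivity : (0 : ℝ) ≤ SS * SS)
    linarith
  have b6 : gN n ≤ (x : ℝ) / SS := by
    have hX' : ((X : ℕ) : ℝ) / SS = (mulU (sqU (c4 N13 + y2II N13))
        (sqU (c4 N14 + y2II N14)) : ℝ) / SS + (sqU (mulU (y2II N13) (y2II N14)) : ℝ) / SS := by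
      rw [hX, addcast]
    have hsub : (X : ℝ) - ((gL N13 * gL N14 / SS : ℕ) : ℝ) ≤ (x : ℝ) := by
      rw [hx]
      have : X ≤ (X - gL N13 * gL N14 / SS) + gL N13 * gL N14 / SS := by omega
      have h' : (X : ℝ) ≤ ((X - gL N13 * gL N14 / SS : ℕ) : ℝ) +
          ((gL N13 * gL N14 / SS : ℕ) : ℝ) := by
        exact_mod_cast this
      linarith
    have hsub' := div_le_div_of_nonneg_right hsub h0.le
    rw [sub_div] at hsub'
    linarith
  rw [hb, Nat.le_div_iff_mul_le (by norm_num [SS])]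
  have b7 : gN n * SS ≤ x := by rwa [le_div_iff₀ h0] at b6
  have b8 : (gN n * SS) ^ 2 ≤ (x : ℝ) ^ 2 := by
    apply pow_le_pow_left₀ _ b7
    have := gN_nonneg n
    positivity
  rw [mul_pow, gN_sq] at b8
  have b9 : (n : ℝ) * ((SS : ℝ) * SS) ≤ 4 * x * x := by nlinarith
  exact_mod_cast b9

/-- the value `c = chL / SS` -/
lemma chL_sq {N13 N14 N34 t : ℕ} (h13 : N13 < 4) (h14 : N14 < 4)
    (ht : t * t = N13 * N14 * N34) :
    ((chL N13 N14 N34 : ℝ) / SS) ^ 2 * ((1 - gN N13 ^ 2) * (1 - gN N14 ^ 2)) ≤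
      (gN N34 + gN N13 * gN N14) ^ 2 ∧
    ((1 - gN N13 ^ 2) * (1 - gN N14 ^ 2) < (gN N34 + gN N13 * gN N14) ^ 2 →
      1030000 ≤ chL N13 N14 N34) := by
  have h0 : (0 : ℝ) < SS := by exact_mod_cast SSpos
  have htq : Nat.sqrt (N13 * N14 * N34) = t := by rw [← ht, Nat.sqrt_eq]
  have hgt : gN N13 * gN N14 * gN N34 = (t : ℝ) / 8 := by
    have htr : (t : ℝ) = Real.sqrt N13 * Real.sqrt N14 * Real.sqrt N34 := by
      rw [← Real.sqrt_mul (by positivity), ← Real.sqrt_mul (by positivity)]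
      symm
      rw [Real.sqrt_eq_iff_mul_self_eq (by positivity) (by positivity)]
      have : ((t * t : ℕ) : ℝ) = ((N13 * N14 * N34 : ℕ) : ℝ) := by rw [ht]
      push_cast at this
      exact this.symm
    rw [htr]; unfold gN; ring
  set A := 4 * N34 + N13 * N14 + 4 * t with hA
  set B := (4 - N13) * (4 - N14) with hB
  have hB0 : 0 < B := Nat.mul_pos (by omega) (by omega)
  have hB16 : B ≤ 16 := by
    have h1 : 4 - N13 ≤ 4 := by omega
    have h2 : 4 - N14 ≤ 4 := by omega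
    calc B ≤ 4 * 4 := Nat.mul_le_mul h1 h2
      _ = 16 := by norm_num
  have hB0' : (0 : ℝ) < B := by exact_mod_cast hB0
  have e1 : (gN N34 + gN N13 * gN N14) ^ 2 = (A : ℝ) / 16 := by
    have : (gN N34 + gN N13 * gN N14) ^ 2 = gN N34 ^ 2 + gN N13 ^ 2 * gN N14 ^ 2 +
      2 * (gN N13 * gN N14 * gN N34) := by ring
    rw [this, hgt, gN_sq, gN_sq, gN_sq, hA]
    push_cast
    ring
  have e2 : (1 - gN N13 ^ 2) * (1 - gN N14 ^ 2) = (B : ℝ) / 16 := by
    rw [gN_sq, gN_sq, hB, Nat.cast_mul, Nat.cast_sub h13.le, Nat.cast_sub h14.le]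
    push_cast
    ring
  have hch : chL N13 N14 N34 = Nat.sqrt (A * SS * SS / B) := by
    unfold chL
    rw [htq]
  rw [e1, e2, hch]
  constructor
  · have h1 := Nat.sqrt_le (A * SS * SS / B)
    have h2 : ((Nat.sqrt (A * SS * SS / B) : ℝ)) ^ 2 ≤ ((A * SS * SS / B : ℕ) : ℝ) := by
      rw [sq]; exact_mod_cast h1
    have h3 := div_le_real (A * SS * SS) B
    have h4 : ((Nat.sqrt (A * SS * SS / B) : ℝ)) ^ 2 * B ≤ A * SS * SS := by
      have h5 := h2.trans h3
      rw [le_div_iff₀ hB0'] at h5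
      push_cast at h5
      exact h5
    rw [div_pow, div_mul_div_comm, div_le_div_iff₀ (by positivity) (by positivity)]
    nlinarith
  · intro h
    have h1 : B < A := by
      have : (B : ℝ) < A := by linarith
      exact_mod_cast this
    rw [Nat.le_sqrt]
    rw [Nat.le_div_iff_mul_le hB0]
    have h2 : (B + 1) * SS * SS ≤ A * SS * SS := by
      have : B + 1 ≤ A := h1
      exact Nat.mul_le_mul_right _ (Nat.mul_le_mul_right _ this)
    refine le_trans ?_ h2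
    unfold SS
    nlinarith

lemma muII_le {N13 N14 N34 : ℕ} (h : 1030000 ≤ chL N13 N14 N34) :
    (muII N13 N14 N34 : ℝ) / SS ≤ ((chL N13 N14 N34 : ℝ) / SS - 1) / 2 ∧
      15000 ≤ muII N13 N14 N34 := by
  have h0 : (0 : ℝ) < SS := by exact_mod_cast SSpos
  constructor
  · unfold muII
    have h1 := div_le_real (chL N13 N14 N34 - SS) 2
    rw [Nat.cast_sub (by unfold SS; omega)] at h1
    rw [div_le_iff₀ h0]
    refine h1.trans (le_of_eq ?_)
    push_cast
    field_simp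
  · unfold muII SS
    omega

lemma lamII_le {N13 N14 N34 : ℕ} (h13 : N13 < 4) (h14 : N14 < 4)
    (h : 1030000 ≤ chL N13 N14 N34) {D S : ℝ} (hD : 0 < D)
    (hS1 : ((chL N13 N14 N34 : ℝ) / SS - 1) / 2 * (1 - gN N13) / (1 + gN N13) * D ≤ S)
    (hS2 : ∀ k3 k4 r : ℝ, (1 + gN N13) / (1 - gN N13) ≤ k3 → (1 + gN N14) / (1 - gN N14) ≤ k4 →
        Real.sqrt (k3 * k4) ≤ r →
        (((chL N13 N14 N34 : ℝ) / SS) ^ 2 - 1) /
          (k3 + k4 + 2 * ((chL N13 N14 N34 : ℝ) / SS * r)) * D ≤ S) :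
    (lamII N13 N14 N34 : ℝ) / SS * D ≤ S ∧ 0 < lamII N13 N14 N34 := by
  have h0 : (0 : ℝ) < SS := by exact_mod_cast SSpos
  have u3 := gU_lt h13
  have u4 := gU_lt h14
  have v3 := le_gU N13
  have v4 := le_gU N14
  have w3 := gN_nonneg N13
  have w4 := gN_nonneg N14
  have hlt : ∀ N, N < 4 → 1 - gN N > 0 := by
    intro N hN
    have h1 := le_gU N
    have h2 := gU_lt hN
    have h3 : (gU N : ℝ) ≤ 866026 := by exact_mod_cast h2
    rw [SSr] at h1
    have : (gU N : ℝ) / 1000000 ≤ 866026 / 1000000 := div_le_div_of_nonneg_right h3 (by norm_num)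
    have h4 : (866026 : ℝ) / 1000000 < 1 := by norm_num
    linarith
  have x3 := hlt N13 h13
  have x4 := hlt N14 h14
  set ch := chL N13 N14 N34 with hch
  set l1 := ((ch - SS) / 2) * (SS - gU N13) / (SS + gU N13) with hl1
  set k3 := divU (SS + gU N13) (SS - gU N13) with hk3
  set k4 := divU (SS + gU N14) (SS - gU N14) with hk4
  set l2 := ((ch * ch - SS * SS) / SS) * SS / (k3 + k4 + 2 * mulU ch (sqU (mulU k3 k4))) with hl2
  have hlam : lamII N13 N14 N34 = max l1 l2 := rfl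
  have hchr : (1030000 : ℝ) ≤ ch := by exact_mod_cast h
  have hSn : SS ≤ ch := by unfold SS; omega
  have hg3 : gU N13 ≤ SS := by unfold SS; omega
  have hg4 : gU N14 ≤ SS := by unfold SS; omega
  have c1 : (l1 : ℝ) / SS * D ≤ S := by
    refine le_trans ?_ hS1
    refine mul_le_mul_of_nonneg_right ?_ hD.le
    have p1 := div_le_real (((ch - SS) / 2) * (SS - gU N13)) (SS + gU N13)
    have p2 := div_le_real (ch - SS) 2
    rw [Nat.cast_sub hSn] at p2
    push_cast at p1 p2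
    rw [Nat.cast_sub hg3] at p1
    have q1 : (0 : ℝ) ≤ (SS : ℝ) - gU N13 := by
      have : (gU N13 : ℝ) ≤ SS := by exact_mod_cast hg3
      linarith
    have q2 : (0 : ℝ) < (SS : ℝ) + gU N13 := by positivity
    have p3 : (((ch - SS) / 2 : ℕ) : ℝ) * (SS - gU N13) / (SS + gU N13) ≤
        ((ch : ℝ) - SS) / 2 * (SS - gU N13) / (SS + gU N13) :=
      div_le_div_of_nonneg_right (mul_le_mul_of_nonneg_right p2 q1) q2.le
    have p4 : (l1 : ℝ) ≤ ((ch : ℝ) - SS) / 2 * (SS - gU N13) / (SS + gU N13) := p1.trans p3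
    have q3 : ((SS : ℝ) - gU N13) / (SS + gU N13) ≤ (1 - gN N13) / (1 + gN N13) := by
      rw [div_le_div_iff₀ q2 (by linarith)]
      rw [le_div_iff₀ h0] at v3
      nlinarith
    rw [div_le_iff₀ h0]
    refine p4.trans ?_
    have q4 : (0 : ℝ) ≤ ((ch : ℝ) - SS) / 2 := by
      have : (SS : ℝ) ≤ ch := by exact_mod_cast hSn
      linarith
    calc ((ch : ℝ) - SS) / 2 * (SS - gU N13) / (SS + gU N13)
        = ((ch : ℝ) - SS) / 2 * ((SS - gU N13) / (SS + gU N13)) := by ring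
      _ ≤ ((ch : ℝ) - SS) / 2 * ((1 - gN N13) / (1 + gN N13)) :=
          mul_le_mul_of_nonneg_left q3 q4
      _ = ((ch : ℝ) / SS - 1) / 2 * (1 - gN N13) / (1 + gN N13) * SS := by
          field_simp
  have c2 : (l2 : ℝ) / SS * D ≤ S := by
    have d3 : (1 + gN N13) / (1 - gN N13) ≤ (k3 : ℝ) / SS := by
      refine divU_ge (by linarith) ?_ (by unfold SS; omega) ?_
      · rw [addcast, div_self h0.ne']; linarith
      · rw [subcast hg3]; linarith
    have d4 : (1 + gN N14) / (1 - gN N14) ≤ (k4 : ℝ) / SS := by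
      refine divU_ge (by linarith) ?_ (by unfold SS; omega) ?_
      · rw [addcast, div_self h0.ne']; linarith
      · rw [subcast hg4]; linarith
    have e3 : (0 : ℝ) ≤ (k3 : ℝ) / SS := div_nonneg (Nat.cast_nonneg _) h0.le
    have e5 : (0 : ℝ) ≤ (ch : ℝ) / SS := div_nonneg (Nat.cast_nonneg _) h0.le
    have d5 : Real.sqrt ((k3 : ℝ) / SS * ((k4 : ℝ) / SS)) ≤ (sqU (mulU k3 k4) : ℝ) / SS :=
      sqU_ge (mulU_ge e3 le_rfl le_rfl)
    refine le_trans ?_ (hS2 _ _ _ d3 d4 d5)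
    refine mul_le_mul_of_nonneg_right ?_ hD.le
    have d6 : (ch : ℝ) / SS * ((sqU (mulU k3 k4) : ℝ) / SS) ≤
        (mulU ch (sqU (mulU k3 k4)) : ℝ) / SS := mulU_ge e5 le_rfl le_rfl
    have k30 : 0 < k3 := by rw [hk3]; unfold divU; exact Nat.succ_pos _
    set den := k3 + k4 + 2 * mulU ch (sqU (mulU k3 k4)) with hden
    have hden0 : (0 : ℝ) < den := by
      have : 0 < den := by omega
      exact_mod_cast this
    have p1 := div_le_real (((ch * ch - SS * SS) / SS) * SS) den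
    have p2 := div_le_real (ch * ch - SS * SS) SS
    rw [Nat.cast_sub (Nat.mul_le_mul hSn hSn)] at p2
    push_cast at p1 p2
    have p3 : (l2 : ℝ) ≤ (((ch : ℝ) * ch - SS * SS) / SS) * SS / den :=
      p1.trans (div_le_div_of_nonneg_right (mul_le_mul_of_nonneg_right p2 h0.le) hden0.le)
    have hnum : (0 : ℝ) ≤ ((ch : ℝ) / SS) ^ 2 - 1 := by
      have : (1 : ℝ) ≤ (ch : ℝ) / SS := by
        rw [le_div_iff₀ h0, one_mul]; exact_mod_cast hSn
      nlinarith
    have hd : (0 : ℝ) < (k3 : ℝ) / SS + (k4 : ℝ) / SS +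
        2 * ((ch : ℝ) / SS * ((sqU (mulU k3 k4) : ℝ) / SS)) := by
      have t1 : (0 : ℝ) < k3 := by exact_mod_cast k30
      have t2 : (0 : ℝ) < (k3 : ℝ) / SS := div_pos t1 h0
      have t3 : (0 : ℝ) ≤ (k4 : ℝ) / SS := div_nonneg (Nat.cast_nonneg _) h0.le
      have t4 : (0 : ℝ) ≤ (sqU (mulU k3 k4) : ℝ) / SS := div_nonneg (Nat.cast_nonneg _) h0.le
      have t5 := mul_nonneg e5 t4
      linarith
    calc (l2 : ℝ) / SS ≤ (((ch : ℝ) * ch - SS * SS) / SS) * SS / den / SS :=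
          div_le_div_of_nonneg_right p3 h0.le
      _ = (((ch : ℝ) / SS) ^ 2 - 1) / ((den : ℝ) / SS) := by
          field_simp
      _ ≤ _ := by
          refine div_le_div_of_nonneg_left hnum hd ?_
          rw [hden]
          push_cast
          rw [add_div, add_div, mul_div_assoc]
          linarith
  refine ⟨?_, ?_⟩
  · rw [hlam]
    rcases max_choice l1 l2 with hm | hm
    · rw [hm]; exact c1
    · rw [hm]; exact c2
  · rw [hlam]
    refine lt_of_lt_of_le ?_ (le_max_left _ _)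
    rw [hl1]
    apply Nat.div_pos _ (by have := SSpos; omega)
    have m1 : 15000 ≤ (ch - SS) / 2 := by unfold SS; omega
    have m2 : 133974 ≤ SS - gU N13 := by unfold SS; omega
    have m3 : SS + gU N13 ≤ 1866026 := by unfold SS; omega
    calc SS + gU N13 ≤ 15000 * 133974 := by omega
      _ ≤ _ := Nat.mul_le_mul m1 m2

end Pool.Agent.Refl.H84
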