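import Pool.Agent.Helper23_Refl.StmtB

/-!
# REFL, module GEOII, real inequalities (helper84)
-/

set_option linter.all false

namespace Pool.Agent.Refl.H84

open Matrix

theorem gr_one_sub_sq {g : ℝ} (h : 0 ≤ g) (h' : g < 1) : 0 < 1 - g ^ 2 := by
  have h1 : 0 < (1 - g) * (1 + g) := mul_pos (by linarith) (by linarith)
  have h2 : (1 - g) * (1 + g) = 1 - g ^ 2 := by ring
  rw [h2] at h1; exact h1

theorem gr_sq_le {S g s1 : ℝ} (hS : 0 < S) (ha : S ≤ (1 + g) * s1) :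
    S ^ 2 ≤ (1 + g) ^ 2 * s1 ^ 2 := by
  rw [← mul_pow]; exact pow_le_pow_left₀ hS.le ha 2

/-- first bound -/
theorem gr_bound {g S s1 s2 D : ℝ} (hD : D = 1 + (s1 ^ 2 + s2 ^ 2)) (hD0 : 0 < D)
    (hg : 0 ≤ g) (hg' : g < 1) (hS : 0 < S) (ha : S ≤ (1 + g) * s1)
    (hb : S ^ 2 ≤ s2 ^ 2 * (1 - g ^ 2)) : S ^ 2 / D ≤ (1 + g) * (1 - g ^ 2) / 2 := by
  have hw : 0 < 1 - g ^ 2 := gr_one_sub_sq hg hg'
  rw [div_le_iff₀ hD0]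
  have e1 : S ^ 2 ≤ (1 + g) ^ 2 * s1 ^ 2 := gr_sq_le hS ha
  have e2 : (1 - g) / 2 * S ^ 2 ≤ (1 - g) / 2 * ((1 + g) ^ 2 * s1 ^ 2) :=
    mul_le_mul_of_nonneg_left e1 (by linarith)
  have e3 : (1 + g) / 2 * S ^ 2 ≤ (1 + g) / 2 * (s2 ^ 2 * (1 - g ^ 2)) :=
    mul_le_mul_of_nonneg_left hb (by linarith)
  have e4 : (1 + g) * (1 - g ^ 2) / 2 * D = (1 + g) * (1 - g ^ 2) / 2 +
      (1 - g) / 2 * ((1 + g) ^ 2 * s1 ^ 2) + (1 + g) / 2 * (s2 ^ 2 * (1 - g ^ 2)) := by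
    rw [hD]; ring
  have e5 : 0 ≤ (1 + g) * (1 - g ^ 2) / 2 :=
    div_nonneg (mul_nonneg (by linarith) hw.le) (by norm_num)
  have e6 : (1 - g) / 2 * S ^ 2 + (1 + g) / 2 * S ^ 2 = S ^ 2 := by ring
  rw [e4, ← e6]
  exact (add_le_add e2 e3).trans (add_le_add_left (le_add_of_nonneg_left e5) _)

theorem gr_hk {g S s1 D : ℝ} (hD0 : 0 < D)
    (hg : 0 ≤ g) (hg' : g < 1) (hS : 0 < S) (ha : S ≤ (1 + g) * s1) :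
    S ^ 2 / (1 - g ^ 2) / D ≤ (1 + g) / (1 - g) * (s1 ^ 2 / D) := by
  have hw : 0 < 1 - g ^ 2 := gr_one_sub_sq hg hg'
  have hw' : 0 < 1 - g := by linarith
  rw [← mul_div_assoc]
  refine div_le_div_of_nonneg_right ?_ hD0.le
  rw [div_le_iff₀ hw]
  have e1 : S ^ 2 ≤ (1 + g) ^ 2 * s1 ^ 2 := gr_sq_le hS ha
  have e2 : (1 + g) / (1 - g) * s1 ^ 2 * (1 - g ^ 2) = (1 + g) ^ 2 * s1 ^ 2 := by
    rw [div_mul_eq_mul_div, div_mul_eq_mul_div, div_eq_iff hw'.ne']; ring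
  rw [e2]; exact e1

/-- square of the normalised height -/
theorem gr_ysq {S R D w r : ℝ} (hR2 : R ^ 2 = D) (hr : r ^ 2 = w) :
    (S / R / r) ^ 2 = S ^ 2 / w / D := by
  rw [div_pow, div_pow, hR2, hr, div_right_comm]

/-- `sqrt (w + (S/R)^2) = sqrt w * sqrt (1 + y^2)` -/
theorem gr_sqrt {S R D w y : ℝ} (hw : 0 < w) (hR2 : R ^ 2 = D)
    (hy : y ^ 2 = S ^ 2 / w / D) :
    Real.sqrt (w + (S / R) ^ 2) = Real.sqrt w * Real.sqrt (1 + y ^ 2) := by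
  rw [← Real.sqrt_mul hw.le]
  congr 1
  rw [hy, div_pow, hR2, mul_add, mul_one, ← mul_div_assoc, mul_div_cancel₀ _ hw.ne']

theorem gr_lin {S R r : ℝ} (hr : 0 < r) : S / R = r * (S / R / r) := by
  rw [mul_div_cancel₀ _ hr.ne']

theorem gr_ch2 {y3 y4 : ℝ} (y30 : 0 < y3) (y40 : 0 < y4) (y34' : y4 ≤ y3) :
    y3 * y4 + Real.sqrt (1 + y3 ^ 2) * Real.sqrt (1 + y4 ^ 2) ≤ 1 + 2 * y3 ^ 2 := by
  have e1 : y3 * y4 ≤ y3 ^ 2 := by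
    rw [sq]; exact mul_le_mul_of_nonneg_left y34' y30.le
  have e0 : y4 ^ 2 ≤ y3 ^ 2 := pow_le_pow_left₀ y40.le y34' 2
  have e2 : Real.sqrt (1 + y4 ^ 2) ≤ Real.sqrt (1 + y3 ^ 2) := Real.sqrt_le_sqrt (by linarith)
  have e3 : Real.sqrt (1 + y3 ^ 2) * Real.sqrt (1 + y4 ^ 2) ≤ 1 + y3 ^ 2 := by
    calc _ ≤ Real.sqrt (1 + y3 ^ 2) * Real.sqrt (1 + y3 ^ 2) :=
          mul_le_mul_of_nonneg_left e2 (Real.sqrt_nonneg _)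
      _ = 1 + y3 ^ 2 := Real.mul_self_sqrt (add_nonneg zero_le_one (sq_nonneg _))
  linarith

theorem gr_cle {c ch r3 r4 w3 w4 a : ℝ} (w30 : 0 < w3) (w40 : 0 < w4) (hr3 : r3 ^ 2 = w3)
    (hr4 : r4 ^ 2 = w4) (hch0 : 0 < ch) (ha : a = r3 * r4 * ch)
    (hcc : c ^ 2 * (w3 * w4) ≤ a ^ 2) : c ≤ ch := by
  have e1 : a ^ 2 = ch ^ 2 * (w3 * w4) := by
    rw [ha, mul_pow, mul_pow, hr3, hr4, mul_comm]
  rw [e1] at hcc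
  have e2 : c ^ 2 ≤ ch ^ 2 := le_of_mul_le_mul_right hcc (mul_pos w30 w40)
  exact abs_le_of_sq_le_sq' e2 hch0.le |>.2

/-- the last estimate -/
theorem gr_last {c y3 y4 σ k3 k4 r : ℝ} (hc : 1 < c) (y30 : 0 < y3) (y40 : 0 < y4)
    (hσ0 : 0 < σ) (k30 : 0 < k3) (k40 : 0 < k4) (m3 : y3 ^ 2 ≤ k3 * σ) (m4 : y4 ^ 2 ≤ k4 * σ)
    (hcle : c ≤ y3 * y4 + Real.sqrt (1 + y3 ^ 2) * Real.sqrt (1 + y4 ^ 2))
    (hr : Real.sqrt (k3 * k4) ≤ r) :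
    (c ^ 2 - 1) / (k3 + k4 + 2 * (c * r)) ≤ σ := by
  have hkk : 0 < k3 * k4 := mul_pos k30 k40
  obtain ⟨u, hu⟩ : ∃ u, u = Real.sqrt (k3 * k4) := ⟨_, rfl⟩
  rw [← hu] at hr
  have hu0 : 0 < u := by rw [hu]; exact Real.sqrt_pos.2 hkk
  have hu2 : u ^ 2 = k3 * k4 := by rw [hu]; exact Real.sq_sqrt hkk.le
  have q3 : 0 ≤ 1 + k3 * σ := add_nonneg zero_le_one (mul_pos k30 hσ0).le
  have q4 : 0 ≤ 1 + k4 * σ := add_nonneg zero_le_one (mul_pos k40 hσ0).le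
  obtain ⟨v, hv⟩ : ∃ v, v = Real.sqrt ((1 + k3 * σ) * (1 + k4 * σ)) := ⟨_, rfl⟩
  have hv2 : v ^ 2 = (1 + k3 * σ) * (1 + k4 * σ) := by
    rw [hv]; exact Real.sq_sqrt (mul_nonneg q3 q4)
  have hv0 : 0 ≤ v := by rw [hv]; exact Real.sqrt_nonneg _
  have n1 : y3 * y4 ≤ u * σ := by
    have : (y3 * y4) ^ 2 ≤ (u * σ) ^ 2 := by
      rw [mul_pow, mul_pow, hu2]
      calc y3 ^ 2 * y4 ^ 2 ≤ (k3 * σ) * (k4 * σ) :=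
            mul_le_mul m3 m4 (sq_nonneg _) (mul_pos k30 hσ0).le
        _ = k3 * k4 * σ ^ 2 := by ring
    exact abs_le_of_sq_le_sq' this (mul_pos hu0 hσ0).le |>.2
  have n2 : Real.sqrt (1 + y3 ^ 2) * Real.sqrt (1 + y4 ^ 2) ≤ v := by
    rw [← Real.sqrt_mul (add_nonneg zero_le_one (sq_nonneg _)), hv]
    apply Real.sqrt_le_sqrt
    exact mul_le_mul (add_le_add_right m3 1) (add_le_add_right m4 1)
      (add_nonneg zero_le_one (sq_nonneg _)) q3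
  have n3 : c - u * σ ≤ v := by linarith
  have hr0 : 0 < r := lt_of_lt_of_le hu0 hr
  have hc0 : 0 < c := by linarith
  have den : 0 < k3 + k4 + 2 * (c * r) := by
    have : 0 < c * r := mul_pos hc0 hr0
    linarith
  rw [div_le_iff₀ den]
  have n4 : c * u ≤ c * r := mul_le_mul_of_nonneg_left hr hc0.le
  have n5 : c ^ 2 - 1 ≤ σ * (k3 + k4 + 2 * (c * u)) := by
    rcases le_total 0 (c - u * σ) with h | h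
    · have e1 : (c - u * σ) ^ 2 ≤ v ^ 2 := pow_le_pow_left₀ h n3 2
      rw [hv2] at e1
      have e2 : (c - u * σ) ^ 2 = c ^ 2 - 2 * (c * u) * σ + k3 * k4 * σ ^ 2 := by
        rw [← hu2]; ring
      rw [e2] at e1
      have e3 : (1 + k3 * σ) * (1 + k4 * σ) = 1 + σ * (k3 + k4) + k3 * k4 * σ ^ 2 := by ring
      rw [e3] at e1
      have e4 : σ * (k3 + k4 + 2 * (c * u)) = σ * (k3 + k4) + 2 * (c * u) * σ := by ring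
      rw [e4]; linarith
    · have e1 : c ≤ u * σ := by linarith
      have e2 : c ^ 2 ≤ c * (u * σ) := by
        rw [sq]; exact mul_le_mul_of_nonneg_left e1 hc0.le
      have e3 : 0 < σ * (k3 + k4) := mul_pos hσ0 (add_pos k30 k40)
      have e4 : 0 ≤ c * (u * σ) := (mul_pos hc0 (mul_pos hu0 hσ0)).le
      have e5 : σ * (k3 + k4 + 2 * (c * u)) = σ * (k3 + k4) + 2 * (c * (u * σ)) := by ring
      rw [e5]; linarith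
  refine n5.trans (mul_le_mul_of_nonneg_left ?_ hσ0.le)
  linarith

/-- the estimates in terms of the normalised heights -/
theorem gr_main {g3 g4 g34 s1 s2 S3 S4 D R : ℝ} (h3 : 0 ≤ g3) (h3' : g3 < 1) (h4 : 0 ≤ g4)
    (h4' : g4 < 1) (hs1 : 0 < s1) (hD : D = 1 + (s1 ^ 2 + s2 ^ 2)) (hD0 : 0 < D)
    (hR0 : 0 < R) (hR2 : R ^ 2 = D) (hS30 : 0 < S3) (hS40 : 0 < S4)
    (a3 : S3 ≤ (1 + g3) * s1) (a4 : S4 ≤ (1 + g4) * s1)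
    (hord : S4 ^ 2 / (1 - g4 ^ 2) ≤ S3 ^ 2 / (1 - g3 ^ 2))
    (hends : g34 = S3 / R * (S4 / R) +
      Real.sqrt (1 - g3 ^ 2 + (S3 / R) ^ 2) * Real.sqrt (1 - g4 ^ 2 + (S4 / R) ^ 2) -
      g3 * g4)
    {c : ℝ} (hc : 1 < c)
    (hcc : c ^ 2 * ((1 - g3 ^ 2) * (1 - g4 ^ 2)) ≤ (g34 + g3 * g4) ^ 2) :
    (c - 1) / 2 * D ≤ S3 ^ 2 / (1 - g3 ^ 2) ∧
      (c - 1) / 2 * (1 - g3) / (1 + g3) * D ≤ s1 ^ 2 ∧
      ∀ k3 k4 r : ℝ, (1 + g3) / (1 - g3) ≤ k3 → (1 + g4) / (1 - g4) ≤ k4 →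
        Real.sqrt (k3 * k4) ≤ r →
        (c ^ 2 - 1) / (k3 + k4 + 2 * (c * r)) * D ≤ s1 ^ 2 := by
  have w3 : 0 < 1 - g3 ^ 2 := gr_one_sub_sq h3 h3'
  have w4 : 0 < 1 - g4 ^ 2 := gr_one_sub_sq h4 h4'
  obtain ⟨r3, hr3⟩ : ∃ r, r = Real.sqrt (1 - g3 ^ 2) := ⟨_, rfl⟩
  obtain ⟨r4, hr4⟩ : ∃ r, r = Real.sqrt (1 - g4 ^ 2) := ⟨_, rfl⟩
  have r30 : 0 < r3 := by rw [hr3]; exact Real.sqrt_pos.2 w3
  have r40 : 0 < r4 := by rw [hr4]; exact Real.sqrt_pos.2 w4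
  have r3s : r3 ^ 2 = 1 - g3 ^ 2 := by rw [hr3]; exact Real.sq_sqrt w3.le
  have r4s : r4 ^ 2 = 1 - g4 ^ 2 := by rw [hr4]; exact Real.sq_sqrt w4.le
  obtain ⟨y3, hy3⟩ : ∃ y, y = S3 / R / r3 := ⟨_, rfl⟩
  obtain ⟨y4, hy4⟩ : ∃ y, y = S4 / R / r4 := ⟨_, rfl⟩
  have y30 : 0 < y3 := by rw [hy3]; exact div_pos (div_pos hS30 hR0) r30
  have y40 : 0 < y4 := by rw [hy4]; exact div_pos (div_pos hS40 hR0) r40
  have y3s : y3 ^ 2 = S3 ^ 2 / (1 - g3 ^ 2) / D := by rw [hy3]; exact gr_ysq hR2 r3s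
  have y4s : y4 ^ 2 = S4 ^ 2 / (1 - g4 ^ 2) / D := by rw [hy4]; exact gr_ysq hR2 r4s
  have y34 : y4 ^ 2 ≤ y3 ^ 2 := by
    rw [y3s, y4s]; exact div_le_div_of_nonneg_right hord hD0.le
  have y34' : y4 ≤ y3 := abs_le_of_sq_le_sq' y34 y30.le |>.2
  have hch : g34 + g3 * g4 = r3 * r4 *
      (y3 * y4 + Real.sqrt (1 + y3 ^ 2) * Real.sqrt (1 + y4 ^ 2)) := by
    rw [hends, gr_sqrt w3 hR2 y3s, gr_sqrt w4 hR2 y4s, ← hr3, ← hr4,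
      gr_lin (S := S3) (R := R) r30, gr_lin (S := S4) (R := R) r40, ← hy3, ← hy4]
    ring
  have hch0 : 0 < y3 * y4 + Real.sqrt (1 + y3 ^ 2) * Real.sqrt (1 + y4 ^ 2) :=
    add_pos_of_pos_of_nonneg (mul_pos y30 y40)
      (mul_nonneg (Real.sqrt_nonneg _) (Real.sqrt_nonneg _))
  have hcle := gr_cle w3 w4 r3s r4s hch0 hch hcc
  have hch2 := gr_ch2 y30 y40 y34'
  have hy3c : (c - 1) / 2 ≤ y3 ^ 2 := by
    have := hcle.trans hch2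
    linarith
  have hk3 := gr_hk hD0 h3 h3' hS30 a3
  have hk4 := gr_hk hD0 h4 h4' hS40 a4
  rw [← y3s] at hk3
  rw [← y4s] at hk4
  obtain ⟨σ, hσ⟩ : ∃ σ, σ = s1 ^ 2 / D := ⟨_, rfl⟩
  rw [← hσ] at hk3 hk4
  have hσ0 : 0 < σ := by rw [hσ]; exact div_pos (pow_pos hs1 2) hD0
  have hσD : σ * D = s1 ^ 2 := by rw [hσ]; exact div_mul_cancel₀ _ hD0.ne'
  refine ⟨?_, ?_, ?_⟩
  · have e1 : S3 ^ 2 / (1 - g3 ^ 2) = y3 ^ 2 * D := by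
      rw [y3s]; exact (div_mul_cancel₀ _ hD0.ne').symm
    rw [e1]
    exact mul_le_mul_of_nonneg_right hy3c hD0.le
  · rw [← hσD]
    refine mul_le_mul_of_nonneg_right ?_ hD0.le
    have hw' : 0 < 1 - g3 := by linarith
    have hw'' : 0 < 1 + g3 := by linarith
    rw [div_le_iff₀ hw'']
    have e1 : (c - 1) / 2 ≤ (1 + g3) / (1 - g3) * σ := hy3c.trans hk3
    calc (c - 1) / 2 * (1 - g3) ≤ (1 + g3) / (1 - g3) * σ * (1 - g3) :=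
          mul_le_mul_of_nonneg_right e1 hw'.le
      _ = σ * (1 + g3) := by
        rw [mul_right_comm, div_mul_cancel₀ _ hw'.ne', mul_comm]
  · intro k3 k4 r hk3' hk4' hr
    rw [← hσD]
    refine mul_le_mul_of_nonneg_right ?_ hD0.le
    have p3 : 0 < (1 + g3) / (1 - g3) := div_pos (by linarith) (by linarith)
    have p4 : 0 < (1 + g4) / (1 - g4) := div_pos (by linarith) (by linarith)
    exact gr_last hc y30 y40 hσ0 (lt_of_lt_of_le p3 hk3') (lt_of_lt_of_le p4 hk4')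
      (hk3.trans (mul_le_mul_of_nonneg_right hk3' hσ0.le))
      (hk4.trans (mul_le_mul_of_nonneg_right hk4' hσ0.le)) hcle hr

/-- pure real computation behind case II -/
theorem caseII_real {g3 g4 g34 s1 s2 s3 s4 : ℝ} (h3 : 0 ≤ g3) (h3' : g3 < 1) (h4 : 0 ≤ g4)
    (h4' : g4 < 1) (hs1 : 0 < s1) (hs2 : 0 < s2) (hs3 : 0 < s3) (hs4 : 0 < s4)
    (h31 : s3 ≤ s1) (h41 : s4 ≤ s1)
    (hm3 : (s3 + g3 * s1) ^ 2 / (1 - g3 ^ 2) ≤ s2 ^ 2)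
    (hm4 : (s4 + g4 * s1) ^ 2 / (1 - g4 ^ 2) ≤ s2 ^ 2)
    (hord : (s4 + g4 * s1) ^ 2 / (1 - g4 ^ 2) ≤ (s3 + g3 * s1) ^ 2 / (1 - g3 ^ 2))
    (hends : g34 = (s3 + s1 * g3) / Real.sqrt (1 + (s1 ^ 2 + s2 ^ 2)) *
      ((s4 + s1 * g4) / Real.sqrt (1 + (s1 ^ 2 + s2 ^ 2))) +
      Real.sqrt (1 - g3 ^ 2 + ((s3 + s1 * g3) / Real.sqrt (1 + (s1 ^ 2 + s2 ^ 2))) ^ 2) *
      Real.sqrt (1 - g4 ^ 2 + ((s4 + s1 * g4) / Real.sqrt (1 + (s1 ^ 2 + s2 ^ 2))) ^ 2) -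
      g3 * g4) :
    ((s3 + s1 * g3) / Real.sqrt (1 + (s1 ^ 2 + s2 ^ 2))) ^ 2 ≤
      (1 + g3) * (1 - g3 ^ 2) / 2 ∧
    ((s4 + s1 * g4) / Real.sqrt (1 + (s1 ^ 2 + s2 ^ 2))) ^ 2 ≤
      (1 + g4) * (1 - g4 ^ 2) / 2 ∧
    ∀ c : ℝ, 1 < c → c ^ 2 * ((1 - g3 ^ 2) * (1 - g4 ^ 2)) ≤ (g34 + g3 * g4) ^ 2 →
      (c - 1) / 2 * (1 + (s1 ^ 2 + s2 ^ 2)) ≤ (s3 + g3 * s1) ^ 2 / (1 - g3 ^ 2) ∧
      (c - 1) / 2 * (1 - g3) / (1 + g3) * (1 + (s1 ^ 2 + s2 ^ 2)) ≤ s1 ^ 2 ∧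
      ∀ k3 k4 r : ℝ, (1 + g3) / (1 - g3) ≤ k3 → (1 + g4) / (1 - g4) ≤ k4 →
        Real.sqrt (k3 * k4) ≤ r →
        (c ^ 2 - 1) / (k3 + k4 + 2 * (c * r)) * (1 + (s1 ^ 2 + s2 ^ 2)) ≤ s1 ^ 2 := by
  have hD0' : 0 < 1 + (s1 ^ 2 + s2 ^ 2) :=
    add_pos_of_pos_of_nonneg one_pos (add_nonneg (sq_nonneg _) (sq_nonneg _))
  obtain ⟨D, hD⟩ : ∃ D, D = 1 + (s1 ^ 2 + s2 ^ 2) := ⟨_, rfl⟩
  have hD0 : 0 < D := by rw [hD]; exact hD0'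
  rw [← hD] at hends ⊢
  obtain ⟨R, hR⟩ : ∃ R, R = Real.sqrt D := ⟨_, rfl⟩
  have hR0 : 0 < R := by rw [hR]; exact Real.sqrt_pos.2 hD0
  have hR2 : R ^ 2 = D := by rw [hR]; exact Real.sq_sqrt hD0.le
  rw [← hR] at hends ⊢
  have w3 : 0 < 1 - g3 ^ 2 := gr_one_sub_sq h3 h3'
  have w4 : 0 < 1 - g4 ^ 2 := gr_one_sub_sq h4 h4'
  have c3 : s3 + g3 * s1 = s3 + s1 * g3 := by rw [mul_comm]
  have c4 : s4 + g4 * s1 = s4 + s1 * g4 := by rw [mul_comm]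
  rw [c3] at hm3 hord ⊢
  rw [c4] at hm4 hord
  have hS30 : 0 < s3 + s1 * g3 := add_pos_of_pos_of_nonneg hs3 (mul_nonneg hs1.le h3)
  have hS40 : 0 < s4 + s1 * g4 := add_pos_of_pos_of_nonneg hs4 (mul_nonneg hs1.le h4)
  have a3 : s3 + s1 * g3 ≤ (1 + g3) * s1 := by linarith
  have a4 : s4 + s1 * g4 ≤ (1 + g4) * s1 := by linarith
  have b3 : (s3 + s1 * g3) ^ 2 ≤ s2 ^ 2 * (1 - g3 ^ 2) := by rwa [div_le_iff₀ w3] at hm3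
  have b4 : (s4 + s1 * g4) ^ 2 ≤ s2 ^ 2 * (1 - g4 ^ 2) := by rwa [div_le_iff₀ w4] at hm4
  refine ⟨?_, ?_, ?_⟩
  · rw [div_pow, hR2]; exact gr_bound hD hD0 h3 h3' hS30 a3 b3
  · rw [div_pow, hR2]; exact gr_bound hD hD0 h4 h4' hS40 a4 b4
  · intro c hc hcc
    exact gr_main h3 h3' h4 h4' hs1 hD hD0 hR0 hR2 hS30 hS40 a3 a4 hord hends hc hcc

end Pool.Agent.Refl.H84
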