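import Pool.Agent.Helper64_Refl.Far
import Pool.Agent.Helper84_Refl.GeoIIReal
import Pool.Agent.Helper84_Refl.GeoIINat

/-!
# REFL, module GEOII (helper84)
-/

set_option linter.all false

namespace Pool.Agent.Refl.H84

open Matrix Pool.Agent.Refl

variable {G : M4}

lemma nn_comm' (hG : G.transpose = G) (a b : Z4) : nn G a b = nn G b a := by
  rw [nn, nn, H64.bz_comm hG a b, mul_comm]

lemma isV_rot {n : ℕ} {e : Fin n → Z4} {i j k : Fin n} (h : IsV G e i j k) :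
    IsV G e i k j := by
  obtain ⟨h1, h2, h3, V, h4, h5, h6, h7, h8⟩ := h
  exact ⟨h3, h2.symm, h1, V, h4, h5, h6, h8, h7⟩

theorem geoII (hEnds : EndsStmt) (hNN : NNStmt) (hVP : VertexPosStmt) (hFE : FarEndStmt)
    (hFar : FarStmt) : GeoIIStmt := by
  intro G n e O hL hC i1 i2 i3 i4 hO h12 h23 h24 h134 hord
  have hs := hL.symm
  have R := fun x => hC.root x
  have P := fun x => (hC.root x).pos
  obtain ⟨g12, g13, g23, gg3⟩ := hVP G n e O hL hC i1 i2 i3 hO.v3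
  obtain ⟨-, g14, g24, gg4⟩ := hVP G n e O hL hC i1 i2 i4 hO.v4
  obtain ⟨n12, n23, n13, -⟩ := id hO.v3
  obtain ⟨-, n24, n14, -⟩ := id hO.v4
  have hends := hEnds G n e O hL hC i1 i2 i3 i4 hO.ne hO.v3 hO.v4
  simp only at hends
  have hN : ∀ a b : Fin n, a ≠ b → gR G (e a) (e b) = gN (nn G (e a) (e b)) := fun a b hab =>
    (hNN G (e a) (e b) hL (R a) (R b)).2.2.1 (hC.obt a b hab)
  have hS : ∀ a, 0 < sR G O (e a) := fun a => H64.sR_pos (P a) hC.Oneg (hC.neg a)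
  have l13 := H64.gR_lt_one (P i1) (P i3) g13
  have l14 := H64.gR_lt_one (P i1) (P i4) g14
  have o13 := hO.out i1 i3 n13 g13
  have o14 := hO.out i1 i4 n14 g14
  have o23 := hO.out i2 i3 n23 g23
  have o24 := hO.out i2 i4 n24 g24
  obtain ⟨t, ht⟩ := (hNN G (e i1) (e i3) hL (R i1) (R i3)).2.2.2 (e i4) (R i4)
  obtain ⟨i5, hi5, hv5⟩ := hFE G n e O hL hC i1 i3 i2 (isV_rot hO.v3)
  have hout := hO.out
  have hfar13 := fun r (hr : r ≠ i2) (hv : IsV G e i1 i3 r) =>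
    hFar G n e O hL hC i1 i3 i2 r hr.symm (isV_rot hO.v3) hv
  have hfar14 := fun r (hr : r ≠ i2) (hv : IsV G e i1 i4 r) =>
    hFar G n e O hL hC i1 i4 i2 r hr.symm (isV_rot hO.v4) hv
  have z32 : nn G (e i3) (e i2) = 0 := by rw [nn_comm' hs]; exact h23
  have z42 : nn G (e i4) (e i2) = 0 := by rw [nn_comm' hs]; exact h24
  have e12 : gR G (e i1) (e i2) = 0 := by rw [hN i1 i2 n12, h12]; simp [gN]
  have e23 : gR G (e i2) (e i3) = 0 := by rw [hN i2 i3 n23, h23]; simp [gN]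
  have e24 : gR G (e i2) (e i4) = 0 := by rw [hN i2 i4 n24, h24]; simp [gN]
  have e13 := hN i1 i3 n13
  have e14 := hN i1 i4 n14
  have e34 := hN i3 i4 hO.ne
  have s1p := hS i1
  have s2p := hS i2
  have s3p := hS i3
  have s4p := hS i4
  set s1 := sR G O (e i1) with hs1
  set s2 := sR G O (e i2) with hs2
  set s3 := sR G O (e i3) with hs3
  set s4 := sR G O (e i4) with hs4
  set N13 := nn G (e i1) (e i3) with hN13
  set N14 := nn G (e i1) (e i4) with hN14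
  set N34 := nn G (e i3) (e i4) with hN34
  have q0 : Qf (gR G (e i1) (e i2)) s1 s2 = s1 ^ 2 + s2 ^ 2 := by
    rw [e12, Qf]; simp
  rw [q0] at o13 o14 o23 o24
  rw [e13] at l13 o13 hord
  rw [e14] at l14 o14 hord
  rw [e23] at o23
  rw [e24] at o24
  have f13 := H64.lt4_of_gN_lt l13
  have f14 := H64.lt4_of_gN_lt l14
  have p13 := H64.gN_nonneg N13
  have p14 := H64.gN_nonneg N14
  have sq13 : gN N13 ^ 2 < 1 := by nlinarith
  have sq14 : gN N14 ^ 2 < 1 := by nlinarith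
  have o23' : s2 ^ 2 + s3 ^ 2 ≤ s1 ^ 2 + s2 ^ 2 := by simpa [Qf] using o23
  have o24' : s2 ^ 2 + s4 ^ 2 ≤ s1 ^ 2 + s2 ^ 2 := by simpa [Qf] using o24
  have h31 : s3 ≤ s1 := abs_le_of_sq_le_sq' (by linarith) s1p.le |>.2
  have h41 : s4 ≤ s1 := abs_le_of_sq_le_sq' (by linarith) s1p.le |>.2
  have hm3 : (s3 + gN N13 * s1) ^ 2 / (1 - gN N13 ^ 2) ≤ s2 ^ 2 := by
    rw [H64.Qf_eq sq13] at o13; linarith
  have hm4 : (s4 + gN N14 * s1) ^ 2 / (1 - gN N14 ^ 2) ≤ s2 ^ 2 := by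
    rw [H64.Qf_eq sq14] at o14; linarith
  have hends' : gN N34 = (s3 + s1 * gN N13) / Real.sqrt (1 + (s1 ^ 2 + s2 ^ 2)) *
      ((s4 + s1 * gN N14) / Real.sqrt (1 + (s1 ^ 2 + s2 ^ 2))) +
      Real.sqrt (1 - gN N13 ^ 2 + ((s3 + s1 * gN N13) / Real.sqrt (1 + (s1 ^ 2 + s2 ^ 2))) ^ 2) *
      Real.sqrt (1 - gN N14 ^ 2 + ((s4 + s1 * gN N14) / Real.sqrt (1 + (s1 ^ 2 + s2 ^ 2))) ^ 2) -
      gN N13 * gN N14 := by
    rw [← e34, hends, e12, e23, e24, e13, e14]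
    have y : ∀ g s : ℝ, Yf 0 g 0 s1 s2 s = (s + s1 * g) / Real.sqrt (1 + (s1 ^ 2 + s2 ^ 2)) := by
      intro g s
      simp [Yf, Qf]
    have w : ∀ g : ℝ, wf 0 g 0 = 1 - g ^ 2 := by
      intro g; simp [wf]
    have c : ∀ g g' : ℝ, cf 0 g 0 g' 0 = g * g' := by
      intro g g'; simp [cf]
    rw [y, y, w, w, c]
  obtain ⟨Y3b, Y4b, hc⟩ := caseII_real p13 l13 p14 l14 s1p s2p s3p s4p h31 h41 hm3 hm4 hord hends'
  have hD : 0 < 1 + (s1 ^ 2 + s2 ^ 2) := by positivity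
  set RR := Real.sqrt (1 + (s1 ^ 2 + s2 ^ 2)) with hRR
  have hRR0 : 0 < RR := Real.sqrt_pos.2 hD
  have Y30 : 0 < (s3 + s1 * gN N13) / RR :=
    div_pos (by have := mul_nonneg s1p.le p13; linarith) hRR0
  have Y40 : 0 < (s4 + s1 * gN N14) / RR :=
    div_pos (by have := mul_nonneg s1p.le p14; linarith) hRR0
  have hb34 : N34 ≤ bII N13 N14 := bII_ge f13 f14 Y30.le Y40.le Y3b Y4b (le_of_eq hends')
  have hgt : (1 - gN N13 ^ 2) * (1 - gN N14 ^ 2) < (gN N34 + gN N13 * gN N14) ^ 2 := by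
    have w3 : 0 < 1 - gN N13 ^ 2 := by linarith
    have w4 : 0 < 1 - gN N14 ^ 2 := by linarith
    set Y3 := (s3 + s1 * gN N13) / RR
    set Y4 := (s4 + s1 * gN N14) / RR
    have a1 : Real.sqrt (1 - gN N13 ^ 2) ≤ Real.sqrt (1 - gN N13 ^ 2 + Y3 ^ 2) :=
      Real.sqrt_le_sqrt (by nlinarith [sq_nonneg Y3])
    have a2 : Real.sqrt (1 - gN N14 ^ 2) ≤ Real.sqrt (1 - gN N14 ^ 2 + Y4 ^ 2) :=
      Real.sqrt_le_sqrt (by nlinarith [sq_nonneg Y4])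
    have a3 := mul_le_mul a1 a2 (Real.sqrt_nonneg _) (Real.sqrt_nonneg _)
    have a4 : 0 < Y3 * Y4 := mul_pos Y30 Y40
    have a5 : Real.sqrt (1 - gN N13 ^ 2) * Real.sqrt (1 - gN N14 ^ 2) <
        gN N34 + gN N13 * gN N14 := by linarith
    have a6 := pow_lt_pow_left₀ a5 (by positivity) two_ne_zero
    rw [mul_pow, Real.sq_sqrt w3.le, Real.sq_sqrt w4.le] at a6
    exact a6
  have ht' : t * t = N13 * N14 * N34 := by rw [← ht]; ring
  obtain ⟨k1, k2⟩ := chL_sq f13 f14 ht'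
  have k3 := k2 hgt
  have c1 : (1 : ℝ) < (chL N13 N14 N34 : ℝ) / SS := by
    rw [H66.SSr, lt_div_iff₀ (by norm_num)]
    have : (1030000 : ℝ) ≤ chL N13 N14 N34 := by exact_mod_cast k3
    linarith
  obtain ⟨r1, r2, r3⟩ := hc _ c1 k1
  obtain ⟨m1, m2⟩ := muII_le k3
  obtain ⟨m3, m4⟩ := lamII_le f13 f14 k3 hD r2 r3
  have hq : 0 < s1 ^ 2 + s2 ^ 2 := by positivity
  have h0 : (0 : ℝ) < SS := by exact_mod_cast H66.SSpos
  have lam0 : (0 : ℝ) ≤ (lamII N13 N14 N34 : ℝ) / SS := div_nonneg (Nat.cast_nonneg _) h0.le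
  have mu0 : (0 : ℝ) ≤ (muII N13 N14 N34 : ℝ) / SS := div_nonneg (Nat.cast_nonneg _) h0.le
  have hlam : (lamII N13 N14 N34 : ℝ) / SS * (s1 ^ 2 + s2 ^ 2) ≤ s1 ^ 2 := by
    refine le_trans ?_ m3
    exact mul_le_mul_of_nonneg_left (by linarith) lam0
  have hmu : (muII N13 N14 N34 : ℝ) / SS * (s1 ^ 2 + s2 ^ 2) ≤
      (s3 + gN N13 * s1) ^ 2 / (1 - gN N13 ^ 2) := by
    refine le_trans ?_ r1
    calc (muII N13 N14 N34 : ℝ) / SS * (s1 ^ 2 + s2 ^ 2)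
        ≤ (muII N13 N14 N34 : ℝ) / SS * (1 + (s1 ^ 2 + s2 ^ 2)) :=
          mul_le_mul_of_nonneg_left (by linarith) mu0
      _ ≤ _ := mul_le_mul_of_nonneg_right m1 hD.le
  have hout' : ∀ a b, a ≠ b → 0 < g2 G (e a) (e b) →
      Qf (gR G (e a) (e b)) (sR G O (e a)) (sR G O (e b)) ≤ s1 ^ 2 + s2 ^ 2 := by
    intro a b hab hp
    have := hout a b hab hp
    rw [q0] at this
    exact this
  refine ⟨i5, hO.ne, hi5, hO.v3, hO.v4, hv5, h12, h23, h24, h134, hb34, ?_, ?_⟩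
  · intro r hr hv
    refine hfar13 r hr hv z32 (by rw [h12, mul_zero]) (s1 ^ 2 + s2 ^ 2) _ _ (Nat.add_pos_left m4 _) hq
      hout' hlam ?_
    rw [e13]
    exact hmu
  · intro r hr hv
    refine hfar14 r hr hv z42 (by rw [h12, mul_zero]) (s1 ^ 2 + s2 ^ 2) _ 0 (Nat.add_pos_left m4 _) hq
      hout' hlam ?_
    rw [e14]
    have w4 : 0 < 1 - gN N14 ^ 2 := by linarith
    simp only [Nat.cast_zero, zero_div, zero_mul]
    positivity

end Pool.Agent.Refl.H84
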