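import Pool.Agent.Helper23_Refl.StmtC5
import Pool.Agent.Helper38_Refl.StartC

/-!
# MKG: the reflections as packed matrices
-/

namespace Pool.Agent.Refl.H84M

open Matrix Pool.Agent.Refl Pool.Agent.Refl.H93 Pool.Agent.Refl.H38

theorem modI_eq (x : ℤ) (m : ℕ) (hm : 1 ≤ m) : K.modI x m = (x % m).toNat := by
  cases x with
  | ofNat n =>
    have h : K.modI (Int.ofNat n) m = n % m := rfl
    rw [h]
    have h2 : (Int.ofNat n) % (m : ℤ) = ((n % m : ℕ) : ℤ) := by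
      rw [Int.ofNat_eq_natCast]; exact (Int.natCast_mod n m).symm
    rw [h2, Int.toNat_natCast]
  | negSucc n =>
    have h : K.modI (Int.negSucc n) m = (m - 1) - n % m := rfl
    rw [h]
    have h2 : (Int.negSucc n) % (m : ℤ) = (m : ℤ) - 1 - (n : ℤ) % m :=
      Int.negSucc_emod n (by exact_mod_cast hm)
    rw [h2]
    have h3 : n % m < m := Nat.mod_lt _ hm
    have h4 : (n : ℤ) % (m : ℤ) = ((n % m : ℕ) : ℤ) := (Int.natCast_mod n m).symm
    rw [h4]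
    omega

theorem modI_lt (x : ℤ) (m : ℕ) (hm : 1 ≤ m) : K.modI x m < m := by
  rw [modI_eq x m hm]
  have h1 : x % (m : ℤ) < m := Int.emod_lt_of_pos x (by exact_mod_cast hm)
  have h0 : 0 ≤ x % (m : ℤ) := Int.emod_nonneg x (by
    have : (0 : ℤ) < m := by exact_mod_cast hm
    exact this.ne')
  omega

theorem modI_dvd (x : ℤ) (m : ℕ) (hm : 1 ≤ m) : (m : ℤ) ∣ (K.modI x m : ℤ) - x := by
  rw [modI_eq x m hm]
  have h0 : 0 ≤ x % (m : ℤ) := Int.emod_nonneg x (by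
    have : (0 : ℤ) < m := by exact_mod_cast hm
    exact this.ne')
  rw [Int.toNat_of_nonneg h0]
  have h := Int.emod_add_mul_ediv x m
  refine ⟨-(x / m), ?_⟩
  linarith

theorem p4_eq (a b c d : ℕ) :
    K.p4 a b c d = (a + 65536 * b) + (4294967296 * c + 281474976710656 * d) := rfl

theorem pkZ_p4 (m : ℕ) (x : Z4) : pkZ m x = K.p4 (x 0 % m).toNat (x 1 % m).toNat
    (x 2 % m).toNat (x 3 % m).toNat := by
  rw [p4_eq, pkZ]
  ring

theorem pkI_p4 (m : ℕ) (v : K.I4) : K.pkI m v = K.p4 (K.modI v.x m) (K.modI v.y m)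
    (K.modI v.z m) (K.modI v.w m) := rfl

/-- one column -/
theorem col_eq (hP : PkZStmt) (m : ℕ) (h1 : 1 ≤ m) (h2 : m ≤ 127) (e : K.I4) (t : ℤ)
    (b0 b1 b2 b3 : ℕ) (hb0 : b0 ≤ 1) (hb1 : b1 ≤ 1) (hb2 : b2 ≤ 1) (hb3 : b3 ≤ 1) (c : Z4)
    (hc : c = fun i => (![(b0 : ℤ), b1, b2, b3] i) + vI e i * t) (S : ℕ)
    (hS : S = b0 + 65536 * b1 + 4294967296 * b2 + 281474976710656 * b3) :
    K.redm m (Nat.add S (Nat.mul (K.modI t m) (K.pkI m e))) = pkZ m c := by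
  obtain ⟨hp1, -, -, -, hp5⟩ := hP m h1 h2
  set a := K.modI t m with ha
  have ha1 : a < m := modI_lt t m h1
  set x0 := K.modI e.x m with hx0
  set x1 := K.modI e.y m with hx1
  set x2 := K.modI e.z m with hx2
  set x3 := K.modI e.w m with hx3
  have hx0' : x0 < m := modI_lt _ m h1
  have hx1' : x1 < m := modI_lt _ m h1
  have hx2' : x2 < m := modI_lt _ m h1
  have hx3' : x3 < m := modI_lt _ m h1
  have e1 : Nat.add S (Nat.mul a (K.pkI m e)) =
      K.p4 (b0 + a * x0) (b1 + a * x1) (b2 + a * x2) (b3 + a * x3) := by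
    rw [pkI_p4, ← hx0, ← hx1, ← hx2, ← hx3, p4_eq, p4_eq, hS]
    show (b0 + 65536 * b1 + 4294967296 * b2 + 281474976710656 * b3) +
      a * ((x0 + 65536 * x1) + (4294967296 * x2 + 281474976710656 * x3)) = _
    ring
  have hbd : ∀ y, y < m → a * y ≤ 126 * 126 := fun y hy => Nat.mul_le_mul (by omega) (by omega)
  have g0 := hbd x0 hx0'
  have g1 := hbd x1 hx1'
  have g2 := hbd x2 hx2'
  have g3 := hbd x3 hx3'
  rw [e1, hp5 _ _ _ _ (by omega) (by omega) (by omega) (by omega), hp1]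
  have key : ∀ (b y : ℕ) (z : ℤ), (m : ℤ) ∣ (y : ℤ) - z →
      (m : ℤ) ∣ ((b + a * y : ℕ) : ℤ) - ((b : ℤ) + z * t) := by
    intro b y z hz
    have h3 : (m : ℤ) ∣ (a : ℤ) - t := modI_dvd t m h1
    have : ((b + a * y : ℕ) : ℤ) - ((b : ℤ) + z * t) =
        ((a : ℤ) - t) * y + t * ((y : ℤ) - z) := by
      push_cast
      ring
    rw [this]
    exact dvd_add (Dvd.dvd.mul_right h3 _) (Dvd.dvd.mul_left hz _)
  intro i
  rw [hc]
  fin_cases i
  · exact key b0 x0 e.x (modI_dvd _ m h1)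
  · exact key b1 x1 e.y (modI_dvd _ m h1)
  · exact key b2 x2 e.z (modI_dvd _ m h1)
  · exact key b3 x3 e.w (modI_dvd _ m h1)

theorem colG_eq (hP : PkZStmt) (m : ℕ) (h1 : 1 ≤ m) (h2 : m ≤ 127) (e : K.I4) (t : Fin 4 → ℤ)
    (S : M4) (hS : ∀ i j, S i j = (if i = j then 1 else 0) + vI e i * t j)
    (f : ℕ → ℕ → ℕ → ℕ → ℕ) :
    K.colG m e (t 0) (t 1) (t 2) (t 3) f = f (pkZ m (fun i => S i 0)) (pkZ m (fun i => S i 1))
      (pkZ m (fun i => S i 2)) (pkZ m (fun i => S i 3)) := by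
  have h : K.colG m e (t 0) (t 1) (t 2) (t 3) f = K.fc (K.pkI m e) fun x =>
      K.fc (K.redm m (Nat.add 1 (Nat.mul (K.modI (t 0) m) x))) fun c0 =>
      K.fc (K.redm m (Nat.add K.S1 (Nat.mul (K.modI (t 1) m) x))) fun c1 =>
      K.fc (K.redm m (Nat.add K.S2 (Nat.mul (K.modI (t 2) m) x))) fun c2 =>
      K.fc (K.redm m (Nat.add K.S3 (Nat.mul (K.modI (t 3) m) x))) fun c3 => f c0 c1 c2 c3 := rfl
  rw [h, fc_eq, fc_eq, fc_eq, fc_eq, fc_eq]
  rw [col_eq hP m h1 h2 e (t 0) 1 0 0 0 le_rfl (by omega) (by omega) (by omega)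
      (fun i => S i 0) (by ext i; rw [hS]; fin_cases i <;> simp) 1 rfl,
    col_eq hP m h1 h2 e (t 1) 0 1 0 0 (by omega) le_rfl (by omega) (by omega)
      (fun i => S i 1) (by ext i; rw [hS]; fin_cases i <;> simp) K.S1 rfl,
    col_eq hP m h1 h2 e (t 2) 0 0 1 0 (by omega) (by omega) le_rfl (by omega)
      (fun i => S i 2) (by ext i; rw [hS]; fin_cases i <;> simp) K.S2 rfl,
    col_eq hP m h1 h2 e (t 3) 0 0 0 1 (by omega) (by omega) (by omega) le_rfl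
      (fun i => S i 3) (by ext i; rw [hS]; fin_cases i <;> simp) K.S3 rfl]

theorem nab_eq (x : ℤ) (f : ℕ → ℕ) : K.nab x f = f x.natAbs := fc_eq _ _

theorem reflG_eq (hP : PkZStmt) (A : K.I10) (m M : ℕ) (e : K.I4) (f : K.Gp → ℕ)
    (he : IsRoot (matI A) (vI e)) (h1 : 1 ≤ m) (h2 : m ≤ 127) (h3 : 1 ≤ M) (h4 : M ≤ 127) :
    K.reflG A m M e f = f (gpZ m M (rm (matI A) (vI e))) := by
  have h : K.reflG A m M e f = K.fc4 (K.mulI A e) fun u => K.nab (K.dotI e u) fun K' =>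
      K.fcI (Int.neg (K.divI (Int.mul 2 u.x) K')) fun t0 =>
      K.fcI (Int.neg (K.divI (Int.mul 2 u.y) K')) fun t1 =>
      K.fcI (Int.neg (K.divI (Int.mul 2 u.z) K')) fun t2 =>
      K.fcI (Int.neg (K.divI (Int.mul 2 u.w) K')) fun t3 =>
      K.colG m e t0 t1 t2 t3 fun c0 c1 c2 c3 =>
      K.fc (K.p4 (K.dig0 c0) (K.dig0 c1) (K.dig0 c2) (K.dig0 c3)) fun r0 =>
      K.fc (K.p4 (K.dig1 c0) (K.dig1 c1) (K.dig1 c2) (K.dig1 c3)) fun r1 =>
      K.fc (K.p4 (K.dig2 c0) (K.dig2 c1) (K.dig2 c2) (K.dig2 c3)) fun r2 =>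
      K.fc (K.p4 (K.dig3 c0) (K.dig3 c1) (K.dig3 c2) (K.dig3 c3)) fun r3 =>
      K.colG M e t0 t1 t2 t3 fun m0 m1 m2 m3 =>
        f (K.Gp.mk c0 c1 c2 c3 r0 r1 r2 r3 m0 m1 m2 m3) := rfl
  rw [h, fc4_eq, nab_eq, fcI_eq, fcI_eq, fcI_eq, fcI_eq, dotI_mulI]
  clear h
  have hK := he.pos
  set k := bz (matI A) (vI e) (vI e) with hk
  have hdv : ∀ i, k ∣ 2 * (matI A).mulVec (vI e) i := by
    intro i
    have h5 := he.dvd (Pi.single i 1)
    rw [bz_commA A (Pi.single i 1), bz_single] at h5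
    exact h5
  have hdiv : ∀ i, Int.neg (K.divI (2 * (matI A).mulVec (vI e) i) k.natAbs) =
      -(2 * (matI A).mulVec (vI e) i / k) := by
    intro i
    obtain ⟨q, hq⟩ := hdv i
    have e1 : k * q / k = q := Int.mul_ediv_cancel_left _ hK.ne'
    rw [hq, e1]
    have e2 : (k.natAbs : ℤ) = k := by rw [Int.natCast_natAbs, abs_of_pos hK]
    have e3 := divI_mul k.natAbs (Int.natAbs_pos.2 hK.ne') q
    rw [e2] at e3
    rw [e3]
    rfl
  have hx : (K.mulI A e).x = (matI A).mulVec (vI e) 0 := congrFun (mulI_vI A e) 0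
  have hy : (K.mulI A e).y = (matI A).mulVec (vI e) 1 := congrFun (mulI_vI A e) 1
  have hz : (K.mulI A e).z = (matI A).mulVec (vI e) 2 := congrFun (mulI_vI A e) 2
  have hw : (K.mulI A e).w = (matI A).mulVec (vI e) 3 := congrFun (mulI_vI A e) 3
  rw [hx, hy, hz, hw]
  have d0 := hdiv 0
  have d1 := hdiv 1
  have d2 := hdiv 2
  have d3 := hdiv 3
  set t : Fin 4 → ℤ := fun j => -(2 * (matI A).mulVec (vI e) j / k) with ht
  have d0' : Int.neg (K.divI (Int.mul 2 ((matI A).mulVec (vI e) 0)) k.natAbs) = t 0 := d0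
  have d1' : Int.neg (K.divI (Int.mul 2 ((matI A).mulVec (vI e) 1)) k.natAbs) = t 1 := d1
  have d2' : Int.neg (K.divI (Int.mul 2 ((matI A).mulVec (vI e) 2)) k.natAbs) = t 2 := d2
  have d3' : Int.neg (K.divI (Int.mul 2 ((matI A).mulVec (vI e) 3)) k.natAbs) = t 3 := d3
  rw [d0', d1', d2', d3']
  set S := rm (matI A) (vI e) with hS
  have hS' : ∀ i j, S i j = (if i = j then 1 else 0) + vI e i * t j := by
    intro i j
    rw [hS, ht]
    show (if i = j then 1 else 0) - vI e i * (2 * (matI A).mulVec (vI e) j /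
      bz (matI A) (vI e) (vI e)) = _
    rw [← hk]
    ring
  rw [colG_eq hP m h1 h2 e t S hS', fc_eq, fc_eq, fc_eq, fc_eq, colG_eq hP M h3 h4 e t S hS']
  obtain ⟨-, -, -, hp4, -⟩ := hP m h1 h2
  have g : ∀ x : Z4, K.dig0 (pkZ m x) = (x 0 % m).toNat ∧ K.dig1 (pkZ m x) = (x 1 % m).toNat ∧
      K.dig2 (pkZ m x) = (x 2 % m).toNat ∧ K.dig3 (pkZ m x) = (x 3 % m).toNat := by
    intro x
    obtain ⟨q0, q1, q2, q3⟩ := hp4 x
    exact ⟨by rw [← q0, Int.toNat_natCast], by rw [← q1, Int.toNat_natCast],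
      by rw [← q2, Int.toNat_natCast], by rw [← q3, Int.toNat_natCast]⟩
  simp only [(g _).1, (g _).2.1, (g _).2.2.1, (g _).2.2.2]
  rw [gpZ, pkZ_p4 m (S 0), pkZ_p4 m (S 1), pkZ_p4 m (S 2), pkZ_p4 m (S 3)]

/-- MKG -/
theorem mkG (hP : PkZStmt) : MkGStmt := by
  intro A F
  induction F with
  | nil => intro m M f _ _ _ _ _; rfl
  | cons e F ih =>
    intro m M f hF h1 h2 h3 h4
    have h : K.mkGs A m M (e :: F) f =
        K.reflG A m M e fun g => K.mkGs A m M F (fun l => f (List.cons g l)) := rfl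
    rw [h, reflG_eq hP A m M e _ (hF e List.mem_cons_self) h1 h2 h3 h4,
      ih m M _ (fun e he => hF e (List.mem_cons_of_mem _ he)) h1 h2 h3 h4]
    rfl

end Pool.Agent.Refl.H84M
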