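import Pool.Agent.Helper23_Refl.StmtC5
import Pool.Agent.Helper38_Refl.Walk

/-!
# ORBT: the certificates of a list of rows
-/

namespace Pool.Agent.Refl.H84T

open Matrix Pool.Agent.Refl Pool.Agent.Refl.H93 Pool.Agent.Refl.H38

theorem fc10_eq {α : Type} (A : K.I10) (f : K.I10 → α) : K.fc10 A f = f A := by
  have h : K.fc10 A f = K.fcI A.a00 fun a => K.fcI A.a01 fun b => K.fcI A.a02 fun c =>
      K.fcI A.a03 fun d => K.fcI A.a11 fun e =>
      K.fcI A.a12 fun g => K.fcI A.a13 fun h => K.fcI A.a22 fun i => K.fcI A.a23 fun j =>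
      K.fcI A.a33 fun k => f (K.I10.mk a b c d e g h i j k) := rfl
  rw [h, fcI_eq, fcI_eq, fcI_eq, fcI_eq, fcI_eq, fcI_eq, fcI_eq, fcI_eq, fcI_eq, fcI_eq]

theorem rowT_eq {α : Type} (ta j : ℕ) (f : K.I10 → α) :
    ∃ A : K.I10, matI A = mtab ta j ∧ K.rowT ta j f = f A := by
  have h : K.rowT ta j f = K.fc (Nat.mod (Nat.shiftRight ta (Nat.mul 240 j)) (Nat.pow 2 240))
      fun r => K.fc10 (K.i10 24 r) f := rfl
  rw [h, fc_eq, fc10_eq]
  exact ⟨_, rfl, rfl⟩

theorem rdLs_ex (k w : ℕ) : ∀ (f : List K.I4 → ℕ → ℕ) (s : ℕ),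
    ∃ l s', K.rdLs k w f s = f l s' := by
  induction k with
  | zero => intro f s; exact ⟨[], s, rfl⟩
  | succ k ih =>
    intro f s
    have h : K.rdLs (k + 1) w f s =
        K.rdI w s fun v s => K.rdLs k w (fun l s => f (List.cons v l) s) s := rfl
    rw [h]
    obtain ⟨v, s1, h1⟩ := rdI_ex w s fun v s => K.rdLs k w (fun l s => f (List.cons v l) s) s
    rw [h1]
    obtain ⟨l, s2, h2⟩ := ih (fun l s => f (List.cons v l) s) s1
    exact ⟨_, _, h2⟩

theorem allF_mem (f : K.I4 → Bool) (l : List K.I4) (h : K.allF f l = true) :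
    ∀ e ∈ l, f e = true := by
  induction l with
  | nil => intro e he; cases he
  | cons a l ih =>
    have h1 : K.allF f (a :: l) = (Bool.rec false (K.allF f l) (f a) : Bool) := rfl
    rw [h1] at h
    cases hfa : f a with
    | false => rw [hfa] at h; exact absurd h Bool.false_ne_true
    | true =>
      rw [hfa] at h
      intro e he
      rcases List.mem_cons.1 he with h2 | h2
      · rw [h2]; exact hfa
      · exact ih h e h2

theorem appF_eq (l F : List K.I4) : K.appF l F = l ++ F := by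
  induction l with
  | nil => rfl
  | cons a l ih =>
    have h : K.appF (a :: l) F = a :: K.appF l F := rfl
    rw [h, ih]
    rfl

theorem lenF_eq (l : List K.I4) : K.lenF l = l.length := by
  induction l with
  | nil => rfl
  | cons a l ih =>
    have h : K.lenF (a :: l) = Nat.succ (K.lenF l) := rfl
    rw [h, ih]
    rfl

theorem facs_mem (l : List K.Vx) : ∀ e ∈ K.facs l, ∃ v ∈ l, e = v.a ∨ e = v.b ∨ e = v.c := by
  induction l with
  | nil => intro e he; cases he
  | cons v l ih =>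
    cases l with
    | nil =>
      intro e he
      have h : K.facs [v] = [v.c, v.a, v.b] := rfl
      rw [h] at he
      refine ⟨v, List.mem_cons_self, ?_⟩
      simp only [List.mem_cons, List.not_mem_nil, or_false] at he
      tauto
    | cons v' l =>
      intro e he
      have h : K.facs (v :: v' :: l) = v.c :: K.facs (v' :: l) := rfl
      rw [h] at he
      rcases List.mem_cons.1 he with h2 | h2
      · exact ⟨v, List.mem_cons_self, Or.inr (Or.inr h2)⟩
      · obtain ⟨w, hw, hw2⟩ := ih e h2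
        exact ⟨w, List.mem_cons_of_mem _ hw, hw2⟩

theorem isV_rot {G : M4} {n : ℕ} {f : Fin n → Z4} {i j k : Fin n} (h : IsV G f i j k) :
    IsV G f j k i := by
  obtain ⟨h1, h2, h3, V, hV0, hV, hVi, hVj, hVk⟩ := h
  exact ⟨h2, h3.symm, h1.symm, V, hV0, hV, hVj, hVk, hVi⟩

theorem vok_vec {G : M4} {n : ℕ} {f : Fin n → Z4} {v : K.Vx} {e : K.I4}
    (h : VOK G f (vI v.a) (vI v.b) (vI v.c)) (he : e = v.a ∨ e = v.b ∨ e = v.c) :
    ∃ a j k : Fin n, f a = vI e ∧ IsV G f a j k := by
  obtain ⟨i, j, k, hi, hj, hk, hV, -⟩ := h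
  rcases he with he | he | he
  · exact ⟨i, j, k, by rw [he]; exact hi, hV⟩
  · exact ⟨j, k, i, by rw [he]; exact hj, isV_rot hV⟩
  · exact ⟨k, i, j, by rw [he]; exact hk, isV_rot (isV_rot hV)⟩

theorem rdR_spec (A : K.I10) (ta j : ℕ) (l : List K.I4) (s : ℕ) (h : K.rdR A ta j l s ≠ 0) :
    ∃ (F : List K.I4) (s' : ℕ), (∀ e ∈ F, IsRoot (matI A) (vI e)) ∧
      K.allJ A ta j (l ++ F) l.length s' ≠ 0 := by
  have e : K.rdR A ta j l s = K.rdLs (Nat.mod s 256) (Nat.mod (Nat.div s 256) 64) (fun F s =>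
    (Bool.rec 0 (K.allJ A ta j (K.appF l F) (K.lenF l) s) (K.allF (K.isR A) F) : ℕ))
      (Nat.div s 16384) := rfl
  rw [e] at h
  obtain ⟨F, s', h1⟩ := rdLs_ex (Nat.mod s 256) (Nat.mod (Nat.div s 256) 64) (fun F s =>
    (Bool.rec 0 (K.allJ A ta j (K.appF l F) (K.lenF l) s) (K.allF (K.isR A) F) : ℕ))
      (Nat.div s 16384)
  rw [h1] at h
  obtain ⟨h2, h3⟩ := brec_ne h
  refine ⟨F, s', fun e he => (isR_iff A e).1 (allF_mem _ F h2 e he), ?_⟩
  rw [appF_eq, lenF_eq] at h3
  exact h3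

theorem nrec_true {n : ℕ} (h : (Nat.rec false (fun _ _ => true) n : Bool) = true) : n ≠ 0 := by
  cases n with
  | zero => exact absurd h Bool.false_ne_true
  | succ n => exact Nat.succ_ne_zero n

theorem orbJ_spec (hW : WalkStmt) (hA : AllJStmt) (ta j s : ℕ)
    (hL : Lat (mtab ta j) ∧ Reflective (mtab ta j)) (h : K.orbJ ta j s = true) :
    OrbC ta j := by
  have e : K.orbJ ta j s = (Nat.rec false (fun _ _ => true) (K.rowT ta j fun A =>
    K.fc (Nat.div s 2) fun s' =>
    (Nat.rec (K.rdR A ta j List.nil s') (fun _ _ => K.walk A s' (fun l s =>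
      K.rdR A ta j (K.facs l) s)) (Nat.mod s 2) : ℕ)) : Bool) := rfl
  rw [e] at h
  have h1 := nrec_true h
  obtain ⟨A, hmA, hA2⟩ := rowT_eq ta j fun A => K.fc (Nat.div s 2) fun s' =>
    (Nat.rec (K.rdR A ta j List.nil s') (fun _ _ => K.walk A s' (fun l s =>
      K.rdR A ta j (K.facs l) s)) (Nat.mod s 2) : ℕ)
  rw [hA2, fc_eq] at h1
  clear hA2 h e
  rw [← hmA] at hL
  cases hs : Nat.mod s 2 with
  | zero =>
    rw [hs] at h1
    obtain ⟨F, s', hF, h2⟩ := rdR_spec A ta j [] _ h1
    exact hA A ta j ([] ++ F) 0 s' hmA hL.1 hF (fun h => absurd h (lt_irrefl 0)) h2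
  | succ t =>
    rw [hs] at h1
    have h1' : K.walk A (Nat.div s 2) (fun l s => K.rdR A ta j (K.facs l) s) ≠ 0 := h1
    obtain ⟨n, f, O, l, s', hC, hV, h2⟩ := hW A _ _ hL.1 hL.2 h1'
    obtain ⟨F, s2, hF, h3⟩ := rdR_spec A ta j (K.facs l) s' h2
    have hmem : ∀ e ∈ K.facs l, ∃ a j k : Fin n, f a = vI e ∧ IsV (matI A) f a j k := by
      intro e he
      obtain ⟨v, hv, hv2⟩ := facs_mem l e he
      exact vok_vec (hV v hv) hv2
    refine hA A ta j (K.facs l ++ F) _ s2 hmA hL.1 ?_ ?_ h3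
    · intro e he
      rcases List.mem_append.1 he with h4 | h4
      · obtain ⟨a, -, -, ha, -⟩ := hmem e h4
        rw [← ha]
        exact hC.root a
      · exact hF e h4
    · intro _
      refine ⟨n, f, O, hC, fun i hi => ?_⟩
      have h5 : (K.facs l ++ F)[i]? = some ((K.facs l)[i]) := by
        rw [List.getElem?_append_left hi, List.getElem?_eq_getElem hi]
      obtain ⟨a, j', k', ha, hV'⟩ := hmem _ (List.getElem_mem hi)
      exact ⟨_, a, j', k', h5, ha, hV'⟩

/-- ORBT -/
theorem orbT (hW : WalkStmt) (hA : AllJStmt) : OrbTStmt := by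
  intro ta j l
  induction l generalizing j with
  | nil => intro _ _ i hi; exact absurd hi (Nat.not_lt_zero _)
  | cons s l ih =>
    intro hL h
    have e : K.orbT ta j (s :: l) =
      (Bool.rec false (K.orbT ta (Nat.succ j) l) (K.orbJ ta j s) : Bool) := rfl
    rw [e] at h
    cases hb : K.orbJ ta j s with
    | false => rw [hb] at h; exact absurd h Bool.false_ne_true
    | true =>
      rw [hb] at h
      have h' : K.orbT ta (j + 1) l = true := h
      intro i hi
      cases i with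
      | zero => exact orbJ_spec hW hA ta j s (hL 0 (Nat.succ_pos _)) hb
      | succ i =>
        have h2 := ih (j + 1) (fun i' hi' => by
          have := hL (i' + 1) (Nat.succ_lt_succ hi')
          rw [show j + 1 + i' = j + (i' + 1) by ring]
          exact this) h' i (Nat.lt_of_succ_lt_succ hi)
        rw [show j + (i + 1) = j + 1 + i by ring]
        exact h2

end Pool.Agent.Refl.H84T
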