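import Pool.Agent.Helper84_Refl.Base

/-!
# REFL, module BASE part 2 (helper84): reflections, roots
-/

set_option linter.all false

namespace Pool.Agent.Refl

open Matrix

theorem mat_ext {A B : M4} (h : ∀ x : Z4, A.mulVec x = B.mulVec x) : A = B :=
  Matrix.ext_of_mulVec_single fun i => h _

theorem unit_ext {g h : M4ˣ} (hh : ∀ x : Z4, (g : M4).mulVec x = (h : M4).mulVec x) : g = h :=
  Units.ext (mat_ext hh)

theorem bz_single (A : M4) (i j : Fin 4) : bz A (Pi.single i 1) (Pi.single j 1) = A i j := by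
  simp [bz, Pi.single_apply]

theorem bz_conj (G g : M4) (x y : Z4) :
    bz (g.transpose * G * g) x y = bz G (g.mulVec x) (g.mulVec y) := by
  rw [bz_eq_dot, bz_eq_dot, Matrix.mul_assoc, ← Matrix.mulVec_mulVec, Matrix.mulVec_transpose,
    ← Matrix.mulVec_mulVec, dotProduct_comm x, ← Matrix.dotProduct_mulVec, dotProduct_comm]

theorem mem_OG_of_bz {G : M4} {g : M4ˣ}
    (h : ∀ x y : Z4, bz G ((g : M4).mulVec x) ((g : M4).mulVec y) = bz G x y) : g ∈ OG G := by
  rw [mem_OG]
  ext i j
  have h1 := h (Pi.single i 1) (Pi.single j 1)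
  rw [← bz_conj, bz_single, bz_single] at h1
  exact h1

/-- Cartan number `2(x,r)/(r,r)` -/
def cfr (G : M4) (x r : Z4) : ℤ := 2 * bz G x r / bz G r r

theorem cfr_spec {G : M4} {r : Z4} (hr : IsRoot G r) (x : Z4) :
    bz G r r * cfr G x r = 2 * bz G x r := Int.mul_ediv_cancel' (hr.dvd x)

theorem cfr_unique {G : M4} {r : Z4} (hr : IsRoot G r) {x : Z4} {c : ℤ}
    (h : bz G r r * c = 2 * bz G x r) : cfr G x r = c := by
  have h1 := cfr_spec hr x
  rw [← h] at h1
  exact mul_left_cancel₀ hr.pos.ne' h1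

/-- the matrix of the reflection in `r` -/
def refl (G : M4) (r : Z4) : M4 :=
  Matrix.of fun i j => (if i = j then 1 else 0) - cfr G (Pi.single j 1) r * r i

theorem refl_mulVec {G : M4} {r : Z4} (hr : IsRoot G r) (x : Z4) :
    (refl G r).mulVec x = x - cfr G x r • r := by
  have h0 : bz G x r = ∑ j, x j * bz G (Pi.single j 1) r := by
    have hx : x = ∑ j, x j • (Pi.single j 1 : Z4) := by
      funext i
      simp [Finset.sum_apply, Pi.single_apply]
    conv_lhs => rw [hx]
    rw [bz_sum_left]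
    refine Finset.sum_congr rfl fun j _ => ?_
    rw [bz_smul_left]
  have h1 : cfr G x r = ∑ j, cfr G (Pi.single j 1) r * x j := by
    apply cfr_unique hr
    rw [h0, Finset.mul_sum, Finset.mul_sum]
    refine Finset.sum_congr rfl fun j _ => ?_
    have := cfr_spec hr (Pi.single j 1)
    rw [← mul_assoc, this]; ring
  funext i
  rw [h1]
  simp only [mulVec, dotProduct, refl, Matrix.of_apply, Pi.sub_apply, Pi.smul_apply, smul_eq_mul,
    sub_mul, Finset.sum_sub_distrib, Finset.sum_mul]
  congr 1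
  · simp
  · refine Finset.sum_congr rfl fun j _ => ?_
    ring

theorem cfr_self {G : M4} {r : Z4} (hr : IsRoot G r) : cfr G r r = 2 := by
  apply cfr_unique hr; ring

theorem cfr_sub {G : M4} {r : Z4} (hr : IsRoot G r) (x y : Z4) :
    cfr G (x - y) r = cfr G x r - cfr G y r := by
  apply cfr_unique hr
  rw [mul_sub, cfr_spec hr, cfr_spec hr, bz_sub_left]; ring

theorem cfr_add {G : M4} {r : Z4} (hr : IsRoot G r) (x y : Z4) :
    cfr G (x + y) r = cfr G x r + cfr G y r := by
  apply cfr_unique hr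
  rw [mul_add, cfr_spec hr, cfr_spec hr, bz_add_left]; ring

theorem cfr_smul {G : M4} {r : Z4} (hr : IsRoot G r) (a : ℤ) (x : Z4) :
    cfr G (a • x) r = a * cfr G x r := by
  apply cfr_unique hr
  rw [bz_smul_left]
  have := cfr_spec hr x
  linear_combination a * this

theorem refl_refl {G : M4} {r : Z4} (hr : IsRoot G r) (x : Z4) :
    (refl G r).mulVec ((refl G r).mulVec x) = x := by
  rw [refl_mulVec hr, refl_mulVec hr, cfr_sub hr, cfr_smul hr, cfr_self hr]
  funext i
  simp only [Pi.sub_apply, Pi.smul_apply, smul_eq_mul]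
  ring

theorem refl_mul_self {G : M4} {r : Z4} (hr : IsRoot G r) : refl G r * refl G r = 1 := by
  apply mat_ext
  intro x
  rw [← Matrix.mulVec_mulVec, refl_refl hr, Matrix.one_mulVec]

open Classical in
/-- the reflection as a unit (junk value `1` if `r` is not a root) -/
noncomputable def reflU (G : M4) (r : Z4) : M4ˣ :=
  if h : refl G r * refl G r = 1 then ⟨refl G r, refl G r, h, h⟩ else 1

theorem coe_reflU {G : M4} {r : Z4} (hr : IsRoot G r) : (reflU G r : M4) = refl G r := by
  unfold reflU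
  rw [dif_pos (refl_mul_self hr)]

theorem reflU_mul_self {G : M4} {r : Z4} (hr : IsRoot G r) : reflU G r * reflU G r = 1 := by
  apply Units.ext
  rw [Units.val_mul, coe_reflU hr, refl_mul_self hr, Units.val_one]

theorem reflU_inv {G : M4} {r : Z4} (hr : IsRoot G r) : (reflU G r)⁻¹ = reflU G r :=
  inv_eq_of_mul_eq_one_left (reflU_mul_self hr)

theorem reflU_mulVec {G : M4} {r : Z4} (hr : IsRoot G r) (x : Z4) :
    (reflU G r : M4).mulVec x = x - cfr G x r • r := by
  rw [coe_reflU hr, refl_mulVec hr]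

theorem reflU_self {G : M4} {r : Z4} (hr : IsRoot G r) : (reflU G r : M4).mulVec r = -r := by
  rw [reflU_mulVec hr, cfr_self hr, two_smul]; abel

theorem bz_refl {G : M4} (h : Lat G) {r : Z4} (hr : IsRoot G r) (x y : Z4) :
    bz G ((reflU G r : M4).mulVec x) ((reflU G r : M4).mulVec y) = bz G x y := by
  rw [reflU_mulVec hr, reflU_mulVec hr]
  simp only [bz_sub_left, bz_sub_right, bz_smul_left, bz_smul_right]
  have h1 := cfr_spec hr x
  have h2 := cfr_spec hr y
  rw [h.zcomm r y]
  have h3 : 2 * (cfr G y r * bz G x r) = 2 * (cfr G x r * bz G y r) := by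
    linear_combination cfr G x r * h2 - cfr G y r * h1
  have h4 : cfr G y r * bz G x r = cfr G x r * bz G y r := by linarith
  linear_combination cfr G y r * h1 + h4

theorem reflU_mem_OG {G : M4} (h : Lat G) {r : Z4} (hr : IsRoot G r) : reflU G r ∈ OG G :=
  mem_OG_of_bz fun x y => bz_refl h hr x y

theorem reflU_isReflection {G : M4} {r : Z4} (hr : IsRoot G r) : IsReflection G (reflU G r) := by
  refine ⟨r, hr.pos, fun x => ?_⟩
  rw [reflU_mulVec hr, smul_sub, smul_smul, cfr_spec hr]

theorem reflU_mem_Or {G : M4} (h : Lat G) {r : Z4} (hr : IsRoot G r) : reflU G r ∈ Or G :=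
  Subgroup.subset_closure ⟨reflU_mem_OG h hr, reflU_isReflection hr⟩

theorem Or_le_OG (G : M4) : Or G ≤ OG G := by
  unfold Or
  rw [Subgroup.closure_le]
  intro g hg
  exact hg.1

theorem prim_dvd {r : Z4} (hr : Prim4 r) {K a : ℤ} (h : ∀ i, K ∣ a * r i) : K ∣ a := by
  have h1 : K ∣ (Finset.univ.gcd fun i => a * r i) := Finset.dvd_gcd fun i _ => h i
  rw [Finset.gcd_mul_left] at h1
  have h2 : IsUnit (Finset.univ.gcd r) := hr _ fun i => Finset.gcd_dvd (Finset.mem_univ i)
  have h3 : Finset.univ.gcd r ∣ 1 := h2.dvd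
  have h4 : K ∣ normalize a := by
    obtain ⟨u, hu⟩ := h2
    rw [← hu] at h1
    exact (Units.dvd_mul_right).1 h1
  exact (dvd_normalize_iff).1 h4

theorem exists_prim {e : Z4} (he : e ≠ 0) : ∃ (d : ℤ) (r : Z4), d ≠ 0 ∧ e = d • r ∧ Prim4 r := by
  obtain ⟨g, hg, hg1⟩ := Finset.extract_gcd e (Finset.univ_nonempty (α := Fin 4))
  refine ⟨Finset.univ.gcd e, g, ?_, ?_, ?_⟩
  · intro h0
    rw [Finset.gcd_eq_zero_iff] at h0
    apply he
    funext i
    exact h0 i (Finset.mem_univ i)
  · funext i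
    rw [Pi.smul_apply, smul_eq_mul]
    exact hg i (Finset.mem_univ i)
  · intro d hd
    have : d ∣ Finset.univ.gcd g := Finset.dvd_gcd fun i _ => hd i
    rw [hg1] at this
    exact isUnit_of_dvd_one this

theorem IsReflection.exists_root {G : M4} {g : M4ˣ} (hg : IsReflection G g) :
    ∃ r : Z4, IsRoot G r ∧ g = reflU G r := by
  obtain ⟨e, he, hx⟩ := hg
  have he0 : e ≠ 0 := by
    rintro rfl
    simp at he
  obtain ⟨d, r, hd, rfl, hp⟩ := exists_prim he0
  have hd2 : 0 < d ^ 2 := by positivity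
  have hK : bz G (d • r) (d • r) = d ^ 2 * bz G r r := by
    rw [bz_smul_left, bz_smul_right]; ring
  rw [hK] at he hx
  have hKr : 0 < bz G r r := by
    by_contra hcon
    push Not at hcon
    nlinarith
  have hx' : ∀ x : Z4, bz G r r • (g : M4).mulVec x = bz G r r • x - (2 * bz G x r) • r := by
    intro x
    have h1 := hx x
    funext i
    have h2 := congrFun h1 i
    simp only [Pi.smul_apply, Pi.sub_apply, smul_eq_mul, bz_smul_right] at h2 ⊢
    have h3 : d ^ 2 * (bz G r r * ((g : M4).mulVec x) i) =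
        d ^ 2 * (bz G r r * x i - 2 * bz G x r * r i) := by
      linear_combination h2
    exact mul_left_cancel₀ hd2.ne' h3
  have hr : IsRoot G r := by
    refine ⟨hKr, fun x => ?_, hp⟩
    apply prim_dvd hp
    intro i
    have h2 := congrFun (hx' x) i
    simp only [Pi.smul_apply, Pi.sub_apply, smul_eq_mul] at h2
    refine ⟨x i - ((g : M4).mulVec x) i, ?_⟩
    linear_combination h2
  refine ⟨r, hr, unit_ext fun x => ?_⟩
  funext i
  have h2 := congrFun (hx' x) i
  rw [reflU_mulVec hr]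
  simp only [Pi.smul_apply, Pi.sub_apply, smul_eq_mul] at h2 ⊢
  have h3 := cfr_spec hr x
  have h4 : bz G r r * ((g : M4).mulVec x) i = bz G r r * (x i - cfr G x r * r i) := by
    linear_combination h2 + r i * h3
  exact mul_left_cancel₀ hKr.ne' h4

theorem Or_eq_closure {G : M4} (h : Lat G) :
    Or G = Subgroup.closure {g | ∃ r, IsRoot G r ∧ g = reflU G r} := by
  unfold Or
  congr 1
  ext g
  constructor
  · rintro ⟨_, h2⟩
    exact h2.exists_root
  · rintro ⟨r, hr, rfl⟩
    exact ⟨reflU_mem_OG h hr, reflU_isReflection hr⟩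

theorem IsRoot.ne_zero {G : M4} {r : Z4} (hr : IsRoot G r) : r ≠ 0 := by
  rintro rfl
  have := hr.pos
  simp at this

theorem IsRoot.neg {G : M4} {r : Z4} (hr : IsRoot G r) : IsRoot G (-r) := by
  refine ⟨?_, fun x => ?_, fun d hd => ?_⟩
  · rw [bz_neg_left, bz_neg_right, neg_neg]; exact hr.pos
  · rw [bz_neg_left, bz_neg_right, bz_neg_right, neg_neg, mul_neg, dvd_neg]
    exact hr.dvd x
  · apply hr.prim
    intro i
    have := hd i
    rwa [Pi.neg_apply, dvd_neg] at this

theorem reflU_neg {G : M4} {r : Z4} (hr : IsRoot G r) : reflU G (-r) = reflU G r := by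
  apply unit_ext
  intro x
  rw [reflU_mulVec hr, reflU_mulVec hr.neg]
  have : cfr G x (-r) = -cfr G x r := by
    apply cfr_unique hr.neg
    rw [bz_neg_left, bz_neg_right, bz_neg_right, neg_neg]
    have := cfr_spec hr x
    linarith
  rw [this]
  simp

theorem IsRoot.map {G : M4} {r : Z4} (hr : IsRoot G r) {g : M4ˣ} (hg : g ∈ OG G) :
    IsRoot G ((g : M4).mulVec r) := by
  refine ⟨?_, fun x => ?_, fun d hd => ?_⟩
  · rw [bz_OG hg]; exact hr.pos
  · rw [bz_OG hg]
    have h1 : bz G x ((g : M4).mulVec r) = bz G (((g⁻¹ : M4ˣ) : M4).mulVec x) r := by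
      have h2 := bz_OG hg (((g⁻¹ : M4ˣ) : M4).mulVec x) r
      rw [mulVec_inv'] at h2
      exact h2
    rw [h1]
    exact hr.dvd _
  · apply hr.prim
    intro i
    have h1 : r i = (((g⁻¹ : M4ˣ) : M4).mulVec ((g : M4).mulVec r)) i := by rw [mulVec_inv]
    rw [h1]
    simp only [mulVec, dotProduct] at hd ⊢
    exact Finset.dvd_sum fun j _ => Dvd.dvd.mul_left (hd j) _

theorem cfr_map {G : M4} {r : Z4} {g : M4ˣ} (hg : g ∈ OG G) (x : Z4) :
    cfr G ((g : M4).mulVec x) ((g : M4).mulVec r) = cfr G x r := by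
  unfold cfr
  rw [bz_OG hg, bz_OG hg]

theorem reflU_conj {G : M4} {r : Z4} (hr : IsRoot G r) {g : M4ˣ} (hg : g ∈ OG G) :
    reflU G ((g : M4).mulVec r) = g * reflU G r * g⁻¹ := by
  apply unit_ext
  intro x
  rw [reflU_mulVec (hr.map hg), Units.val_mul, Units.val_mul, ← Matrix.mulVec_mulVec,
    ← Matrix.mulVec_mulVec, reflU_mulVec hr, Matrix.mulVec_sub, mulVec_inv', Matrix.mulVec_smul]
  congr 2
  rw [← cfr_map hg (((g⁻¹ : M4ˣ) : M4).mulVec x), mulVec_inv']

theorem reflU_map {G : M4} {r : Z4} (hr : IsRoot G r) {g : M4ˣ} (hg : g ∈ OG G) :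
    reflU G ((g : M4).mulVec r) * g = g * reflU G r := by
  rw [reflU_conj hr hg]; group

theorem up_single (i : Fin 4) : up (Pi.single i 1) = Pi.single i 1 := by
  funext j
  simp only [up, Pi.single_apply]
  split_ifs <;> simp

theorem IsRoot.pos_real {G : M4} {r : Z4} (hr : IsRoot G r) : 0 < br G (up r) (up r) := by
  rw [br_up]; exact_mod_cast hr.pos

/-- the real reflection -/
theorem act_reflU {G : M4} {r : Z4} (hr : IsRoot G r) (x : R4) :
    act (reflU G r : M4) x = x - (2 * br G x (up r) / br G (up r) (up r)) • up r := by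
  have hK := hr.pos_real
  have hx : x = ∑ j, x j • up (Pi.single j 1 : Z4) := by
    funext i
    simp [Finset.sum_apply, Pi.single_apply]
  have h1 : ∀ z : Z4, act (reflU G r : M4) (up z) =
      up z - (2 * br G (up z) (up r) / br G (up r) (up r)) • up r := by
    intro z
    rw [act_up, reflU_mulVec hr, up_sub, up_smul]
    congr 2
    rw [eq_div_iff hK.ne', br_up, br_up]
    have := cfr_spec hr z
    have h2 : ((bz G r r * cfr G z r : ℤ) : ℝ) = ((2 * bz G z r : ℤ) : ℝ) := by rw [this]
    push_cast at h2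
    linarith
  have h2 : act (reflU G r : M4) x = ∑ j, x j • act (reflU G r : M4) (up (Pi.single j 1)) := by
    conv_lhs => rw [hx]
    unfold act
    rw [Matrix.mulVec_sum]
    refine Finset.sum_congr rfl fun j _ => ?_
    rw [Matrix.mulVec_smul]
  rw [h2]
  have h3 : br G x (up r) = ∑ j, x j * br G (up (Pi.single j 1)) (up r) := by
    conv_lhs => rw [hx]
    rw [br_sum_left]
    refine Finset.sum_congr rfl fun j _ => ?_
    rw [br_smul_left]
  rw [h3]
  simp only [h1, smul_sub, Finset.sum_sub_distrib]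
  rw [← hx]
  congr 1
  rw [Finset.mul_sum, Finset.sum_div, Finset.sum_smul]
  refine Finset.sum_congr rfl fun j _ => ?_
  rw [smul_smul]
  congr 1
  ring

theorem br_act_reflU {G : M4} {r : Z4} (hr : IsRoot G r) (x y : R4) :
    br G (act (reflU G r : M4) x) y =
      br G x y - 2 * br G x (up r) * br G (up r) y / br G (up r) (up r) := by
  rw [act_reflU hr, br_sub_left, br_smul_left]; ring

end Pool.Agent.Refl
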