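import Pool.Agent.Helper84_Refl.ChamStmts

/-!
# REFL, module CHAM1 (helper84): walls of the chamber
-/

set_option linter.all false

namespace Pool.Agent.Refl.H84

open Matrix

theorem root_norm_le (hD : RootDvdStmt) {G : M4} (h : Lat G) {r : Z4} (hr : IsRoot G r) :
    (bz G r r : ℝ) ≤ 2 * |(G.det : ℝ)| := by
  have h1 := hD G h r hr
  have h2 : 2 * G.det ≠ 0 := mul_ne_zero two_ne_zero h.det_ne
  have h3 : bz G r r ≤ |2 * G.det| := Int.le_of_dvd (abs_pos.2 h2) ((dvd_abs _ _).2 h1)
  rw [abs_mul, abs_two] at h3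
  exact_mod_cast h3

/-- Cauchy-Schwarz in the orthogonal complement of a negative vector -/
theorem cs_perp {G : M4} (h : Lat G) {z u v : R4} (hz : br G z z < 0) (hu : br G u z = 0)
    (hv : br G v z = 0) : br G u v ^ 2 ≤ br G u u * br G v v := by
  have hvv := h.pos' hz hv
  have huu := h.pos' hz hu
  by_cases h0 : br G v v = 0
  · have hv0 : v = 0 := by
      by_contra hne
      exact absurd (h.pos hz hv hne) (by rw [h0]; exact lt_irrefl _)
    rw [hv0]; simp
  · have hvp : 0 < br G v v := lt_of_le_of_ne hvv (Ne.symm h0)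
    have h1 : br G (br G v v • u - br G u v • v) z = 0 := by
      rw [br_sub_left, br_smul_left, br_smul_left, hu, hv]; ring
    have h2 := h.pos' hz h1
    have h3 : br G (br G v v • u - br G u v • v) (br G v v • u - br G u v • v) =
        br G v v * (br G u u * br G v v - br G u v ^ 2) := by
      simp only [br_sub_left, br_sub_right, br_smul_left, br_smul_right]
      rw [h.bcomm v u]; ring
    rw [h3] at h2
    by_contra hcon
    push Not at hcon
    nlinarith

/-- the open cone is convex -/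
theorem cone_conv {G : M4} (h : Lat G) {O u v : R4} (hO : br G O O < 0) (hu : br G u u < 0)
    (huO : br G u O < 0) (hv : br G v v < 0) (hvO : br G v O < 0) {a b : ℝ} (ha : 0 ≤ a)
    (hb : 0 ≤ b) (hab : 0 < a + b) :
    br G (a • u + b • v) (a • u + b • v) < 0 ∧ br G (a • u + b • v) O < 0 := by
  have huv := h.sheet hO hu.le hv huO hvO
  have h1 : br G (a • u + b • v) (a • u + b • v) =
      a ^ 2 * br G u u + 2 * (a * b) * br G u v + b ^ 2 * br G v v := by
    simp only [br_add_left, br_add_right, br_smul_left, br_smul_right]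
    rw [h.bcomm v u]; ring
  have h2 : br G (a • u + b • v) O = a * br G u O + b * br G v O := by
    simp only [br_add_left, br_smul_left]
  have hab' : 0 ≤ a * b := mul_nonneg ha hb
  rcases ha.lt_or_eq with ha' | ha'
  · have e1 : a ^ 2 * br G u u < 0 := mul_neg_of_pos_of_neg (by positivity) hu
    have e2 : 2 * (a * b) * br G u v ≤ 0 :=
      mul_nonpos_of_nonneg_of_nonpos (by positivity) huv.le
    have e3 : b ^ 2 * br G v v ≤ 0 := mul_nonpos_of_nonneg_of_nonpos (by positivity) hv.le
    have e4 : a * br G u O < 0 := mul_neg_of_pos_of_neg ha' huO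
    have e5 : b * br G v O ≤ 0 := mul_nonpos_of_nonneg_of_nonpos hb hvO.le
    constructor
    · rw [h1]; linarith
    · rw [h2]; linarith
  · subst ha'
    have hb' : 0 < b := by linarith
    constructor
    · rw [h1]
      have := mul_neg_of_pos_of_neg (show 0 < b ^ 2 by positivity) hv
      linarith
    · rw [h2]
      have := mul_neg_of_pos_of_neg hb' hvO
      linarith

theorem cone_smul {G : M4} {O u : R4} (hu : br G u u < 0)
    (huO : br G u O < 0) {a : ℝ} (ha : 0 < a) :
    br G (a • u) (a • u) < 0 ∧ br G (a • u) O < 0 := by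
  rw [br_smul_left, br_smul_right, br_smul_left]
  constructor
  · have := mul_neg_of_pos_of_neg (show 0 < a * a by positivity) hu
    linarith
  · exact mul_neg_of_pos_of_neg ha huO

/-- CH0 -/
theorem locFin (hF : FinVecStmt) (hD : RootDvdStmt) : LocFinStmt := by
  intro G h O x hO hx hxO
  set a := -br G O O with ha
  set b := -br G x O with hb
  set c := -br G x x with hc
  set μ := min a (min b c) with hμ
  set M := max a b with hM
  have ha0 : 0 < a := by linarith
  have hb0 : 0 < b := by linarith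
  have hc0 : 0 < c := by linarith
  have hμ0 : 0 < μ := lt_min ha0 (lt_min hb0 hc0)
  have hM0 : 0 < M := lt_max_of_lt_left ha0
  set D := 2 * |(G.det : ℝ)| with hDdef
  have hD0 : 0 ≤ D := by positivity
  set B := M ^ 2 / μ * D with hB
  have hB0 : 0 ≤ B := by positivity
  refine Set.Finite.subset (hF G h O hO (max D (Real.sqrt B))) ?_
  rintro r ⟨hr, hOr, hxr⟩
  have hK := root_norm_le hD h hr
  refine ⟨hK.trans (le_max_left _ _), ?_⟩
  refine le_trans ?_ (le_max_right _ _)
  apply Real.abs_le_sqrt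
  set p := br G O (up r) with hp
  set q := br G x (up r) with hq
  have hqp : 0 < q - p := by linarith
  set t := -p / (q - p) with ht
  have ht0 : 0 < t := div_pos (by linarith) hqp
  have ht1 : t ≤ 1 := by rw [ht, div_le_one hqp]; linarith
  set z := (1 - t) • O + t • x with hz
  have hzr : br G z (up r) = 0 := by
    rw [hz, br_add_left, br_smul_left, br_smul_left]
    have : t * (q - p) = -p := by rw [ht]; field_simp
    linear_combination this
  have hzz : br G z z = -((1 - t) ^ 2 * a + 2 * (t * (1 - t)) * b + t ^ 2 * c) := by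
    rw [hz]
    simp only [br_add_left, br_add_right, br_smul_left, br_smul_right]
    rw [h.bcomm O x, ha, hb, hc]; ring
  have hzO : br G O z = -((1 - t) * a + t * b) := by
    rw [hz]
    simp only [br_add_right, br_smul_right]
    rw [h.bcomm O x, ha, hb]; ring
  have hμz : μ ≤ -br G z z := by
    rw [hzz, neg_neg]
    have e1 : μ ≤ a := min_le_left _ _
    have e2 : μ ≤ b := (min_le_right _ _).trans (min_le_left _ _)
    have e3 : μ ≤ c := (min_le_right _ _).trans (min_le_right _ _)
    have f1 : (1 - t) ^ 2 * μ ≤ (1 - t) ^ 2 * a := mul_le_mul_of_nonneg_left e1 (by positivity)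
    have f2 : 2 * (t * (1 - t)) * μ ≤ 2 * (t * (1 - t)) * b :=
      mul_le_mul_of_nonneg_left e2 (by
        have : 0 ≤ t * (1 - t) := mul_nonneg ht0.le (by linarith)
        linarith)
    have f3 : t ^ 2 * μ ≤ t ^ 2 * c := mul_le_mul_of_nonneg_left e3 (by positivity)
    have f4 : (1 - t) ^ 2 * μ + 2 * (t * (1 - t)) * μ + t ^ 2 * μ = μ := by ring
    linarith
  have hzneg : br G z z < 0 := by linarith
  have hOz2 : br G O z ^ 2 ≤ M ^ 2 := by
    rw [hzO, neg_sq]
    have e1 : a ≤ M := le_max_left _ _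
    have e2 : b ≤ M := le_max_right _ _
    have f1 : (1 - t) * a + t * b ≤ M := by nlinarith
    have f2 : 0 ≤ (1 - t) * a + t * b :=
      add_nonneg (mul_nonneg (by linarith) ha0.le) (mul_nonneg ht0.le hb0.le)
    exact pow_le_pow_left₀ f2 f1 2
  -- projection of O to z-perp
  set u := O - (br G O z / br G z z) • z with hu
  have huz : br G u z = 0 := by
    rw [hu, br_sub_left, br_smul_left]
    field_simp [hzneg.ne]
    ring
  have hur : br G u (up r) = p := by
    rw [hu, br_sub_left, br_smul_left, hzr]; ring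
  have huu : br G u u = br G O O + br G O z ^ 2 / (-br G z z) := by
    have e1 : br G u u = br G u O := by
      conv_lhs => rw [hu]
      rw [br_sub_left, br_smul_left, h.bcomm z u, huz, h.bcomm u O]; ring
    rw [e1, hu, br_sub_left, br_smul_left, h.bcomm z O]
    field_simp [hzneg.ne]
    ring
  have hcs := cs_perp h hzneg huz (by rw [h.bcomm]; exact hzr : br G (up r) z = 0)
  rw [hur, br_up] at hcs
  have huub : br G u u ≤ M ^ 2 / μ := by
    rw [huu]
    have e1 : br G O z ^ 2 / (-br G z z) ≤ M ^ 2 / μ :=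
      div_le_div₀ (by positivity) hOz2 hμ0 hμz
    linarith
  have hKpos : (0 : ℝ) ≤ bz G r r := by exact_mod_cast hr.pos.le
  calc p ^ 2 ≤ br G u u * (bz G r r : ℝ) := hcs
    _ ≤ M ^ 2 / μ * (bz G r r : ℝ) := mul_le_mul_of_nonneg_right huub hKpos
    _ ≤ M ^ 2 / μ * D := mul_le_mul_of_nonneg_left hK (by positivity)

theorem exists_pos_lower {α : Type*} {S : Set α} (hS : S.Finite) (f : α → ℝ)
    (hf : ∀ s ∈ S, 0 < f s) : ∃ c : ℝ, 0 < c ∧ c ≤ 1 ∧ ∀ s ∈ S, c ≤ f s := by
  by_cases hne : S.Nonempty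
  · obtain ⟨s0, hs0, hmin⟩ := Set.exists_min_image S f hS hne
    exact ⟨min (f s0) 1, lt_min (hf s0 hs0) one_pos, min_le_right _ _,
      fun s hs => (min_le_left _ _).trans (hmin s hs)⟩
  · rw [Set.not_nonempty_iff_eq_empty] at hne
    exact ⟨1, one_pos, le_rfl, by simp [hne]⟩

theorem rootBound (hF : FinVecStmt) (hD : RootDvdStmt) : RootBoundStmt := by
  intro G h O hO
  obtain ⟨c, hc, hcl⟩ := h.maj_lower hO.neg
  set D := 2 * |(G.det : ℝ)| with hDdef
  have hD0 : 0 ≤ D := by positivity
  have hfin := hF G h O hO.neg (max D 1)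
  obtain ⟨c0, hc0, hc01, hc0l⟩ := exists_pos_lower
    (S := {r : Z4 | IsRoot G r ∧ |br G O (up r)| ≤ 1}) (hfin.subset (by
      rintro r ⟨hr, hr1⟩
      exact ⟨(root_norm_le hD h hr).trans (le_max_left _ _), hr1.trans (le_max_right _ _)⟩))
    (fun r => |br G O (up r)|) (fun r hr => abs_pos.2 (hO.ne r hr.1))
  have hlow : ∀ r, IsRoot G r → c0 ≤ |br G O (up r)| := by
    intro r hr
    by_cases h1 : |br G O (up r)| ≤ 1
    · exact hc0l r ⟨hr, h1⟩
    · push Not at h1; linarith
  have ha0 : 0 < -br G O O := by linarith [hO.neg]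
  set B := D / c0 ^ 2 + 2 / (-br G O O) with hB
  have hB0 : 0 ≤ B := by positivity
  have hsum : ∀ r, IsRoot G r → ∑ i, (up r i) ^ 2 ≤ B / c * br G O (up r) ^ 2 := by
    intro r hr
    have h1 := hcl (up r)
    have h2 : maj G O (up r) ≤ B * br G O (up r) ^ 2 := by
      unfold maj
      rw [br_up, h.bcomm (up r) O]
      have h3 := root_norm_le hD h hr
      have h4 : D ≤ D / c0 ^ 2 * br G O (up r) ^ 2 := by
        have h5 : c0 ^ 2 ≤ br G O (up r) ^ 2 := by
          rw [← sq_abs (br G O (up r))]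
          exact pow_le_pow_left₀ hc0.le (hlow r hr) 2
        have h6 : D / c0 ^ 2 * c0 ^ 2 = D := by field_simp
        calc D = D / c0 ^ 2 * c0 ^ 2 := h6.symm
          _ ≤ D / c0 ^ 2 * br G O (up r) ^ 2 := mul_le_mul_of_nonneg_left h5 (by positivity)
      rw [hB, add_mul]
      have h7 : 2 * br G O (up r) ^ 2 / (-br G O O) = 2 / (-br G O O) * br G O (up r) ^ 2 := by
        ring
      rw [h7]
      linarith
    rw [div_mul_eq_mul_div, le_div_iff₀ hc]
    linarith
  set g := ∑ i, ∑ j, |(G i j : ℝ)| with hg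
  have hg0 : 0 ≤ g := Finset.sum_nonneg fun i _ => Finset.sum_nonneg fun j _ => abs_nonneg _
  refine ⟨g * Real.sqrt (B / c) + 1, by positivity, fun r hr x ε hx => ?_⟩
  have hε : 0 ≤ ε := (abs_nonneg _).trans (hx 0)
  have hri : ∀ j, |up r j| ≤ Real.sqrt (B / c) * |br G O (up r)| := by
    intro j
    have h1 : (up r j) ^ 2 ≤ B / c * br G O (up r) ^ 2 :=
      (Finset.single_le_sum (f := fun i => (up r i) ^ 2) (fun i _ => sq_nonneg _)
        (Finset.mem_univ j)).trans (hsum r hr)
    have h2 := Real.abs_le_sqrt h1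
    rwa [Real.sqrt_mul (by positivity), Real.sqrt_sq_eq_abs] at h2
  have h1 : |br G x (up r)| ≤ ∑ i, ∑ j, ε * |(G i j : ℝ)| * (Real.sqrt (B / c) * |br G O (up r)|) := by
    unfold br
    refine (Finset.abs_sum_le_sum_abs _ _).trans (Finset.sum_le_sum fun i _ => ?_)
    refine (Finset.abs_sum_le_sum_abs _ _).trans (Finset.sum_le_sum fun j _ => ?_)
    rw [abs_mul, abs_mul]
    have e1 : |x i| * |(G i j : ℝ)| ≤ ε * |(G i j : ℝ)| :=
      mul_le_mul_of_nonneg_right (hx i) (abs_nonneg _)
    exact mul_le_mul e1 (hri j) (abs_nonneg _) (by positivity)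
  have h2 : ∑ i, ∑ j, ε * |(G i j : ℝ)| * (Real.sqrt (B / c) * |br G O (up r)|) =
      g * Real.sqrt (B / c) * ε * |br G O (up r)| := by
    simp only [← Finset.sum_mul, ← Finset.mul_sum]
    rw [← hg]; ring
  rw [h2] at h1
  refine h1.trans ?_
  have h3 : 0 ≤ ε * |br G O (up r)| := by positivity
  nlinarith

/-- CH1a -/
theorem wallSimple : WallSimpleStmt := by
  intro G h O hO r r' hr hr' hne
  obtain ⟨hrp, z, hzz, hzO, hzr, hz⟩ := hr
  have hroot : IsRoot G ((reflU G r : M4).mulVec r') := hr'.root.map (reflU_mem_OG h hrp.root)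
  refine ⟨hroot, ?_⟩
  have hzv : br G z (up ((reflU G r : M4).mulVec r')) = br G z (up r') := by
    rw [reflU_mulVec hrp.root, up_sub, up_smul, br_sub_right, br_smul_right, hzr]; ring
  rcases lt_trichotomy (br G O (up ((reflU G r : M4).mulVec r'))) 0 with h1 | h1 | h1
  · exact h1
  · exact absurd h1 (hO.ne _ hroot)
  · exfalso
    have h2 : PR G O (-((reflU G r : M4).mulVec r')) := by
      refine ⟨hroot.neg, ?_⟩
      rw [up_neg, br_neg_right]; linarith
    have h3 : br G z (up (-((reflU G r : M4).mulVec r'))) ≤ 0 := by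
      by_cases h4 : -((reflU G r : M4).mulVec r') = r
      · rw [h4, hzr]
      · exact (hz _ h2 h4).le
    rw [up_neg, br_neg_right, hzv] at h3
    have h4 := hz r' hr' hne
    linarith

theorem prim_pm {r r' : Z4} (hr : Prim4 r) (hr' : Prim4 r') (hr0 : r ≠ 0) {a b : ℝ} (ha : a ≠ 0)
    (hab : a • up r = b • up r') : r = r' ∨ r = -r' := by
  have hb : b ≠ 0 := by
    rintro rfl
    rw [zero_smul] at hab
    rcases smul_eq_zero.1 hab with h1 | h1
    · exact ha h1
    · exact hr0 (up_eq_zero.1 h1)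
  obtain ⟨i, hi⟩ : ∃ i, r i ≠ 0 := by
    by_contra hh
    push Not at hh
    exact hr0 (funext hh)
  have hcomp : ∀ j, a * (r j : ℝ) = b * (r' j : ℝ) := by
    intro j
    have := congrFun hab j
    simpa [up] using this
  have hcross : ∀ j, r i * r' j = r' i * r j := by
    intro j
    have h1 := hcomp i
    have h2 := hcomp j
    have h3 : (a * b) * ((r i : ℝ) * r' j) = (a * b) * ((r' i : ℝ) * r j) := by
      linear_combination (b * (r' j : ℝ)) * h1 - (b * (r' i : ℝ)) * h2
    have h4 := mul_left_cancel₀ (mul_ne_zero ha hb) h3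
    exact_mod_cast h4
  have hd1 : r' i ∣ r i := prim_dvd hr' (fun j => ⟨r j, hcross j⟩)
  have hd2 : r i ∣ r' i := prim_dvd hr (fun j => ⟨r' j, (hcross j).symm⟩)
  rcases Int.associated_iff.1 (associated_of_dvd_dvd hd2 hd1) with h1 | h1
  · left
    funext j
    have := hcross j
    rw [← h1] at this
    exact (mul_left_cancel₀ hi this).symm
  · right
    funext j
    have h2 := hcross j
    rw [Pi.neg_apply]
    have h3 : r' i = -r i := by rw [h1]; ring
    rw [h3] at h2
    have h4 : r i * r' j = r i * (-r j) := by rw [h2]; ring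
    have h5 := mul_left_cancel₀ hi h4
    rw [h5]; ring

theorem PR.unique {G : M4} {O : R4} {r r' : Z4} (hr : PR G O r) (hr' : PR G O r') {a b : ℝ}
    (ha : a ≠ 0) (hab : a • up r = b • up r') : r = r' := by
  rcases prim_pm hr.root.prim hr'.root.prim hr.root.ne_zero ha hab with h1 | h1
  · exact h1
  · exfalso
    have h2 := hr.neg
    rw [h1, up_neg, br_neg_right] at h2
    linarith [hr'.neg]

/-- avoid countably many hyperplanes of the form `w^perp` -/
theorem avoid_br (hA : AvoidStmt) {G : M4} (h : Lat G) {ι : Type} [Countable ι] (w : ι → R4)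
    (hw : ∀ i, w i ≠ 0) (x0 : R4) {ε : ℝ} (hε : 0 < ε) :
    ∃ x : R4, (∀ i, |x i - x0 i| < ε) ∧ ∀ i, br G x (w i) ≠ 0 := by
  by_cases hι : Nonempty ι
  · obtain ⟨f, hf⟩ := exists_surjective_nat ι
    obtain ⟨x, hx, hne⟩ := hA (fun n => (G.map (Int.cast : ℤ → ℝ)).mulVec (w (f n))) x0 ε hε
      (fun n h0 => hw (f n) (h.nondeg (fun y => by
        rw [h.bcomm, br_eq_dot]
        change y ⬝ᵥ (G.map (Int.cast : ℤ → ℝ)).mulVec (w (f n)) = 0
        rw [h0, dotProduct_zero])))
    refine ⟨x, hx, fun i => ?_⟩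
    obtain ⟨n, rfl⟩ := hf i
    rw [br_eq_dot, dotProduct_comm]
    exact hne n
  · exact ⟨x0, fun i => by simpa using hε, fun i => absurd ⟨i⟩ hι⟩

end Pool.Agent.Refl.H84
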