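import Pool.Agent.Helper84_Refl.Cham1

/-!
# REFL, module CHAM1 part 2 (helper84): separation by walls, wall reflections generate
-/

set_option linter.all false

namespace Pool.Agent.Refl.H84

open Matrix

/-- the open conditions at a point persist nearby -/
theorem near_open {G : M4} {U : Set R4} (hU : IsOpen U) {y : R4} (hy : y ∈ U) :
    ∃ η : ℝ, 0 < η ∧ ∀ x : R4, (∀ i, |x i - y i| < η) → x ∈ U := by
  obtain ⟨η, hη, hb⟩ := Metric.isOpen_iff.1 hU y hy
  refine ⟨η, hη, fun x hx => hb ?_⟩
  rw [Metric.mem_ball, dist_pi_lt_iff hη]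
  intro i
  rw [Real.dist_eq]
  exact hx i

theorem wallSep (hA : AvoidStmt) (hF : FinVecStmt) (hD : RootDvdStmt) : WallSepStmt := by
  intro G h O hO y ρ hy hyO hρ hyρ
  obtain ⟨C, hC, hCb⟩ := rootBound hF hD G h O hO
  set P := br G y (up ρ) with hP
  set A := -br G O (up ρ) with hA'
  have hA0 : 0 < A := by linarith [hρ.neg]
  -- choose ε
  set ε := min (1 / 2) (P / (4 * A)) with hε
  have hε0 : 0 < ε := lt_min (by norm_num) (by positivity)
  have hε1 : ε ≤ 1 / 2 := min_le_left _ _
  have hε2 : ε * A ≤ P / 4 := by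
    have : ε ≤ P / (4 * A) := min_le_right _ _
    calc ε * A ≤ P / (4 * A) * A := mul_le_mul_of_nonneg_right this hA0.le
      _ = P / 4 := by field_simp
  set y1 := (1 - ε) • y + ε • O with hy1
  have hOO : br G O O < 0 := hO.neg
  have hc1 := cone_conv h hOO hy hyO hOO hOO (a := 1 - ε) (b := ε) (by linarith) hε0.le
    (by linarith)
  set U : Set R4 := {x | br G x x < 0} ∩ {x | br G x O < 0} with hU
  have hUo : IsOpen U :=
    (isOpen_lt (br_continuous_diag G) continuous_const).inter
      (isOpen_lt (br_continuous_left G O) continuous_const)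
  obtain ⟨η1, hη1, hη1b⟩ := near_open (G := G) hUo (show y1 ∈ U from hc1)
  set η := min η1 (ε / (2 * C)) with hη
  have hη0 : 0 < η := lt_min hη1 (by positivity)
  have hηC : C * η ≤ ε / 2 := by
    have : η ≤ ε / (2 * C) := min_le_right _ _
    calc C * η ≤ C * (ε / (2 * C)) := mul_le_mul_of_nonneg_left this hC.le
      _ = ε / 2 := by field_simp
  -- choose y2
  obtain ⟨y2, hy2n, hy2g⟩ := avoid_br hA h
    (ι := {p : Z4 × Z4 // br G O (up p.2) • up p.1 - br G O (up p.1) • up p.2 ≠ 0})
    (fun p => br G O (up p.1.2) • up p.1.1 - br G O (up p.1.1) • up p.1.2) (fun p => p.2) y1 hη0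
  have hy2U : y2 ∈ U := hη1b y2 fun i => (hy2n i).trans_le (min_le_left _ _)
  have hy2neg : br G y2 y2 < 0 := hy2U.1
  have hy2O : br G y2 O < 0 := hy2U.2
  have hval : ∀ r, PR G O r → |br G y2 (up r) - br G y1 (up r)| ≤ ε / 2 * (-br G O (up r)) := by
    intro r hr
    have h1 := hCb r hr.root (y2 - y1) η (fun i => (hy2n i).le)
    rw [br_sub_left] at h1
    refine h1.trans ?_
    rw [abs_of_neg hr.neg]
    exact mul_le_mul_of_nonneg_right hηC (by linarith [hr.neg])
  have hy1v : ∀ r : Z4, br G y1 (up r) = (1 - ε) * br G y (up r) + ε * br G O (up r) := by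
    intro r
    rw [hy1, br_add_left, br_smul_left, br_smul_left]
  -- key property
  have hkey : ∀ r, PR G O r → 0 ≤ br G y2 (up r) → 0 < br G y (up r) := by
    intro r hr hr0
    by_contra hcon
    push Not at hcon
    have h1 := hval r hr
    rw [abs_le, hy1v] at h1
    have h2 : (1 - ε) * br G y (up r) ≤ 0 :=
      mul_nonpos_of_nonneg_of_nonpos (by linarith) hcon
    have h3 : ε * br G O (up r) < 0 := mul_neg_of_pos_of_neg hε0 hr.neg
    linarith [h1.2]
  have hρ2 : 0 < br G y2 (up ρ) := by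
    have h1 := hval ρ hρ
    rw [abs_le, hy1v] at h1
    have h2 : (1 / 2) * P ≤ (1 - ε) * P := mul_le_mul_of_nonneg_right (by linarith) hyρ.le
    have h3 : ε / 2 * (-br G O (up ρ)) = ε * A / 2 := by rw [hA']; ring
    have h4 : ε * br G O (up ρ) = -(ε * A) := by rw [hA']; ring
    rw [h3, h4] at h1
    linarith [h1.1]
  -- the finite set
  set S : Set Z4 := {r | IsRoot G r ∧ br G O (up r) < 0 ∧ 0 ≤ br G y2 (up r)} with hS
  have hSf : S.Finite := locFin hF hD G h O y2 hOO hy2neg hy2O
  have hSne : S.Nonempty := ⟨ρ, hρ.root, hρ.neg, hρ2.le⟩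
  obtain ⟨r0, hr0S, hmin⟩ := Set.exists_min_image S
    (fun r => -br G O (up r) / (br G y2 (up r) - br G O (up r))) hSf hSne
  obtain ⟨hr0, hr0O, hr0y⟩ := hr0S
  have hPR0 : PR G O r0 := ⟨hr0, hr0O⟩
  set t := -br G O (up r0) / (br G y2 (up r0) - br G O (up r0)) with ht
  have hden : 0 < br G y2 (up r0) - br G O (up r0) := by linarith
  have ht0 : 0 < t := div_pos (by linarith) hden
  have ht1 : t ≤ 1 := by rw [ht, div_le_one hden]; linarith
  set z := (1 - t) • O + t • y2 with hz
  have hzc := cone_conv h hOO hOO hOO hy2neg hy2O (a := 1 - t) (b := t) (by linarith) ht0.le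
    (by linarith)
  have hzv : ∀ r : Z4, br G z (up r) =
      br G O (up r) + t * (br G y2 (up r) - br G O (up r)) := by
    intro r
    rw [hz, br_add_left, br_smul_left, br_smul_left]; ring
  have hteq : t * (br G y2 (up r0) - br G O (up r0)) = -br G O (up r0) := by
    rw [ht]; field_simp
  have hzr0 : br G z (up r0) = 0 := by
    rw [hzv, hteq]; ring
  refine ⟨r0, ⟨hPR0, z, hzc.1, hzc.2, hzr0, fun r' hr' hne => ?_⟩, hkey r0 hPR0 hr0y⟩
  rw [hzv]
  by_cases h2 : br G y2 (up r') < 0
  · have h3 : (1 - t) * br G O (up r') ≤ 0 :=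
      mul_nonpos_of_nonneg_of_nonpos (by linarith) hr'.neg.le
    have h4 : t * br G y2 (up r') < 0 := mul_neg_of_pos_of_neg ht0 h2
    have h5 : br G O (up r') + t * (br G y2 (up r') - br G O (up r')) =
        (1 - t) * br G O (up r') + t * br G y2 (up r') := by ring
    linarith
  · push Not at h2
    have h3 := hmin r' ⟨hr'.root, hr'.neg, h2⟩
    have hden' : 0 < br G y2 (up r') - br G O (up r') := by linarith [hr'.neg]
    have h4 : t * (br G y2 (up r') - br G O (up r')) ≤ -br G O (up r') := by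
      have : t ≤ -br G O (up r') / (br G y2 (up r') - br G O (up r')) := h3
      rwa [le_div_iff₀ hden'] at this
    rcases h4.lt_or_eq with h5 | h5
    · linarith
    · exfalso
      have hw : br G O (up r') • up r0 - br G O (up r0) • up r' ≠ 0 := by
        intro h6
        have h7 : br G O (up r') • up r0 = br G O (up r0) • up r' := sub_eq_zero.1 h6
        exact hne (PR.unique hPR0 hr' hr'.neg.ne h7).symm
      apply hy2g ⟨(r0, r'), hw⟩
      simp only
      rw [br_sub_right, br_smul_right, br_smul_right]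
      have h8 : t * (br G O (up r') * br G y2 (up r0) - br G O (up r0) * br G y2 (up r')) = 0 := by
        linear_combination (br G O (up r')) * hteq - (br G O (up r0)) * h5
      rcases mul_eq_zero.1 h8 with h9 | h9
      · exact absurd h9 ht0.ne'
      · exact h9

/-- generators preserve the sheets -/
theorem sheet_refl {G : M4} (h : Lat G) {O x : R4} {r : Z4} (hr : IsRoot G r)
    (hO : br G O O < 0) (hx : br G x x < 0) (hxO : br G x O < 0) :
    br G (act (reflU G r : M4) x) O < 0 := by
  have h1 : br G (act (reflU G r : M4) x) (act (reflU G r : M4) x) < 0 := by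
    rw [br_OG (reflU_mem_OG h hr)]; exact hx
  have hK := hr.pos_real
  have h2 : br G (act (reflU G r : M4) x) x < 0 := by
    rw [br_act_reflU hr, h.bcomm (up r) x]
    have : 0 ≤ 2 * br G x (up r) * br G x (up r) / br G (up r) (up r) := by
      rw [mul_assoc, ← sq]; positivity
    linarith
  exact h.sheet hx h1.le hO h2 (by rw [h.bcomm]; exact hxO)

theorem sheet : SheetStmt := by
  intro G h O x hO hx hxO g hg
  rw [Or_eq_closure h] at hg
  have key : ∀ g ∈ Subgroup.closure {g | ∃ r, IsRoot G r ∧ g = reflU G r}, g ∈ OG G ∧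
      ∀ x : R4, br G x x < 0 → br G x O < 0 → br G (act (g : M4) x) O < 0 := by
    intro g hg
    induction hg using Subgroup.closure_induction_left with
    | one => exact ⟨one_mem _, fun x _ hxO => by simpa using hxO⟩
    | mul_left a ha b hb ih =>
      obtain ⟨r, hr, rfl⟩ := ha
      refine ⟨mul_mem (reflU_mem_OG h hr) ih.1, fun x hx hxO => ?_⟩
      rw [Units.val_mul, act_mul]
      exact sheet_refl h hr hO (by rw [br_OG ih.1]; exact hx) (ih.2 x hx hxO)
    | inv_mul_cancel a ha b hb ih =>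
      obtain ⟨r, hr, rfl⟩ := ha
      rw [reflU_inv hr]
      refine ⟨mul_mem (reflU_mem_OG h hr) ih.1, fun x hx hxO => ?_⟩
      rw [Units.val_mul, act_mul]
      exact sheet_refl h hr hO (by rw [br_OG ih.1]; exact hx) (ih.2 x hx hxO)
  exact (key g hg).2 x hx hxO

/-- only finitely many isometries keep a given point near the base point -/
theorem fin_near (hG : FinGrpStmt) {G : M4} (h : Lat G) {O z : R4} (hO : br G O O < 0)
    (hz : br G z z < 0) (C : ℝ) :
    {g : M4ˣ | g ∈ OG G ∧ |br G (act (g : M4) z) O| ≤ C}.Finite := by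
  obtain ⟨c, hc, hcl⟩ := h.maj_lower hO
  have ha : 0 < -br G O O := by linarith
  set B := 2 * C ^ 2 / (-br G O O) / c with hB
  refine (hG G h z hz (Real.sqrt B)).subset ?_
  rintro g ⟨hg, hgC⟩
  refine ⟨hg, fun i => ?_⟩
  apply Real.abs_le_sqrt
  have h1 := hcl (act (g : M4) z)
  have h2 : maj G O (act (g : M4) z) ≤ 2 * C ^ 2 / (-br G O O) := by
    unfold maj
    rw [br_OG hg]
    have h3 : br G (act (g : M4) z) O ^ 2 ≤ C ^ 2 := by
      rw [← sq_abs]; exact pow_le_pow_left₀ (abs_nonneg _) hgC 2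
    have h4 : 2 * br G (act (g : M4) z) O ^ 2 / (-br G O O) ≤ 2 * C ^ 2 / (-br G O O) :=
      div_le_div_of_nonneg_right (by linarith) ha.le
    linarith
  have h3 : (act (g : M4) z i) ^ 2 ≤ ∑ i, (act (g : M4) z i) ^ 2 :=
    Finset.single_le_sum (f := fun i => (act (g : M4) z i) ^ 2) (fun i _ => sq_nonneg _)
      (Finset.mem_univ i)
  rw [hB, le_div_iff₀ hc]
  nlinarith

/-- CH2 -/
theorem wallGen (hA : AvoidStmt) (hF : FinVecStmt) (hD : RootDvdStmt) (hG : FinGrpStmt) :
    WallGenStmt := by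
  intro G h O hO
  set W' := Subgroup.closure {g | ∃ r, Wall G O r ∧ g = reflU G r} with hW'
  have hW'O : W' ≤ Or G := by
    rw [hW', Subgroup.closure_le]
    rintro g ⟨r, hr, rfl⟩
    exact reflU_mem_Or h hr.1.root
  apply le_antisymm _ hW'O
  rw [Or_eq_closure h, Subgroup.closure_le]
  rintro g ⟨ρ', hρ', rfl⟩
  -- WLOG ρ positive
  obtain ⟨ρ, hρ, hρρ'⟩ : ∃ ρ, PR G O ρ ∧ reflU G ρ' = reflU G ρ := by
    rcases lt_or_gt_of_ne (hO.ne ρ' hρ') with h1 | h1
    · exact ⟨ρ', ⟨hρ', h1⟩, rfl⟩
    · refine ⟨-ρ', ⟨hρ'.neg, ?_⟩, (reflU_neg hρ').symm⟩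
      rw [up_neg, br_neg_right]; linarith
  rw [hρρ']
  have hOO := hO.neg
  have hK := hρ.root.pos_real
  set K := br G (up ρ) (up ρ) with hKdef
  -- a point on the mirror
  set pr : R4 → R4 := fun x => x - (br G x (up ρ) / K) • up ρ with hpr
  have hprρ : ∀ x, br G (pr x) (up ρ) = 0 := by
    intro x
    simp only [hpr]
    rw [br_sub_left, br_smul_left, ← hKdef]
    field_simp; ring
  have hprr : ∀ x (r : Z4), br G (pr x) (up r) =
      br G x (up r - (br G (up ρ) (up r) / K) • up ρ) := by
    intro x r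
    simp only [hpr]
    rw [br_sub_left, br_smul_left, br_sub_right, br_smul_right]; ring
  set U : Set R4 := {x | br G (pr x) (pr x) < 0} ∩ {x | br G (pr x) O < 0} with hU
  have hprc : Continuous pr := by
    simp only [hpr]
    exact continuous_id.sub (((br_continuous_left G (up ρ)).div_const K).smul continuous_const)
  have hUo : IsOpen U :=
    (isOpen_lt ((br_continuous_diag G).comp hprc) continuous_const).inter
      (isOpen_lt ((br_continuous_left G O).comp hprc) continuous_const)
  have hOU : O ∈ U := by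
    have e1 : br G (pr O) (pr O) = br G (pr O) O := by
      conv_lhs => rw [show pr O = O - (br G O (up ρ) / K) • up ρ from rfl]
      rw [br_sub_left, br_smul_left, h.bcomm (up ρ), hprρ, h.bcomm O]; ring
    have e2 : br G (pr O) O = br G O O - br G O (up ρ) ^ 2 / K := by
      simp only [hpr]
      rw [br_sub_left, br_smul_left, h.bcomm (up ρ) O]; ring
    have e3 : br G (pr O) O < 0 := by
      rw [e2]
      have : 0 ≤ br G O (up ρ) ^ 2 / K := by positivity
      linarith
    exact ⟨by change br G (pr O) (pr O) < 0; rw [e1]; exact e3, e3⟩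
  obtain ⟨η, hη, hηb⟩ := near_open (G := G) hUo hOU
  obtain ⟨x, hxn, hxg⟩ := avoid_br hA h
    (ι := {r : Z4 // up r - (br G (up ρ) (up r) / K) • up ρ ≠ 0})
    (fun r => up r.1 - (br G (up ρ) (up r.1) / K) • up ρ) (fun r => r.2) O hη
  have hxU := hηb x hxn
  set z := pr x with hz
  have hzz : br G z z < 0 := hxU.1
  have hzO : br G z O < 0 := hxU.2
  have hzρ : br G z (up ρ) = 0 := hprρ x
  have hzne : ∀ r, IsRoot G r → r ≠ ρ → r ≠ -ρ → br G z (up r) ≠ 0 := by
    intro r hr h1 h2 h3
    rw [hz, hprr] at h3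
    refine hxg ⟨r, ?_⟩ h3
    intro h4
    have h5 : (1 : ℝ) • up r = (br G (up ρ) (up r) / K) • up ρ := by
      rw [one_smul]; exact sub_eq_zero.1 h4
    rcases prim_pm hr.prim hρ.root.prim hr.ne_zero one_ne_zero h5 with h6 | h6
    · exact h1 h6
    · exact h2 h6
  -- minimise
  set S : Set M4ˣ := {u | u ∈ W' ∧ |br G (act (u : M4) z) O| ≤ |br G z O|} with hS
  have hSf : S.Finite := (fin_near hG h hOO hzz (|br G z O|)).subset (by
    rintro u ⟨hu, hu2⟩
    exact ⟨Or_le_OG G (hW'O hu), hu2⟩)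
  have hSne : S.Nonempty := ⟨1, one_mem _, by simp⟩
  obtain ⟨u, ⟨huW, huS⟩, humin⟩ := Set.exists_min_image S
    (fun u => |br G (act (u : M4) z) O|) hSf hSne
  have huOr := hW'O huW
  have huOG := Or_le_OG G huOr
  have huz : br G (act (u : M4) z) (act (u : M4) z) < 0 := by rw [br_OG huOG]; exact hzz
  have huO : br G (act (u : M4) z) O < 0 := sheet G h O z hOO hzz hzO u huOr
  have hK' : ∀ r, PR G O r → br G (act (u : M4) z) (up r) ≤ 0 := by
    intro r hr
    by_contra hcon
    push Not at hcon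
    obtain ⟨s, hs, hs2⟩ := wallSep hA hF hD G h O hO _ r huz huO hr hcon
    have hsW : reflU G s ∈ W' := Subgroup.subset_closure ⟨s, hs, rfl⟩
    have h1 : br G (act ((reflU G s * u : M4ˣ) : M4) z) O = br G (act (u : M4) z) O -
        2 * br G (act (u : M4) z) (up s) * br G (up s) O / br G (up s) (up s) := by
      rw [Units.val_mul, act_mul, br_act_reflU hs.1.root]
    have h2 : br G (act ((reflU G s * u : M4ˣ) : M4) z) O < 0 :=
      sheet G h O z hOO hzz hzO _ (hW'O (mul_mem hsW huW))
    have h3 : 2 * br G (act (u : M4) z) (up s) * br G (up s) O / br G (up s) (up s) < 0 := by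
      apply div_neg_of_neg_of_pos _ hs.1.root.pos_real
      apply mul_neg_of_pos_of_neg (by linarith)
      rw [h.bcomm]; exact hs.1.neg
    have h4 : |br G (act ((reflU G s * u : M4ˣ) : M4) z) O| < |br G (act (u : M4) z) O| := by
      rw [abs_of_neg h2, abs_of_neg huO]; linarith
    have h5 := humin (reflU G s * u) ⟨mul_mem hsW huW, h4.le.trans huS⟩
    exact absurd h4 (not_lt.2 h5)
  -- the wall
  have hroot := hρ.root.map huOG
  obtain ⟨σ, hσ, hσρ⟩ : ∃ σ, PR G O σ ∧ (σ = (u : M4).mulVec ρ ∨ σ = -(u : M4).mulVec ρ) := by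
    rcases lt_or_gt_of_ne (hO.ne _ hroot) with h1 | h1
    · exact ⟨_, ⟨hroot, h1⟩, Or.inl rfl⟩
    · refine ⟨-(u : M4).mulVec ρ, ⟨hroot.neg, ?_⟩, Or.inr rfl⟩
      rw [up_neg, br_neg_right]; linarith
  have hval : br G (act (u : M4) z) (up ((u : M4).mulVec ρ)) = 0 := by
    rw [← act_up, br_OG huOG, hzρ]
  have hσW : Wall G O σ := by
    refine ⟨hσ, act (u : M4) z, huz, huO, ?_, fun r' hr' hne => ?_⟩
    · rcases hσρ with rfl | rfl
      · exact hval
      · rw [up_neg, br_neg_right, hval, neg_zero]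
    · refine lt_of_le_of_ne (hK' r' hr') ?_
      intro h1
      have h2 : up r' = act (u : M4) (up (((u⁻¹ : M4ˣ) : M4).mulVec r')) := by
        rw [act_up, mulVec_inv']
      rw [h2, br_OG huOG] at h1
      have hr'2 : IsRoot G (((u⁻¹ : M4ˣ) : M4).mulVec r') := hr'.root.map (inv_mem huOG)
      have hne1 : ((u⁻¹ : M4ˣ) : M4).mulVec r' ≠ ρ := by
        intro h3
        have h4 : r' = (u : M4).mulVec ρ := by rw [← h3, mulVec_inv']
        rcases hσρ with h5 | h5
        · exact hne (h4.trans h5.symm)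
        · have h6 := hσ.neg
          rw [h5, ← h4, up_neg, br_neg_right] at h6
          linarith [hr'.neg]
      have hne2 : ((u⁻¹ : M4ˣ) : M4).mulVec r' ≠ -ρ := by
        intro h3
        have h4 : r' = -(u : M4).mulVec ρ := by
          rw [← Matrix.mulVec_neg, ← h3, mulVec_inv']
        rcases hσρ with h5 | h5
        · have h6 := hσ.neg
          have h7 : σ = -r' := by rw [h4, neg_neg]; exact h5
          rw [h7, up_neg, br_neg_right] at h6
          linarith [hr'.neg]
        · exact hne (h4.trans h5.symm)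
      exact hzne _ hr'2 hne1 hne2 h1
  have hσin : reflU G σ ∈ W' := Subgroup.subset_closure ⟨σ, hσW, rfl⟩
  have hσeq : reflU G σ = u * reflU G ρ * u⁻¹ := by
    rcases hσρ with rfl | rfl
    · exact reflU_conj hρ.root huOG
    · rw [reflU_neg hroot]; exact reflU_conj hρ.root huOG
  have h1 : reflU G ρ = u⁻¹ * reflU G σ * u := by rw [hσeq]; group
  change reflU G ρ ∈ W'
  rw [h1]
  exact mul_mem (mul_mem (inv_mem huW) hσin) huW

end Pool.Agent.Refl.H84
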