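import Pool.Agent.Helper84_Refl.CocSpan

/-!
# REFL, module COC (helper84): cocompactness of `O(L)` for anisotropic lattices
-/

set_option linter.all false

namespace Pool.Agent.Refl.H84

open Matrix MeasureTheory

/-- the `j`-th column -/
def cl (V : M4) (j : Fin 4) : Z4 := V.mulVec (Pi.single j 1)

theorem cl_apply (V : M4) (i j : Fin 4) : cl V j i = V i j := by
  simp [cl]

theorem exists_basis {G : M4} (h : Lat G) : ∃ R : ℝ, 1 ≤ R ∧ ∀ x : R4, br G x x = -1 →
    ∃ V : M4, V.det ≠ 0 ∧ ∀ j, maj G x (up (cl V j)) ≤ R := by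
  obtain ⟨R, hR1, hR⟩ := span_top h
  refine ⟨R, hR1, fun x hx => ?_⟩
  have hspan := hR x hx
  set S : Set R4 := {w : R4 | ∃ v : Z4, up v = w ∧ maj G x w ≤ R} with hS
  have hfin : Module.finrank ℝ (Submodule.span ℝ S) = 4 := by
    rw [hspan, finrank_top]
    simp
  obtain ⟨f, hf, hl⟩ : ∃ f : Fin 4 → R4, (∀ i, f i ∈ S) ∧ LinearIndependent ℝ f := by
    have h1 := Submodule.exists_fun_fin_finrank_span_eq ℝ S
    rw [hfin] at h1
    obtain ⟨f, hf, _, hl⟩ := h1
    exact ⟨f, hf, hl⟩
  choose v hv hvR using hf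
  set V : M4 := Matrix.of fun i j => v j i with hV
  have hcl : ∀ j, cl V j = v j := by
    intro j
    funext i
    rw [cl_apply]
    rfl
  refine ⟨V, ?_, fun j => ?_⟩
  · intro h0
    have h1 : (V.map (Int.cast : ℤ → ℝ)).det = 0 := by
      rw [show (V.map (Int.cast : ℤ → ℝ)).det = (V.det : ℝ) from
        ((Int.castRingHom ℝ).map_det V).symm, h0]
      simp
    have h2 : LinearIndependent ℝ (V.map (Int.cast : ℤ → ℝ)).col := by
      have : (V.map (Int.cast : ℤ → ℝ)).col = f := by
        funext j i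
        rw [← hv j]
        rfl
      rw [this]; exact hl
    rw [Matrix.linearIndependent_cols_iff_isUnit, Matrix.isUnit_iff_isUnit_det] at h2
    exact h2.ne_zero h1
  · rw [hcl, hv]; exact hvR j

theorem maj_polar {G : M4} (h : Lat G) {x : R4} (hx : br G x x < 0) (a b : R4) :
    maj G x (a + b) ≤ 2 * maj G x a + 2 * maj G x b := by
  have h1 := maj_nonneg h hx (a - b)
  have h2 : maj G x (a + b) + maj G x (a - b) = 2 * maj G x a + 2 * maj G x b := by
    unfold maj
    simp only [br_add_left, br_add_right, br_sub_left, br_sub_right]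
    ring
  linarith

theorem gram_bound {G : M4} (h : Lat G) {x : R4} (hx : br G x x = -1) {R : ℝ} {a b : Z4}
    (ha : maj G x (up a) ≤ R) (hb : maj G x (up b) ≤ R) : |(bz G a b : ℝ)| ≤ 3 * R := by
  have hneg : br G x x < 0 := by rw [hx]; norm_num
  have h1 := abs_le_br h (x := up a) hneg
  have h2 := abs_le_br h (x := up b) hneg
  have h3 := abs_le_br h (x := up a + up b) hneg
  have h4 := maj_polar h hneg (up a) (up b)
  have h5 : br G (up a + up b) (up a + up b) =
      br G (up a) (up a) + br G (up b) (up b) + 2 * br G (up a) (up b) := by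
    simp only [br_add_left, br_add_right]
    rw [h.bcomm (up b) (up a)]; ring
  rw [← br_up]
  rw [abs_le] at *
  constructor <;> linarith [h1.1, h1.2, h2.1, h2.2, h3.1, h3.2]

theorem coord_bound {G : M4} (h : Lat G) {x : R4} (hx : br G x x = -1) {R : ℝ} {a : R4}
    (ha : maj G x a ≤ R) : br G x a ^ 2 ≤ R := by
  have hneg : br G x x < 0 := by rw [hx]; norm_num
  have h1 := h.rcs hneg a
  unfold maj at ha
  rw [hx] at ha h1
  rw [h.bcomm a x] at ha
  linarith

/-- algebraic step: equal keys give an isometry -/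
theorem exists_isom {G : M4} {V V0 Z : M4} {δ : ℤ} (hδ : δ ≠ 0) (hV : V.det = δ)
    (hV0 : V0.det = δ) (hZ : V0 = V + δ • Z) (hG : V.transpose * G * V = V0.transpose * G * V0) :
    ∃ g ∈ OG G, (g : M4) * V = V0 := by
  set g : M4 := 1 + Z * V.adjugate with hg
  have hgV : g * V = V0 := by
    rw [hg, Matrix.add_mul, Matrix.one_mul, Matrix.mul_assoc, Matrix.adjugate_mul, hV, hZ,
      Matrix.mul_smul, Matrix.mul_one]
  have hdet : g.det = 1 := by
    have h1 := congrArg Matrix.det hgV
    rw [Matrix.det_mul, hV, hV0] at h1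
    exact mul_right_cancel₀ hδ (by rw [h1, one_mul])
  have hunit : IsUnit g := by
    rw [Matrix.isUnit_iff_isUnit_det, hdet]; exact isUnit_one
  refine ⟨hunit.unit, ?_, ?_⟩
  · rw [mem_OG]
    change g.transpose * G * g = G
    have h1 : V.transpose * (g.transpose * G * g) * V = V.transpose * G * V := by
      rw [hG, ← hgV, Matrix.transpose_mul]
      simp only [Matrix.mul_assoc]
    have h2 : V.adjugate.transpose * (V.transpose * (g.transpose * G * g) * V) * V.adjugate =
        V.adjugate.transpose * (V.transpose * G * V) * V.adjugate := by rw [h1]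
    have h3 : ∀ X : M4, V.adjugate.transpose * (V.transpose * X * V) * V.adjugate =
        (δ * δ) • X := by
      intro X
      have e1 : V.adjugate.transpose * V.transpose = δ • (1 : M4) := by
        rw [← Matrix.transpose_mul, Matrix.mul_adjugate, hV]; simp
      have e2 : V * V.adjugate = δ • (1 : M4) := by rw [Matrix.mul_adjugate, hV]
      calc V.adjugate.transpose * (V.transpose * X * V) * V.adjugate
          = (V.adjugate.transpose * V.transpose) * X * (V * V.adjugate) := by
            simp only [Matrix.mul_assoc]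
        _ = (δ * δ) • X := by
            rw [e1, e2, Matrix.smul_mul, Matrix.one_mul, Matrix.mul_smul, Matrix.mul_one,
              smul_smul]
    rw [h3, h3] at h2
    have h4 : δ * δ ≠ 0 := mul_ne_zero hδ hδ
    exact smul_right_injective _ h4 h2
  · change g * V = V0
    exact hgV

theorem exists_congr {V V0 : M4} {δ : ℤ}
    (hmod : ∀ i j, V i j % δ = V0 i j % δ) : ∃ Z : M4, V0 = V + δ • Z := by
  have h1 : ∀ i j, δ ∣ V0 i j - V i j := fun i j => (Int.ModEq.dvd (hmod i j))
  choose Z hZ using h1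
  refine ⟨Matrix.of Z, ?_⟩
  ext i j
  simp only [Matrix.add_apply, Matrix.smul_apply, Matrix.of_apply, smul_eq_mul]
  linarith [hZ i j]

theorem finite_mat (N : ℤ) : {A : M4 | ∀ i j, |A i j| ≤ N}.Finite := by
  have h1 : (Set.pi Set.univ fun _ : Fin 4 => Set.pi Set.univ fun _ : Fin 4 =>
      Set.Icc (-N) N).Finite := Set.Finite.pi fun _ => Set.Finite.pi fun _ => Set.finite_Icc _ _
  refine Set.Finite.subset h1 ?_
  intro A hA i _ j _
  have := hA i j
  rw [abs_le] at this
  exact this

theorem key_bound {G : M4} (h : Lat G) (R : ℝ) (k : M4 × M4 × ℤ) : ∃ C : ℝ, ∀ (V : M4) (x : R4),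
    V.det ≠ 0 → (V.transpose * G * V, Matrix.of (fun i j => V i j % V.det), V.det) = k →
    (∀ j, br G x (up (cl V j)) ^ 2 ≤ R) → ∃ g ∈ OG G, ∀ i, |act (g : M4) x i| ≤ C := by
  by_cases hk : ∃ V0 : M4, V0.det ≠ 0 ∧
      (V0.transpose * G * V0, Matrix.of (fun i j => V0 i j % V0.det), V0.det) = k
  · obtain ⟨V0, hd0, rfl⟩ := hk
    set W : Matrix (Fin 4) (Fin 4) ℝ := (V0.transpose * G).map (Int.cast : ℤ → ℝ) with hW
    have hWd : IsUnit W.det := by
      have h1 : W.det = ((V0.transpose * G).det : ℝ) := ((Int.castRingHom ℝ).map_det _).symm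
      rw [h1, isUnit_iff_ne_zero, Matrix.det_mul, Matrix.det_transpose]
      exact_mod_cast mul_ne_zero hd0 h.det_ne
    refine ⟨∑ i, ∑ j, |W⁻¹ i j| * Real.sqrt R, fun V x hVd hkey hb => ?_⟩
    simp only [Prod.mk.injEq] at hkey
    obtain ⟨hG, hmod, hdet⟩ := hkey
    obtain ⟨Z, hZ⟩ := exists_congr (V := V) (V0 := V0) (δ := V.det) (fun i j => by
      have h1 := congrFun (congrFun hmod i) j
      simp only [Matrix.of_apply] at h1
      rw [h1, hdet])
    obtain ⟨g, hg, hgV⟩ := exists_isom hVd rfl hdet.symm hZ hG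
    refine ⟨g, hg, fun i => ?_⟩
    set y := act (g : M4) x with hy
    have hb' : ∀ j, |W.mulVec y j| ≤ Real.sqrt R := by
      intro j
      have h1 : br G y (up (cl V0 j)) = br G x (up (cl V j)) := by
        rw [hy, ← br_OG hg x, act_up]
        congr 2
        rw [cl, cl, Matrix.mulVec_mulVec, hgV]
      have h2 : W.mulVec y j = br G (up (cl V0 j)) y := by
        rw [br_eq_dot]
        have h3 : (V0.transpose * G).map (Int.cast : ℤ → ℝ) =
            V0.transpose.map (Int.cast : ℤ → ℝ) * G.map (Int.cast : ℤ → ℝ) :=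
          Matrix.map_mul (f := Int.castRingHom ℝ)
        rw [hW, h3, ← Matrix.mulVec_mulVec]
        simp only [mulVec, dotProduct, Matrix.map_apply, Matrix.transpose_apply, up, cl_apply]
      rw [h2, h.bcomm, h1]
      apply Real.abs_le_sqrt
      exact hb j
    have h4 : y = W⁻¹.mulVec (W.mulVec y) := by
      rw [Matrix.mulVec_mulVec, Matrix.nonsing_inv_mul _ hWd, Matrix.one_mulVec]
    have h5 : |y i| ≤ ∑ j, |W⁻¹ i j| * Real.sqrt R := by
      rw [h4]
      change |∑ j, W⁻¹ i j * W.mulVec y j| ≤ _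
      refine (Finset.abs_sum_le_sum_abs _ _).trans (Finset.sum_le_sum fun j _ => ?_)
      rw [abs_mul]
      exact mul_le_mul_of_nonneg_left (hb' j) (abs_nonneg _)
    refine h5.trans ?_
    exact Finset.single_le_sum (f := fun i => ∑ j, |W⁻¹ i j| * Real.sqrt R)
      (fun i _ => Finset.sum_nonneg fun j _ => mul_nonneg (abs_nonneg _) (Real.sqrt_nonneg _))
      (Finset.mem_univ i)
  · exact ⟨0, fun V x hVd hkey _ => absurd ⟨V, hVd, hkey⟩ hk⟩

/-- cocompactness of the orthogonal group of an anisotropic lattice -/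
theorem coc : CocStmt := by
  intro G h
  obtain ⟨R, hR1, hR⟩ := exists_basis h
  choose C hC using key_bound h R
  obtain ⟨N, hN⟩ := exists_nat_ge (3 * R)
  -- bound for determinants
  obtain ⟨Δ, hΔ⟩ : ∃ Δ : ℤ, ∀ A : M4, (∀ i j, |A i j| ≤ (N : ℤ)) → |A.det| ≤ Δ := by
    have hf := (finite_mat (N : ℤ)).image (fun A : M4 => |A.det|)
    obtain ⟨Δ, hΔ⟩ := hf.bddAbove
    exact ⟨Δ, fun A hA => hΔ ⟨A, hA, rfl⟩⟩
  set K : Set (M4 × M4 × ℤ) := {A : M4 | ∀ i j, |A i j| ≤ (N : ℤ)} ×ˢ
    ({A : M4 | ∀ i j, |A i j| ≤ Δ} ×ˢ Set.Icc (-Δ) Δ) with hK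
  have hKf : K.Finite := (finite_mat _).prod ((finite_mat _).prod (Set.finite_Icc _ _))
  have hfin : (C '' K).Finite := hKf.image C
  obtain ⟨M, hM⟩ := hfin.bddAbove
  refine ⟨M, fun x hx => ?_⟩
  obtain ⟨V, hVd, hVR⟩ := hR x hx
  have hgram : ∀ i j, |(V.transpose * G * V) i j| ≤ (N : ℤ) := by
    intro i j
    have h1 : (V.transpose * G * V) i j = bz G (cl V i) (cl V j) := by
      have e1 := bz_single (V.transpose * G * V) i j
      rw [bz_conj] at e1
      exact e1.symm
    rw [h1]
    have h2 := gram_bound h hx (hVR i) (hVR j)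
    have h3 : |(bz G (cl V i) (cl V j) : ℝ)| ≤ (N : ℝ) := h2.trans hN
    exact_mod_cast h3
  have hdetb : |V.det| ≤ Δ := by
    have h1 := hΔ _ hgram
    rw [Matrix.det_mul, Matrix.det_mul, Matrix.det_transpose, abs_mul, abs_mul] at h1
    have h2 : 1 ≤ |V.det| := Int.one_le_abs hVd
    have h3 : 1 ≤ |G.det| := Int.one_le_abs h.det_ne
    have h4 : |V.det| ≤ |V.det| * |G.det| * |V.det| := by
      have e1 : 1 ≤ |V.det| * |G.det| := by nlinarith
      nlinarith
    exact h4.trans h1
  have hkK : (V.transpose * G * V, Matrix.of (fun i j => V i j % V.det), V.det) ∈ K := by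
    refine ⟨hgram, ?_, ?_⟩
    · intro i j
      simp only [Matrix.of_apply]
      have h1 := Int.emod_nonneg (V i j) hVd
      have h2 := Int.emod_lt_abs (V i j) hVd
      rw [abs_of_nonneg h1]
      linarith
    · rw [abs_le] at hdetb
      exact hdetb
  obtain ⟨g, hg, hgb⟩ := hC _ V x hVd rfl (fun j => coord_bound h hx (hVR j))
  refine ⟨g, hg, fun i => (hgb i).trans ?_⟩
  exact hM ⟨_, hkK, rfl⟩

end Pool.Agent.Refl.H84
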