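import Pool.Agent.Helper84_Refl.Cham1b
import Pool.Agent.Helper84_Refl.Coc
import Pool.Agent.Helper3_Refl.Cham2

/-!
# REFL, module CHAM3 (helper84): compact chambers of reflective lattices
-/

set_option linter.all false

namespace Pool.Agent.Refl.H84

open Matrix Pool.Agent.Refl Filter Topology

theorem act_apply (g : M4) (x : R4) (i : Fin 4) : act g x i = ∑ j, (g i j : ℝ) * x j := by
  simp [act, Matrix.mulVec, dotProduct]

/-- cocompactness of the reflection group -/
theorem coc_refl (hC : CocStmt) {G : M4} (h : Lat G) (hR : Reflective G) :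
    ∃ C : ℝ, 0 ≤ C ∧ ∀ x : R4, br G x x = -1 → ∃ w ∈ Or G, ∀ i, |act (w : M4) x i| ≤ C := by
  obtain ⟨C, hC⟩ := hC G h
  let H : Subgroup (OG G) := (Or G).subgroupOf (OG G)
  haveI : H.FiniteIndex := ⟨hR⟩
  haveI : Finite (OG G ⧸ H) := Subgroup.finite_quotient_of_finiteIndex
  obtain ⟨M, hM⟩ := (Set.finite_range (fun p : (OG G ⧸ H) × Fin 4 × Fin 4 =>
    |((((p.1.out : OG G) : M4ˣ)⁻¹ : M4ˣ) : M4) p.2.1 p.2.2|)).bddAbove
  have hM' : ∀ (q : OG G ⧸ H) (i j : Fin 4),
      |((((q.out : OG G) : M4ˣ)⁻¹ : M4ˣ) : M4) i j| ≤ M := fun q i j => hM ⟨(q, i, j), rfl⟩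
  refine ⟨4 * (|(M : ℝ)| * |C|), by positivity, fun x hx => ?_⟩
  obtain ⟨g, hg, hgx⟩ := hC x hx
  obtain ⟨k, hk⟩ := QuotientGroup.mk_out_eq_mul H ⟨g, hg⟩
  set f : OG G := (QuotientGroup.mk (⟨g, hg⟩ : OG G) : OG G ⧸ H).out with hf
  have hkO : ((k : OG G) : M4ˣ) ∈ Or G := Subgroup.mem_subgroupOf.1 k.2
  have hfg : (f : M4ˣ)⁻¹ * g = (((k : OG G) : M4ˣ))⁻¹ := by
    have h1 : (f : M4ˣ) = g * ((k : OG G) : M4ˣ) := congrArg (fun a : OG G => (a : M4ˣ)) hk
    rw [h1]; group
  refine ⟨(((k : OG G) : M4ˣ))⁻¹, inv_mem hkO, fun i => ?_⟩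
  rw [← hfg, Units.val_mul, act_mul, act_apply]
  have h2 : ∀ j, |(((((f : M4ˣ)⁻¹ : M4ˣ) : M4) i j : ℤ) : ℝ) * act (g : M4) x j| ≤
      |(M : ℝ)| * |C| := by
    intro j
    rw [abs_mul]
    refine mul_le_mul ?_ ((hgx j).trans (le_abs_self _)) (abs_nonneg _) (abs_nonneg _)
    have h3 := hM' (QuotientGroup.mk (⟨g, hg⟩ : OG G)) i j
    have h4 : |(((((f : M4ˣ)⁻¹ : M4ˣ) : M4) i j : ℤ) : ℝ)| ≤ (M : ℝ) := by exact_mod_cast h3
    exact h4.trans (le_abs_self _)
  calc |∑ j, (((((f : M4ˣ)⁻¹ : M4ˣ) : M4) i j : ℤ) : ℝ) * act (g : M4) x j|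
      ≤ ∑ j, |(((((f : M4ˣ)⁻¹ : M4ˣ) : M4) i j : ℤ) : ℝ) * act (g : M4) x j| :=
        Finset.abs_sum_le_sum_abs _ _
    _ ≤ ∑ j : Fin 4, |(M : ℝ)| * |C| := Finset.sum_le_sum fun j _ => h2 j
    _ = 4 * (|(M : ℝ)| * |C|) := by simp

/-- the base point is the closest point of its orbit -/
theorem min_int (hG : FinGrpStmt) (hT : TitsStmt) {G : M4} (h : Lat G) {O : R4} (hO : Gen G O)
    {x : R4} (hx : br G x x < 0) (hxO : br G x O < 0)
    (hint : ∀ r, PR G O r → br G x (up r) < 0) (w : M4ˣ) (hw : w ∈ Or G) :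
    -br G x O ≤ -br G x (act (w : M4) O) := by
  set f : M4ˣ → ℝ := fun g => -br G x (act (g : M4) O) with hf
  have hf1 : f 1 = -br G x O := by
    have : act ((1 : M4ˣ) : M4) O = O := by
      funext i
      rw [act_apply]
      simp [Matrix.one_apply]
    simp only [hf, this]
  have hsh : ∀ g ∈ Or G, br G (act (g : M4) O) x < 0 := fun g hg =>
    sheet G h x O hx hO.neg (by rw [h.bcomm]; exact hxO) g hg
  set S : Set M4ˣ := {g | g ∈ Or G ∧ f g ≤ f 1} with hS
  have hfin : S.Finite := by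
    refine (fin_near hG h hx hO.neg (f 1)).subset ?_
    rintro g ⟨hg, hgf⟩
    refine ⟨Or_le_OG G hg, ?_⟩
    rw [abs_of_neg (hsh g hg), h.bcomm]
    exact hgf
  obtain ⟨w0, hw0, hmin⟩ := Set.exists_min_image S f hfin ⟨1, one_mem _, le_rfl⟩
  have hK : act (w0 : M4) O ∈ KC G O := by
    intro ρ hρ
    by_contra hcon
    push Not at hcon
    have hR := hρ.root
    have hm : reflU G ρ * w0 ∈ Or G := mul_mem (reflU_mem_Or h hR) hw0.1
    have hlt : f (reflU G ρ * w0) < f w0 := by
      simp only [hf]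
      rw [Units.val_mul, act_mul, h.bcomm x, br_act_reflU hR, h.bcomm x, h.bcomm (up ρ) x]
      have h1 : 0 < -(2 * br G (act (w0 : M4) O) (up ρ) * br G x (up ρ) /
          br G (up ρ) (up ρ)) := by
        rw [← neg_div]
        refine div_pos ?_ hR.pos_real
        have := mul_pos_of_neg_of_neg (hint ρ hρ) (neg_lt_zero.2 hcon)
        nlinarith
      linarith
    exact absurd (hmin _ ⟨hm, hlt.le.trans hw0.2⟩) (not_le.2 hlt)
  have h1 := hT G h O hO w0 hw0.1 hK
  subst h1
  rw [← hf1]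
  by_cases hw' : f w ≤ f 1
  · exact hmin w ⟨hw, hw'⟩
  · push Not at hw'
    exact hw'.le

/-- the chamber is bounded, interior points -/
theorem bound_int (hG : FinGrpStmt) (hT : TitsStmt) (hC : CocStmt) {G : M4} (h : Lat G)
    (hR : Reflective G) {O : R4} (hO : Gen G O) :
    ∃ c : ℝ, 0 < c ∧ ∀ x : R4, br G x x < 0 → br G x O < 0 →
      (∀ r, PR G O r → br G x (up r) < 0) → br G x x ≤ -c * br G x O ^ 2 := by
  obtain ⟨C, hC0, hCb⟩ := coc_refl hC h hR
  set B : ℝ := ∑ i, ∑ j, C * |(G i j : ℝ)| * |O j| + 1 with hB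
  have hB0 : 0 < B := by positivity
  have hBb : ∀ y : R4, (∀ i, |y i| ≤ C) → |br G y O| ≤ B := by
    intro y hy
    have h1 : |br G y O| ≤ ∑ i, ∑ j, C * |(G i j : ℝ)| * |O j| := by
      unfold br
      refine (Finset.abs_sum_le_sum_abs _ _).trans (Finset.sum_le_sum fun i _ => ?_)
      refine (Finset.abs_sum_le_sum_abs _ _).trans (Finset.sum_le_sum fun j _ => ?_)
      rw [abs_mul, abs_mul]
      exact mul_le_mul_of_nonneg_right (mul_le_mul_of_nonneg_right (hy i) (abs_nonneg _))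
        (abs_nonneg _)
    linarith
  refine ⟨1 / B ^ 2, by positivity, fun x hx hxO hint => ?_⟩
  set s := Real.sqrt (-br G x x) with hs
  have hs0 : 0 < s := Real.sqrt_pos.2 (by linarith)
  have hs2 : s ^ 2 = -br G x x := Real.sq_sqrt (by linarith)
  have hx1 : br G (s⁻¹ • x) (s⁻¹ • x) = -1 := by
    rw [br_smul_left, br_smul_right]
    have : br G x x = -s ^ 2 := by linarith
    rw [this]
    field_simp
  obtain ⟨w, hw, hwb⟩ := hCb _ hx1
  have h1 := min_int hG hT h hO (x := s⁻¹ • x) (by rw [hx1]; norm_num)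
    (by rw [br_smul_left]; exact mul_neg_of_pos_of_neg (inv_pos.2 hs0) hxO)
    (fun r hr => by
      rw [br_smul_left]; exact mul_neg_of_pos_of_neg (inv_pos.2 hs0) (hint r hr)) w⁻¹ (inv_mem hw)
  rw [← br_OG_left (Or_le_OG G hw)] at h1
  have h2 := hBb _ hwb
  have h3 : -br G (s⁻¹ • x) O ≤ B := h1.trans ((neg_le_abs _).trans h2)
  rw [br_smul_left] at h3
  have h4 : -br G x O ≤ B * s := by
    have h5 := mul_le_mul_of_nonneg_right h3 hs0.le
    have h6 : -(s⁻¹ * br G x O) * s = -br G x O := by field_simp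
    linarith
  have h5 : (br G x O) ^ 2 ≤ (B * s) ^ 2 := by
    rw [← neg_sq]
    exact pow_le_pow_left₀ (by linarith) h4 2
  rw [mul_pow, hs2] at h5
  have h6 : 1 / B ^ 2 * br G x O ^ 2 ≤ -br G x x := by
    rw [one_div, inv_mul_le_iff₀ (by positivity)]
    exact h5
  linarith

/-- the chamber is bounded, all points of the sheet -/
theorem bound_sheet (hG : FinGrpStmt) (hT : TitsStmt) (hC : CocStmt) {G : M4} (h : Lat G)
    (hR : Reflective G) {O : R4} (hO : Gen G O) :
    ∃ c : ℝ, 0 < c ∧ ∀ x : R4, br G x x < 0 → br G x O < 0 → x ∈ KC G O →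
      br G x x ≤ -c * br G x O ^ 2 := by
  obtain ⟨c, hc, hcb⟩ := bound_int hG hT hC h hR hO
  refine ⟨c, hc, fun x hx hxO hxK => ?_⟩
  set p : ℝ → R4 := fun t => (1 - t) • x + t • O with hp
  have hpc : Continuous p := by simp only [hp]; fun_prop
  have hF : Continuous (fun t => br G (p t) (p t) + c * br G (p t) O ^ 2) :=
    ((br_continuous_diag G).comp hpc).add
      (continuous_const.mul (((br_continuous_left G O).comp hpc).pow 2))
  have hp0 : p 0 = x := by simp [hp]
  have h1 : Tendsto (fun t => br G (p t) (p t) + c * br G (p t) O ^ 2) (𝓝[>] 0)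
      (𝓝 (br G x x + c * br G x O ^ 2)) := by
    have := (hF.tendsto 0).mono_left (nhdsWithin_le_nhds (s := Set.Ioi (0 : ℝ)))
    rwa [hp0] at this
  have h2 : ∀ᶠ t in 𝓝[>] (0 : ℝ), br G (p t) (p t) + c * br G (p t) O ^ 2 ≤ 0 := by
    filter_upwards [Ioo_mem_nhdsGT (zero_lt_one' ℝ)] with t ht
    obtain ⟨e1, e2⟩ := cone_conv h hO.neg hx hxO hO.neg hO.neg (a := 1 - t) (b := t)
      (by linarith [ht.2]) ht.1.le (by linarith)
    have e3 := hcb (p t) e1 e2 (fun r hr => by
      simp only [hp]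
      rw [br_add_left, br_smul_left, br_smul_left]
      have f1 : (1 - t) * br G x (up r) ≤ 0 :=
        mul_nonpos_of_nonneg_of_nonpos (by linarith [ht.2]) (hxK r hr)
      have f2 : t * br G O (up r) < 0 := mul_neg_of_pos_of_neg ht.1 hr.neg
      linarith)
    linarith
  have h3 := le_of_tendsto h1 h2
  linarith

/-- there is a wall -/
theorem exists_wall (hS : WallSepStmt) {G : M4} (h : Lat G) {O : R4} (hO : Gen G O) {c : ℝ}
    (hc : 0 < c) (hcb : ∀ x : R4, br G x x < 0 → br G x O < 0 → x ∈ KC G O →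
      br G x x ≤ -c * br G x O ^ 2) : ∃ r, Wall G O r := by
  by_contra hcon
  push Not at hcon
  have hall : ∀ x : R4, br G x x < 0 → br G x O < 0 → br G x x ≤ -c * br G x O ^ 2 := by
    intro x hx hxO
    refine hcb x hx hxO fun ρ hρ => ?_
    by_contra h1
    push Not at h1
    obtain ⟨r, hr, -⟩ := hS G h O hO x ρ hx hxO hρ h1
    exact hcon r hr
  -- a vector orthogonal to `O`
  obtain ⟨v, hv0, hvO⟩ : ∃ v : R4, v ≠ 0 ∧ br G v O = 0 := by
    by_cases h0 : br G (Pi.single 0 1) O = 0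
    · refine ⟨Pi.single 0 1, ?_, h0⟩
      intro hz
      have := congrFun hz 0
      simp at this
    · refine ⟨br G (Pi.single 1 1) O • Pi.single 0 1 - br G (Pi.single 0 1) O • Pi.single 1 1,
        ?_, ?_⟩
      · intro hz
        have := congrFun hz 1
        simp at this
        exact h0 this
      · rw [br_sub_left, br_smul_left, br_smul_left]; ring
  have hOO := hO.neg
  have hv := h.pos hOO hvO hv0
  set q := -br G O O with hq
  have hq0 : 0 < q := by linarith
  set ε := min (1 / 2) (c * q / 2) with hε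
  have hε0 : 0 < ε := lt_min (by norm_num) (by positivity)
  have hε1 : ε ≤ 1 / 2 := min_le_left _ _
  have hε2 : ε ≤ c * q / 2 := min_le_right _ _
  set s := Real.sqrt (q * (1 - ε) / br G v v) with hs
  have hs2 : s ^ 2 * br G v v = q * (1 - ε) := by
    rw [hs, Real.sq_sqrt (div_nonneg (mul_nonneg hq0.le (by linarith)) hv.le)]
    field_simp
  have e1 : br G (O + s • v) (O + s • v) = -(ε * q) := by
    rw [br_add_left, br_add_right, br_add_right, br_smul_left, br_smul_left, br_smul_right,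
      br_smul_right, h.bcomm O v, hvO]
    have : s * (s * br G v v) = q * (1 - ε) := by rw [← hs2]; ring
    rw [this]
    have : br G O O = -q := by rw [hq]; ring
    rw [this]; ring
  have e2 : br G (O + s • v) O = -q := by
    rw [br_add_left, br_smul_left, hvO]; rw [hq]; ring
  have e3 := hall (O + s • v) (by rw [e1]; have := mul_pos hε0 hq0; linarith)
    (by rw [e2]; linarith)
  rw [e1, e2] at e3
  have e4 : c * q ^ 2 ≤ ε * q := by nlinarith
  have e5 : ε * q ≤ c * q / 2 * q := mul_le_mul_of_nonneg_right hε2 hq0.le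
  have e6 : 0 < c * q ^ 2 := by positivity
  nlinarith

/-- the cone of the walls is the chamber, and it is bounded -/
theorem wall_cone (hS : WallSepStmt) {G : M4} (h : Lat G) {O : R4} (hO : Gen G O) {c : ℝ}
    (hc : 0 < c) (hcb : ∀ x : R4, br G x x < 0 → br G x O < 0 → x ∈ KC G O →
      br G x x ≤ -c * br G x O ^ 2) {x : R4} (hx : ∀ r, Wall G O r → br G x (up r) ≤ 0) :
    br G x x ≤ -c * br G x O ^ 2 ∧ x ∈ KC G O := by
  obtain ⟨r0, hr0⟩ := exists_wall hS h hO hc hcb
  set p : ℝ → R4 := fun t => (1 - t) • O + t • x with hp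
  have hpc : Continuous p := by simp only [hp]; fun_prop
  have hp0 : p 0 = O := by simp [hp]
  have hp1 : p 1 = x := by simp [hp]
  have hneg : ∀ t, 0 ≤ t → t < 1 → ∀ r, Wall G O r → br G (p t) (up r) < 0 := by
    intro t h0 h1 r hr
    simp only [hp]
    rw [br_add_left, br_smul_left, br_smul_left]
    have f1 : t * br G x (up r) ≤ 0 := mul_nonpos_of_nonneg_of_nonpos h0 (hx r hr)
    have f2 : (1 - t) * br G O (up r) < 0 := mul_neg_of_pos_of_neg (by linarith) hr.1.neg
    linarith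
  have hKA : ∀ t, 0 ≤ t → t < 1 → br G (p t) (p t) < 0 → br G (p t) O < 0 → p t ∈ KC G O := by
    intro t h0 h1 h2 h3 ρ hρ
    by_contra hcon
    push Not at hcon
    obtain ⟨r, hr, hr'⟩ := hS G h O hO (p t) ρ h2 h3 hρ hcon
    exact absurd hr' (not_lt.2 (hneg t h0 h1 r hr).le)
  have hBA : ∀ t, 0 ≤ t → t < 1 → br G (p t) (p t) ≤ -c * br G (p t) O ^ 2 →
      br G (p t) O ≤ 0 → br G (p t) (p t) < 0 ∧ br G (p t) O < 0 := by
    intro t h0 h1 h2 h3
    have hne : p t ≠ 0 := by
      intro hz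
      have := hneg t h0 h1 r0 hr0
      rw [hz] at this
      simp [br] at this
    have h4 : br G (p t) (p t) ≤ 0 := by
      have : 0 ≤ c * br G (p t) O ^ 2 := by positivity
      linarith
    have h5 := h.ne_of_nonpos hO.neg h4 hne
    have h6 : br G (p t) O < 0 := lt_of_le_of_ne h3 h5
    refine ⟨?_, h6⟩
    have : 0 < c * br G (p t) O ^ 2 := by positivity
    linarith
  have hcQ : Continuous fun t => br G (p t) (p t) := (br_continuous_diag G).comp hpc
  have hcO : Continuous fun t => br G (p t) O := (br_continuous_left G O).comp hpc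
  set s : Set ℝ := {t | br G (p t) (p t) ≤ -c * br G (p t) O ^ 2} ∩ {t | br G (p t) O ≤ 0} with hs
  have hsc : IsClosed s :=
    (isClosed_le hcQ (continuous_const.mul (hcO.pow 2))).inter (isClosed_le hcO continuous_const)
  have hO' : O ∈ KC G O := fun r hr => hr.neg.le
  have hmain : ∀ t, 0 ≤ t → t < 1 → t ∈ s := by
    intro t1 h0 h1
    have hsub := IsClosed.Icc_subset_of_forall_mem_nhdsWithin (a := 0) (b := t1) (s := s)
      (hsc.inter isClosed_Icc) ?_ ?_
    · exact hsub ⟨h0, le_rfl⟩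
    · refine ⟨?_, ?_⟩
      · show br G (p 0) (p 0) ≤ -c * br G (p 0) O ^ 2
        rw [hp0]
        exact hcb O hO.neg hO.neg hO'
      · show br G (p 0) O ≤ 0
        rw [hp0]; exact hO.neg.le
    · rintro t ⟨hts, ht0, ht1⟩
      obtain ⟨a1, a2⟩ := hBA t ht0 (ht1.trans h1) hts.1 hts.2
      have o1 : {t | br G (p t) (p t) < 0} ∈ 𝓝[>] t :=
        nhdsWithin_le_nhds ((isOpen_lt hcQ continuous_const).mem_nhds a1)
      have o2 : {t | br G (p t) O < 0} ∈ 𝓝[>] t :=
        nhdsWithin_le_nhds ((isOpen_lt hcO continuous_const).mem_nhds a2)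
      filter_upwards [o1, o2, Ioo_mem_nhdsGT (ht1.trans h1)] with t' b1 b2 b3
      exact ⟨hcb _ b1 b2 (hKA t' (ht0.trans b3.1.le) b3.2 b1 b2), b2.le⟩
  have hlim : ∀ f : ℝ → ℝ, Continuous f → (∀ t, 0 ≤ t → t < 1 → f t ≤ 0) → f 1 ≤ 0 := by
    intro f hf hle
    have h1 : Tendsto f (𝓝[<] 1) (𝓝 (f 1)) := (hf.tendsto 1).mono_left nhdsWithin_le_nhds
    refine le_of_tendsto h1 ?_
    filter_upwards [Ioo_mem_nhdsLT (zero_lt_one' ℝ)] with t ht
    exact hle t ht.1.le ht.2
  constructor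
  · have h1 := hlim (fun t => br G (p t) (p t) + c * br G (p t) O ^ 2)
      (hcQ.add (continuous_const.mul (hcO.pow 2))) (fun t h0 h1 => by
        have := (hmain t h0 h1).1
        change br G (p t) (p t) ≤ -c * br G (p t) O ^ 2 at this
        show br G (p t) (p t) + c * br G (p t) O ^ 2 ≤ 0
        linarith)
    simp only [hp1] at h1
    linarith
  · intro ρ hρ
    have h1 := hlim (fun t => br G (p t) (up ρ)) ((br_continuous_left G (up ρ)).comp hpc)
      (fun t h0 h1 => by
        obtain ⟨a1, a2⟩ := hBA t h0 h1 (hmain t h0 h1).1 (hmain t h0 h1).2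
        exact hKA t h0 h1 a1 a2 ρ hρ)
    simp only [hp1] at h1
    exact h1

/-- a wall point lies in the chamber -/
theorem wall_point {G : M4} {O : R4} {r : Z4} (hr : Wall G O r) : ∃ z : R4, br G z z < 0 ∧
    br G z O < 0 ∧ br G z (up r) = 0 ∧ (∀ r', PR G O r' → r' ≠ r → br G z (up r') < 0) ∧
    z ∈ KC G O := by
  obtain ⟨-, z, h1, h2, h3, h4⟩ := hr
  refine ⟨z, h1, h2, h3, h4, fun r' hr' => ?_⟩
  by_cases h : r' = r
  · rw [h, h3]
  · exact (h4 r' hr' h).le

/-- there are finitely many walls -/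
theorem wall_fin (hF : FinVecStmt) (hD : RootDvdStmt) {G : M4} (h : Lat G) {O : R4}
    (hO : Gen G O) {c : ℝ} (hc : 0 < c)
    (hcb : ∀ x : R4, br G x x < 0 → br G x O < 0 → x ∈ KC G O →
      br G x x ≤ -c * br G x O ^ 2) : {r | Wall G O r}.Finite := by
  set D : ℝ := 2 * |(G.det : ℝ)| with hDd
  have hD0 : 0 ≤ D := by positivity
  refine (hF G h O hO.neg (max D (Real.sqrt (D / c)))).subset ?_
  intro r hr
  have hR := hr.1.root
  have hn := root_norm_le hD h hR
  refine ⟨hn.trans (le_max_left _ _), le_trans ?_ (le_max_right _ _)⟩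
  obtain ⟨z, hz, hzO, hzr, -, hzK⟩ := wall_point hr
  have hb := hcb z hz hzO hzK
  set u := O - (br G O z / br G z z) • z with hu
  have hzne : br G z z ≠ 0 := hz.ne
  have huz : br G u z = 0 := by
    rw [hu, br_sub_left, br_smul_left]
    field_simp
    ring
  have hur : br G u (up r) = br G O (up r) := by
    rw [hu, br_sub_left, br_smul_left, hzr]; ring
  have huu : br G u u = br G O O - br G O z ^ 2 / br G z z := by
    have h1 : br G u u = br G u O := by
      conv_lhs => rw [show u = O - (br G O z / br G z z) • z from rfl, br_sub_left, br_smul_left]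
      rw [h.bcomm z u, huz, h.bcomm O u]; ring
    rw [h1, hu, br_sub_left, br_smul_left, h.bcomm z O]
    ring
  have hcs := cs_perp h hz huz (by rw [h.bcomm]; exact hzr : br G (up r) z = 0)
  rw [hur] at hcs
  have hrr : br G (up r) (up r) ≤ D := by rw [br_up]; exact hn
  have hu1 : br G u u ≤ 1 / c := by
    rw [huu]
    have h2 : -(br G O z ^ 2 / br G z z) ≤ 1 / c := by
      rw [← div_neg, div_le_div_iff₀ (by linarith) hc, h.bcomm O z]
      nlinarith
    have := hO.neg
    linarith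
  apply Real.abs_le_sqrt
  have hu0 : 0 ≤ br G u u := h.pos' hz huz
  calc br G O (up r) ^ 2 ≤ br G u u * br G (up r) (up r) := hcs
    _ ≤ 1 / c * D := mul_le_mul hu1 hrr hR.pos_real.le (by positivity)
    _ = D / c := by ring

theorem cham (hG : FinGrpStmt) (hF : FinVecStmt) (hD : RootDvdStmt) (hC : CocStmt)
    (hT : TitsStmt) (hS : WallSepStmt) (hW : WallSimpleStmt) : ChamStmt := by
  intro G h hR O hOn hOg
  have hO : Gen G O := ⟨hOn, hOg⟩
  obtain ⟨c, hc, hcb⟩ := bound_sheet hG hT hC h hR hO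
  have hfin := wall_fin hF hD h hO hc hcb
  haveI : Finite {r // Wall G O r} := hfin
  obtain ⟨n, ⟨e⟩⟩ := Finite.exists_equiv_fin {r // Wall G O r}
  have hcone : ∀ x : R4, (∀ i, br G x (up (e.symm i).1) ≤ 0) →
      br G x x ≤ -c * br G x O ^ 2 ∧ x ∈ KC G O := by
    intro x hx
    refine wall_cone hS h hO hc hcb fun r hr => ?_
    have := hx (e ⟨r, hr⟩)
    rwa [e.symm_apply_apply] at this
  refine ⟨n, fun i => (e.symm i).1, ?_, ?_, ?_, hOn, ?_, ⟨c, hc, fun x hx => (hcone x hx).1⟩, ?_⟩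
  · intro i
    exact (e.symm i).2.1.root
  · intro i j hij
    exact e.symm.injective (Subtype.ext hij)
  · intro i j hij
    set a := (e.symm i).1 with ha
    set b := (e.symm j).1 with hb
    have hab : b ≠ a := by
      intro hba
      exact hij (e.symm.injective (Subtype.ext hba.symm))
    have hWa : Wall G O a := (e.symm i).2
    have hWb : Wall G O b := (e.symm j).2
    by_contra hcon
    push Not at hcon
    have hρ := hW G h O hO a b hWa hWb.1 hab
    obtain ⟨z, hz, hzO, hzb, hzo, hzK⟩ := wall_point hWb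
    have h1 := hzK _ hρ
    rw [← act_up, h.bcomm, br_act_reflU hWa.1.root, h.bcomm (up b) z, hzb] at h1
    have h2 : br G z (up a) < 0 := hzo a hWa.1 hab.symm
    have h3 : (0 : ℝ) < br G (up b) (up a) := by
      rw [br_up, h.zcomm]; exact_mod_cast hcon
    have h4 : 0 < -(2 * br G (up b) (up a) * br G (up a) z / br G (up a) (up a)) := by
      rw [← neg_div, h.bcomm (up a) z]
      refine div_pos ?_ hWa.1.root.pos_real
      nlinarith [mul_pos h3 (neg_pos.2 h2)]
    linarith
  · intro i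
    exact (e.symm i).2.1.neg
  · intro r hr
    rcases lt_or_gt_of_ne (hO.ne r hr) with h1 | h1
    · left
      intro x hx
      exact (hcone x hx).2 r ⟨hr, h1⟩
    · right
      intro x hx
      have := (hcone x hx).2 (-r) ⟨hr.neg, by rw [up_neg, br_neg_right]; linarith⟩
      rw [up_neg, br_neg_right] at this
      linarith

end Pool.Agent.Refl.H84
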