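import Pool.Agent.Helper84_Refl.Base2

/-!
# REFL, module CHAM1 (helper84): statements (positive roots, walls)
-/

set_option linter.all false

namespace Pool.Agent.Refl

open Matrix

/-- base point on no mirror -/
structure Gen (G : M4) (O : R4) : Prop where
  neg : br G O O < 0
  ne : ∀ r : Z4, IsRoot G r → br G O (up r) ≠ 0

/-- positive roots: negative at the base point -/
structure PR (G : M4) (O : R4) (r : Z4) : Prop where
  root : IsRoot G r
  neg : br G O (up r) < 0

/-- the closed chamber (all of it, no sheet condition) -/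
def KC (G : M4) (O : R4) : Set R4 := {x | ∀ r, PR G O r → br G x (up r) ≤ 0}

/-- wall roots: positive roots whose mirror contains a point of the chamber which is on no other
mirror -/
def Wall (G : M4) (O : R4) (r : Z4) : Prop :=
  PR G O r ∧ ∃ z : R4, br G z z < 0 ∧ br G z O < 0 ∧ br G z (up r) = 0 ∧
    ∀ r', PR G O r' → r' ≠ r → br G z (up r') < 0

/-- CH0: local finiteness -/
def LocFinStmt : Prop := ∀ G : M4, Lat G → ∀ O x : R4, br G O O < 0 → br G x x < 0 →
  br G x O < 0 → {r : Z4 | IsRoot G r ∧ br G O (up r) < 0 ∧ 0 ≤ br G x (up r)}.Finite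

/-- roots are controlled by their value at the base point -/
def RootBoundStmt : Prop := ∀ G : M4, Lat G → ∀ O : R4, Gen G O →
  ∃ C : ℝ, 0 < C ∧ ∀ r : Z4, IsRoot G r → ∀ x : R4, ∀ ε : ℝ, (∀ i, |x i| ≤ ε) →
    |br G x (up r)| ≤ C * ε * |br G O (up r)|

/-- CH1: the reflection in a wall root permutes the other positive roots -/
def WallSimpleStmt : Prop := ∀ G : M4, Lat G → ∀ O : R4, Gen G O → ∀ r r' : Z4,
  Wall G O r → PR G O r' → r' ≠ r → PR G O ((reflU G r : M4).mulVec r')

/-- CH1: a point of the sheet of `O` outside of the chamber is separated from `O` by a wall -/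
def WallSepStmt : Prop := ∀ G : M4, Lat G → ∀ O : R4, Gen G O → ∀ y : R4, ∀ ρ : Z4,
  br G y y < 0 → br G y O < 0 → PR G O ρ → 0 < br G y (up ρ) →
    ∃ r, Wall G O r ∧ 0 < br G y (up r)

/-- CH2: the wall reflections generate `Or` -/
def WallGenStmt : Prop := ∀ G : M4, Lat G → ∀ O : R4, Gen G O →
  Or G = Subgroup.closure {g | ∃ r, Wall G O r ∧ g = reflU G r}

/-- elements of `Or` preserve the two sheets -/
def SheetStmt : Prop := ∀ G : M4, Lat G → ∀ O x : R4, br G O O < 0 → br G x x < 0 →
  br G x O < 0 → ∀ g ∈ Or G, br G (act (g : M4) x) O < 0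

end Pool.Agent.Refl
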