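import Pool.Agent.Helper84_Refl.Base2

/-!
# REFL, module COC part 1 (helper84): short lattice vectors span
-/

set_option linter.all false

namespace Pool.Agent.Refl.H84

open Matrix MeasureTheory

/-- real Gram matrix -/
def GR (G : M4) : Matrix (Fin 4) (Fin 4) ℝ := G.map (Int.cast : ℤ → ℝ)

theorem GR_det (G : M4) : (GR G).det = (G.det : ℝ) := ((Int.castRingHom ℝ).map_det G).symm

/-- matrix of the majorant -/
noncomputable def Am (G : M4) (x : R4) : Matrix (Fin 4) (Fin 4) ℝ :=
  GR G + replicateCol Unit ((2 : ℝ) • (GR G).mulVec x) * replicateRow Unit ((GR G).mulVec x)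

theorem Am_apply (G : M4) (x : R4) (i j : Fin 4) :
    Am G x i j = (G i j : ℝ) + 2 * (GR G).mulVec x i * (GR G).mulVec x j := by
  simp [Am, Matrix.mul_apply, GR]
  ring

theorem Am_dot {G : M4} (h : Lat G) {x : R4} (hx : br G x x = -1) (v : R4) :
    v ⬝ᵥ (Am G x).mulVec v = maj G x v := by
  have h1 : br G v x = ∑ i, v i * (GR G).mulVec x i := br_eq_dot G v x
  have h2 : br G v v = ∑ i, ∑ j, v i * (G i j : ℝ) * v j := rfl
  unfold maj
  rw [hx, h1, h2]
  simp only [dotProduct, mulVec, Am_apply]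
  simp only [Fin.sum_univ_four]
  ring

theorem Am_det {G : M4} (h : Lat G) {x : R4} (hx : br G x x = -1) :
    (Am G x).det = -(G.det : ℝ) := by
  have hu : IsUnit (GR G).det := by
    rw [GR_det, isUnit_iff_ne_zero]
    exact_mod_cast h.det_ne
  unfold Am
  rw [Matrix.det_add_replicateCol_mul_replicateRow hu, GR_det]
  have h1 : (1 + replicateRow Unit ((GR G).mulVec x) * (GR G)⁻¹ *
      replicateCol Unit ((2 : ℝ) • (GR G).mulVec x) : Matrix Unit Unit ℝ) default default = -1 := by
    rw [Matrix.mul_assoc, Matrix.add_apply, Matrix.one_apply_eq]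
    have h2 : (GR G)⁻¹ * replicateCol Unit ((2 : ℝ) • (GR G).mulVec x) =
        replicateCol Unit ((2 : ℝ) • x) := by
      ext i j
      have h3 : (GR G)⁻¹.mulVec ((2 : ℝ) • (GR G).mulVec x) = (2 : ℝ) • x := by
        rw [Matrix.mulVec_smul, Matrix.mulVec_mulVec, Matrix.nonsing_inv_mul _ hu,
          Matrix.one_mulVec]
      have h4 := congrFun h3 i
      simpa [Matrix.mul_apply, mulVec, dotProduct] using h4
    rw [h2, Matrix.replicateRow_mul_replicateCol_apply]
    have h5 : (GR G).mulVec x ⬝ᵥ ((2 : ℝ) • x) = 2 * br G x x := by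
      rw [br_eq_dot, dotProduct_smul, dotProduct_comm]
      rfl
    rw [h5, hx]; norm_num
  rw [Matrix.det_unique (n := Unit), h1]; ring

theorem exists_B {G : M4} (h : Lat G) {x : R4} (hx : br G x x = -1) :
    ∃ B : Matrix (Fin 4) (Fin 4) ℝ, (∀ v, ∑ i, (B.mulVec v i) ^ 2 = maj G x v) ∧
      B.det ^ 2 = -(G.det : ℝ) := by
  have hneg : br G x x < 0 := by rw [hx]; norm_num
  have hsymm : (Am G x).IsHermitian := by
    ext i j
    simp only [Matrix.conjTranspose_apply, star_trivial, Am_apply]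
    rw [G_symm h.symm j i]; ring
  have hpos : (Am G x).PosSemidef := by
    refine Matrix.PosSemidef.of_dotProduct_mulVec_nonneg hsymm fun v => ?_
    rw [star_trivial, Am_dot h hx]
    exact maj_nonneg h hneg v
  obtain ⟨B, hB⟩ : ∃ B : Matrix (Fin 4) (Fin 4) ℝ, Am G x = B.transpose * B := by
    open scoped MatrixOrder in
    obtain ⟨B, hB⟩ := CStarAlgebra.nonneg_iff_eq_star_mul_self.1 hpos.nonneg
    exact ⟨B, by rw [hB]; rfl⟩
  refine ⟨B, fun v => ?_, ?_⟩
  · rw [← Am_dot h hx, hB, ← Matrix.mulVec_mulVec, Matrix.mulVec_transpose,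
      dotProduct_comm, ← Matrix.dotProduct_mulVec]
    simp [dotProduct, sq]
  · rw [← Am_det h hx, hB, Matrix.det_mul, Matrix.det_transpose]; ring

theorem maj_ge_one {G : M4} (h : Lat G) {x : R4} (hx : br G x x < 0) {v : Z4} (hv : v ≠ 0) :
    1 ≤ maj G x (up v) := by
  have h1 := abs_le_br h (x := up v) hx
  rw [br_up] at h1
  have h2 : bz G v v ≠ 0 := fun h0 => hv (h.anis v h0)
  have h3 : 1 ≤ |bz G v v| := Int.one_le_abs h2
  have h4 : (1 : ℝ) ≤ |(bz G v v : ℝ)| := by exact_mod_cast h3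
  linarith

theorem span_top {G : M4} (h : Lat G) : ∃ R : ℝ, 1 ≤ R ∧ ∀ x : R4, br G x x = -1 →
    Submodule.span ℝ {w : R4 | ∃ v : Z4, up v = w ∧ maj G x w ≤ R} = ⊤ := by
  set D : ℝ := -(G.det : ℝ) with hD
  have hD1 : 1 ≤ D := by
    have := h.det_neg
    have h2 : (G.det : ℝ) ≤ -1 := by exact_mod_cast (by omega : G.det ≤ -1)
    linarith
  set T : ℝ := 17 * D with hT
  have hT1 : 17 ≤ T := by linarith
  refine ⟨T ^ 2, by nlinarith, fun x hx => ?_⟩
  have hneg : br G x x < 0 := by rw [hx]; norm_num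
  by_contra hcon
  obtain ⟨f, hf0, hfW⟩ := Submodule.exists_le_ker_of_lt_top _ (lt_top_iff_ne_top.2 hcon)
  obtain ⟨B, hB, hBdet⟩ := exists_B h hx
  have hBd0 : B.det ≠ 0 := by
    intro h0
    rw [h0] at hBdet
    have : (0 : ℝ) = D := by rw [hD, ← hBdet]; norm_num
    linarith
  have hBu : IsUnit B.det := isUnit_iff_ne_zero.2 hBd0
  -- representation of f
  set c : R4 := fun i => f (Pi.single i 1) with hc
  have hfc : ∀ v, f v = c ⬝ᵥ v := by
    intro v
    have hv : v = ∑ i, v i • (Pi.single i 1 : R4) := by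
      funext j; simp [Finset.sum_apply, Pi.single_apply]
    conv_lhs => rw [hv]
    rw [map_sum]
    simp only [map_smul, dotProduct, hc, smul_eq_mul]
    exact Finset.sum_congr rfl fun i _ => by ring
  set m0 : R4 := vecMul c B⁻¹ with hm0
  have hfm : ∀ v, f v = m0 ⬝ᵥ B.mulVec v := by
    intro v
    rw [hfc, hm0, ← Matrix.dotProduct_mulVec, Matrix.mulVec_mulVec, Matrix.nonsing_inv_mul _ hBu,
      Matrix.one_mulVec]
  have hm0ne : m0 ≠ 0 := by
    intro h0
    apply hf0
    ext v
    simp [hfm, h0]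
  have hN2 : 0 < ∑ i, m0 i ^ 2 := by
    obtain ⟨i, hi⟩ : ∃ i, m0 i ≠ 0 := by
      by_contra hh
      push Not at hh
      exact hm0ne (funext hh)
    have : 0 < m0 i ^ 2 := by positivity
    exact lt_of_lt_of_le this
      (Finset.single_le_sum (f := fun i => m0 i ^ 2) (fun j _ => sq_nonneg _) (Finset.mem_univ i))
  set N : ℝ := Real.sqrt (∑ i, m0 i ^ 2) with hN
  have hNpos : 0 < N := Real.sqrt_pos.2 hN2
  have hNsq : N ^ 2 = ∑ i, m0 i ^ 2 := Real.sq_sqrt hN2.le
  set m : R4 := fun i => m0 i / N with hm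
  have hm1 : ∑ i, m i ^ 2 = 1 := by
    simp only [hm, div_pow]
    rw [← Finset.sum_div, ← hNsq]
    exact div_self (by positivity)
  have hm1' : m ⬝ᵥ m = 1 := by
    rw [← hm1]; simp [dotProduct, sq]
  have hfm' : ∀ v, f v = N * (m ⬝ᵥ B.mulVec v) := by
    intro v
    rw [hfm]
    simp only [dotProduct, hm, Finset.mul_sum]
    refine Finset.sum_congr rfl fun i _ => ?_
    field_simp
  -- the stretching matrix
  set Tm : Matrix (Fin 4) (Fin 4) ℝ :=
    1 + replicateCol Unit ((T - 1) • m) * replicateRow Unit m with hTm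
  have hTmdet : Tm.det = T := by
    rw [hTm, Matrix.det_one_add_replicateCol_mul_replicateRow, dotProduct_smul, hm1']
    simp
  have hTmv : ∀ z : R4, ∀ i, Tm.mulVec z i = z i + (T - 1) * (m ⬝ᵥ z) * m i := by
    intro z i
    rw [hTm, Matrix.add_mulVec, Matrix.one_mulVec, Pi.add_apply]
    congr 1
    simp only [mulVec, dotProduct, Matrix.mul_apply, Matrix.replicateCol_apply,
      Matrix.replicateRow_apply, Pi.smul_apply, smul_eq_mul, Finset.univ_unique,
      Finset.sum_const, Finset.card_singleton, one_smul, Finset.mul_sum, Finset.sum_mul]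
    refine Finset.sum_congr rfl fun j _ => ?_
    ring
  set Cm : Matrix (Fin 4) (Fin 4) ℝ := B⁻¹ * Tm with hCm
  have hCdet : 16 < |Cm.det| := by
    rw [hCm, Matrix.det_mul, hTmdet, Matrix.det_nonsing_inv, abs_mul, Ring.inverse_eq_inv',
      abs_inv, abs_of_pos (by linarith : 0 < T)]
    have hb : 0 < |B.det| := abs_pos.2 hBd0
    have hb2 : |B.det| ^ 2 = D := by rw [sq_abs, hBdet]
    have hb3 : |B.det| ≤ D := by
      rw [← hb2]
      have : 1 ≤ |B.det| := by
        by_contra hlt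
        push Not at hlt
        nlinarith
      nlinarith
    rw [inv_mul_eq_div, lt_div_iff₀ hb]
    nlinarith
  set s : Set R4 := (Matrix.mulVecLin Cm) '' Metric.ball (0 : R4) (1 / 2) with hs
  have hvol : volume s = ENNReal.ofReal |Cm.det| := by
    rw [hs, MeasureTheory.Measure.addHaar_image_linearMap, Real.volume_pi_ball _ (by norm_num)]
    rw [← Matrix.toLin'_apply', LinearMap.det_toLin']
    norm_num
  have hconv : Convex ℝ s := (convex_ball _ _).linear_image _
  have hsymm : ∀ y ∈ s, -y ∈ s := by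
    rintro y ⟨z, hz, rfl⟩
    refine ⟨-z, ?_, by simp [Matrix.mulVec_neg]⟩
    simpa using hz
  have hcount : Countable
      (Submodule.span ℤ (Set.range (Pi.basisFun ℝ (Fin 4)))).toAddSubgroup := by
    change Countable (Submodule.span ℤ (Set.range (Pi.basisFun ℝ (Fin 4))))
    infer_instance
  obtain ⟨⟨w, hwL⟩, hwne, hws⟩ := exists_ne_zero_mem_lattice_of_measure_mul_two_pow_lt_measure
    (ZSpan.isAddFundamentalDomain' (Pi.basisFun ℝ (Fin 4)) volume) hsymm hconv (by
      rw [ZSpan.fundamentalDomain_pi_basisFun, Real.volume_pi_Ico, hvol]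
      simp only [sub_zero, ENNReal.ofReal_one, Finset.prod_const_one, one_mul,
        Module.finrank_fintype_fun_eq_card, Fintype.card_fin]
      rw [show ((2 : ENNReal) ^ 4) = ENNReal.ofReal 16 by norm_num]
      exact (ENNReal.ofReal_lt_ofReal_iff (by linarith)).2 hCdet)
  have hwv : ∃ v : Z4, up v = w := by
    rw [Submodule.mem_toAddSubgroup, Module.Basis.mem_span_iff_repr_mem] at hwL
    choose v hv using fun i => hwL i
    refine ⟨v, ?_⟩
    funext i
    have := hv i
    simpa [up] using this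
  obtain ⟨v, rfl⟩ := hwv
  have hvne : v ≠ 0 := by
    rintro rfl
    apply hwne
    ext1
    simp
  obtain ⟨z, hz, hzv⟩ := hws
  have hzv' : Cm.mulVec z = up v := hzv
  have hy : B.mulVec (up v) = Tm.mulVec z := by
    rw [← hzv', hCm, Matrix.mulVec_mulVec, ← Matrix.mul_assoc, Matrix.mul_nonsing_inv _ hBu,
      Matrix.one_mul]
  have hz2 : ∑ i, z i ^ 2 < 1 := by
    have h1 : ∀ i, z i ^ 2 < 1 / 4 := by
      intro i
      have h2 : ‖z i‖ < 1 / 2 := lt_of_le_of_lt (norm_le_pi_norm z i) (by simpa using hz)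
      rw [Real.norm_eq_abs, abs_lt] at h2
      nlinarith
    have := h1 0
    have := h1 1
    have := h1 2
    have := h1 3
    simp only [Fin.sum_univ_four]
    linarith
  set p : ℝ := m ⬝ᵥ z with hp
  have hcs : p ^ 2 ≤ ∑ i, z i ^ 2 := by
    have := Finset.sum_mul_sq_le_sq_mul_sq Finset.univ m z
    rw [hm1, one_mul] at this
    exact this
  have hsum : maj G x (up v) = ∑ i, z i ^ 2 + (T ^ 2 - 1) * p ^ 2 := by
    rw [← hB, hy]
    have e0 : ∀ i, (Tm.mulVec z i) ^ 2 = (z i + (T - 1) * p * m i) ^ 2 := by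
      intro i
      rw [hTmv z i]
    rw [Finset.sum_congr rfl fun i _ => e0 i]
    have e1 : ∀ i, (z i + (T - 1) * p * m i) ^ 2 =
        z i ^ 2 + 2 * (T - 1) * p * (m i * z i) + (T - 1) ^ 2 * p ^ 2 * m i ^ 2 := by
      intro i; ring
    simp only [e1, Finset.sum_add_distrib, ← Finset.mul_sum]
    rw [hm1]
    have : ∑ i, m i * z i = p := rfl
    rw [this]; ring
  have hle : maj G x (up v) ≤ T ^ 2 := by
    rw [hsum]
    have e3 : 0 ≤ T ^ 2 - 1 := by nlinarith
    have e4 := mul_le_mul_of_nonneg_left hcs e3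
    have e5 : T ^ 2 * ∑ i, z i ^ 2 ≤ T ^ 2 * 1 :=
      mul_le_mul_of_nonneg_left hz2.le (by positivity)
    linarith
  have hf1 : f (up v) = 0 := by
    have : up v ∈ Submodule.span ℝ {w : R4 | ∃ v : Z4, up v = w ∧ maj G x w ≤ T ^ 2} :=
      Submodule.subset_span ⟨v, rfl, hle⟩
    exact hfW this
  rw [hfm', hy] at hf1
  have h2 : m ⬝ᵥ Tm.mulVec z = T * p := by
    have : m ⬝ᵥ Tm.mulVec z = ∑ i, (m i * z i + (T - 1) * p * m i ^ 2) := by
      unfold dotProduct
      refine Finset.sum_congr rfl fun i _ => ?_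
      rw [hTmv z i, ← hp]; ring
    rw [this, Finset.sum_add_distrib, ← Finset.mul_sum, hm1]
    have : ∑ i, m i * z i = p := rfl
    rw [this]; ring
  rw [h2] at hf1
  have hp0 : p = 0 := by
    rcases mul_eq_zero.1 hf1 with h3 | h3
    · exact absurd h3 hNpos.ne'
    · rcases mul_eq_zero.1 h3 with h4 | h4
      · linarith
      · exact h4
  rw [hp0] at hsum
  have := maj_ge_one h hneg hvne
  rw [hsum] at this
  linarith

end Pool.Agent.Refl.H84
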